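import Mathlib

/-!
# Klein's identity for the icosahedron
-/

namespace Pool.Agent.H19.QF

lemma klein (a : ℤ) : (a ^ 30 + 522 * a ^ 25 - 10005 * a ^ 20 - 10005 * a ^ 10 - 522 * a ^ 5 + 1) ^ 2 =
    (a ^ 20 - 228 * a ^ 15 + 494 * a ^ 10 + 228 * a ^ 5 + 1) ^ 3 + 1728 * (a * (a ^ 10 + 11 * a ^ 5 - 1)) ^ 5 := by
  ring

lemma klein_family (N : ℤ) : ∃ x y m : ℤ, N ≤ x ∧ m ≠ 0 ∧ y ^ 2 = x ^ 3 + 1728 * m ^ 5 ∧
    ∀ p : ℕ, p.Prime → (p : ℤ) ∣ x → (p : ℤ) ∣ y → p ∈ ({2, 3, 5} : Finset ℕ) := by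
  obtain ⟨a, ha, haN⟩ : ∃ a : ℤ, 300 ≤ a ∧ N ≤ a := ⟨max 300 N, le_max_left _ _, le_max_right _ _⟩
  have ha5 : 300 ≤ a ^ 5 := by
    calc (300 : ℤ) ≤ a := ha
      _ = a ^ 1 := (pow_one a).symm
      _ ≤ a ^ 5 := pow_le_pow_right₀ (by omega) (by norm_num)
  have ha1 : a ≤ a ^ 5 := by
    calc a = a ^ 1 := (pow_one a).symm
      _ ≤ a ^ 5 := pow_le_pow_right₀ (by omega) (by norm_num)
  refine ⟨a ^ 20 - 228 * a ^ 15 + 494 * a ^ 10 + 228 * a ^ 5 + 1,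
    a ^ 30 + 522 * a ^ 25 - 10005 * a ^ 20 - 10005 * a ^ 10 - 522 * a ^ 5 + 1,
    a * (a ^ 10 + 11 * a ^ 5 - 1), ?_, ?_, klein a, ?_⟩
  · set w := a ^ 5 with hw
    have h1 : a ^ 20 - 228 * a ^ 15 + 494 * a ^ 10 + 228 * w + 1 = w ^ 3 * (w - 228) + 494 * w ^ 2 + 228 * w + 1 := by
      rw [hw]; ring
    rw [h1]
    have h2 : 0 ≤ w ^ 3 * (w - 228) := mul_nonneg (by positivity) (by linarith)
    nlinarith
  · apply mul_ne_zero (by omega)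
    set w := a ^ 5 with hw
    have h1 : a ^ 10 + 11 * w - 1 = w * (w + 11) - 1 := by rw [hw]; ring
    rw [h1]
    nlinarith
  · intro p hp hx hy
    have hpZ : Prime (p : ℤ) := Nat.prime_iff_prime_int.1 hp
    have small : ∀ q : ℕ, q.Prime → (p : ℤ) ∣ (q : ℤ) → p = q := by
      intro q hq h
      exact (Nat.prime_dvd_prime_iff_eq hp hq).1 (by exact_mod_cast h)
    have h1 : (p : ℤ) ∣ 1728 * (a * (a ^ 10 + 11 * a ^ 5 - 1)) ^ 5 := by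
      have : 1728 * (a * (a ^ 10 + 11 * a ^ 5 - 1)) ^ 5 =
          (a ^ 30 + 522 * a ^ 25 - 10005 * a ^ 20 - 10005 * a ^ 10 - 522 * a ^ 5 + 1) ^ 2 -
          (a ^ 20 - 228 * a ^ 15 + 494 * a ^ 10 + 228 * a ^ 5 + 1) ^ 3 := by rw [klein]; ring
      rw [this]
      exact dvd_sub (dvd_pow hy (by norm_num)) (dvd_pow hx (by norm_num))
    have hone : ¬ (p : ℤ) ∣ 1 := fun h => hpZ.not_isUnit (isUnit_of_dvd_one h)
    rcases hpZ.dvd_or_dvd h1 with h3 | h3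
    · have h4 : (1728 : ℤ) = (2 : ℤ) ^ 6 * (3 : ℤ) ^ 3 := by norm_num
      rw [h4] at h3
      rcases hpZ.dvd_or_dvd h3 with h5 | h5
      · have := small 2 Nat.prime_two (by exact_mod_cast hpZ.dvd_of_dvd_pow h5)
        simp [this]
      · have := small 3 Nat.prime_three (by exact_mod_cast hpZ.dvd_of_dvd_pow h5)
        simp [this]
    · have h4 := hpZ.dvd_of_dvd_pow h3
      rcases hpZ.dvd_or_dvd h4 with h5 | h5
      · exfalso
        apply hone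
        have h6 : (1 : ℤ) = (a ^ 20 - 228 * a ^ 15 + 494 * a ^ 10 + 228 * a ^ 5 + 1) -
            a * (a ^ 19 - 228 * a ^ 14 + 494 * a ^ 9 + 228 * a ^ 4) := by ring
        rw [h6]
        exact dvd_sub hx (dvd_mul_of_dvd_left h5 _)
      · -- `x ≡ 5⁵ w²` modulo `w² + 11 w - 1`
        have h7 : (p : ℤ) ∣ 5 ^ 5 * (a ^ 5) ^ 2 := by
          have h8 : 5 ^ 5 * (a ^ 5) ^ 2 = (a ^ 20 - 228 * a ^ 15 + 494 * a ^ 10 + 228 * a ^ 5 + 1) -
            (a ^ 10 + 11 * a ^ 5 - 1) * (a ^ 10 - 239 * a ^ 5 - 1) := by ring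
          rw [h8]
          exact dvd_sub hx (dvd_mul_of_dvd_left h5 _)
        rcases hpZ.dvd_or_dvd h7 with h8 | h8
        · have := small 5 Nat.prime_five (by exact_mod_cast hpZ.dvd_of_dvd_pow h8)
          simp [this]
        · exfalso
          apply hone
          have h9 := hpZ.dvd_of_dvd_pow (hpZ.dvd_of_dvd_pow h8)
          have h10 : (1 : ℤ) = (a ^ 20 - 228 * a ^ 15 + 494 * a ^ 10 + 228 * a ^ 5 + 1) -
              a * (a ^ 19 - 228 * a ^ 14 + 494 * a ^ 9 + 228 * a ^ 4) := by ring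
          rw [h10]
          exact dvd_sub hx (dvd_mul_of_dvd_left h9 _)

end Pool.Agent.H19.QF
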