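import Pool.Agent.H19.QF.Group
import Pool.Agent.H19.QF.Klein

/-!
# The inequalities for subgroups of order five over fields with few ramified primes
-/

namespace Pool.Agent.H19.QF

open Polynomial NumberField Pool.Agent.H67.Hall

lemma max_bound {C : ℝ} (hC : 0 < C) {x y k : ℤ} (hk0 : k ≠ 0) (heq : y ^ 2 = x ^ 3 + k)
    (h1 : |(x : ℝ)| ≤ C * |(k : ℝ)| ^ 2) :
    max |(x : ℝ)| |(y : ℝ)| ≤ (C ^ 3 + C + 1) * |(k : ℝ)| ^ 3 := by
  have hk1 : (1 : ℝ) ≤ |(k : ℝ)| := by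
    have := Int.one_le_abs hk0
    exact_mod_cast this
  have hC3 : 0 < C ^ 3 := by positivity
  apply max_le
  · calc |(x : ℝ)| ≤ C * |(k : ℝ)| ^ 2 := h1
      _ ≤ (C ^ 3 + C + 1) * |(k : ℝ)| ^ 3 := by
          apply mul_le_mul (by linarith) (pow_le_pow_right₀ hk1 (by norm_num)) (by positivity) (by positivity)
  · apply abs_le_of_sq_le_sq _ (by positivity)
    have h2 : (y : ℝ) ^ 2 = (x : ℝ) ^ 3 + k := by exact_mod_cast heq
    have h3 : |(x : ℝ)| ^ 3 ≤ (C * |(k : ℝ)| ^ 2) ^ 3 := pow_le_pow_left₀ (abs_nonneg _) h1 3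
    have h4 : (x : ℝ) ^ 3 ≤ |(x : ℝ)| ^ 3 := by rw [← abs_pow]; exact le_abs_self _
    have h5 : (k : ℝ) ≤ |(k : ℝ)| ^ 6 := by
      calc (k : ℝ) ≤ |(k : ℝ)| := le_abs_self _
        _ = |(k : ℝ)| ^ 1 := (pow_one _).symm
        _ ≤ |(k : ℝ)| ^ 6 := pow_le_pow_right₀ hk1 (by norm_num)
    have h6 : C ^ 3 + 1 ≤ (C ^ 3 + C + 1) ^ 2 := by nlinarith [mul_pos hC hC3, mul_pos hC3 hC3]
    calc (y : ℝ) ^ 2 ≤ (C * |(k : ℝ)| ^ 2) ^ 3 + |(k : ℝ)| ^ 6 := by rw [h2]; linarith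
      _ = (C ^ 3 + 1) * |(k : ℝ)| ^ 6 := by ring
      _ ≤ (C ^ 3 + C + 1) ^ 2 * |(k : ℝ)| ^ 6 := mul_le_mul_of_nonneg_right h6 (by positivity)
      _ = _ := by ring

/-- A reducible polynomial: the theorem of `Pool.Agent.H67.Hall.Five`. -/
lemma reducible {x y k : ℤ} (hk : k ≠ 0) (hxy : y ^ 2 = x ^ 3 + k) (hred : ¬ Irreducible (fib x k)) :
    max |(x : ℝ)| |(y : ℝ)| ≤ 240000000 * |(k : ℝ)| ^ 3 := by
  have key : max |x| |y| ≤ 240000000 * |k| ^ 3 := by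
    have hk1 : 1 ≤ |k| := Int.one_le_abs hk
    rcases eq_or_ne x 0 with rfl | hx
    · have hk3 : |k| ≤ |k| ^ 3 := le_self_pow₀ hk1 (by norm_num)
      have h1 : |y| ≤ |k| := by
        have h2 : y ^ 2 = k := by linear_combination hxy
        rw [← h2, abs_pow]
        exact Int.le_self_sq _ |>.trans (by simp)
      refine max_le (by rw [abs_zero]; positivity) ?_
      nlinarith
    refine (five_bound hk hxy hx fun G hG hdvd => ?_).2
    by_contra hcon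
    push Not at hcon
    have hF : (C k * P5 + C (1728 * x ^ 3) * X).map (Int.castRingHom ℚ) = fib x k := by
      have e1 : (Int.castRingHom ℚ) (1728 * x ^ 3) = 1728 * (x : ℚ) ^ 3 := by simp
      rw [Polynomial.map_add, Polynomial.map_mul, P5_map, Polynomial.map_C, Polynomial.map_mul,
        Polynomial.map_C, Polynomial.map_X, fib, e1, eq_intCast]
      ring
    rw [hF] at hdvd
    have hF0 : fib x k ≠ 0 := by
      intro h0
      have := fib_natDegree (x := x) hk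
      rw [h0, natDegree_zero] at this
      omega
    obtain ⟨H, hH⟩ := hdvd
    have hG0 : G ≠ 0 := hG.ne_zero
    have hH0 : H ≠ 0 := by rintro rfl; rw [mul_zero] at hH; exact hF0 hH
    have h2 : (fib x k).natDegree = G.natDegree + H.natDegree := by
      conv_lhs => rw [hH]
      exact natDegree_mul hG0 hH0
    rw [fib_natDegree hk] at h2
    have h3 : H.natDegree = 0 := by omega
    have h4 : IsUnit H := by
      rw [eq_C_of_natDegree_eq_zero h3]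
      apply (isUnit_iff_ne_zero.mpr _).map C
      intro h5
      apply hH0
      rw [eq_C_of_natDegree_eq_zero h3, h5, C_0]
    apply hred
    rw [hH]
    exact (irreducible_mul_isUnit h4).mpr hG
  exact_mod_cast key

/-- **Main theorem.** -/
theorem main (T : Finset ℕ) : ∃ C : ℝ, ∀ (K : Type) [Field K] [NumberField K],
    (∀ p : ℕ, p.Prime → (p : ℤ) ∣ discr K → p ∈ T) →
      ∀ x y k : ℤ, k ≠ 0 → y ^ 2 = x ^ 3 + k →
      (∃ z : K, (k : K) * (z ^ 2 + 10 * z + 5) ^ 3 + 1728 * x ^ 3 * z = 0) →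
      max |(x : ℝ)| |(y : ℝ)| ≤ C * |(k : ℝ)| ^ 3 := by
  obtain ⟨C, hC, hb⟩ := ramified_bound T 2 (by norm_num)
  refine ⟨max (C ^ 3 + C + 1) 240000000, fun K _ _ hK x y k hk0 heq hz => ?_⟩
  have hk3 : 0 ≤ |(k : ℝ)| ^ 3 := by positivity
  by_cases hirr : Irreducible (fib x k)
  · have h1 := hb K hK x y k hk0 heq hirr hz
    exact (max_bound hC hk0 heq (by simpa using h1)).trans
      (mul_le_mul_of_nonneg_right (le_max_left _ _) hk3)
  · exact (reducible hk0 heq hirr).trans (mul_le_mul_of_nonneg_right (le_max_right _ _) hk3)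

theorem strong (T : Finset ℕ) (N : ℕ) : ∃ c : ℝ, ∀ (K : Type) [Field K] [NumberField K],
    (∀ p : ℕ, p.Prime → (p : ℤ) ∣ discr K → p ∈ T) →
      ∀ x y k : ℤ, k ≠ 0 → y ^ 2 = x ^ 3 + k →
      (∃ z : K, (k : K) * (z ^ 2 + 10 * z + 5) ^ 3 + 1728 * x ^ 3 * z = 0) → Irreducible (fib x k) →
      |(x : ℝ)| ^ N ≤ c * |(k : ℝ)| ^ (N + 1) := by
  obtain ⟨C, hC, hb⟩ := ramified_bound T (N + 1) (by omega)
  refine ⟨C, fun K _ _ hK x y k hk0 heq hz hirr => ?_⟩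
  simpa using hb K hK x y k hk0 heq hirr hz

theorem fifth (T : Finset ℕ) (hT : ∀ p ∈ T, p.Prime) : ∃ C : ℝ, ∀ x y k u m : ℤ, k ≠ 0 → y ^ 2 = x ^ 3 + k →
      k = u * m ^ 5 → (∀ p : ℕ, p.Prime → (p : ℤ) ∣ u → p ∈ T) →
      (∀ p : ℕ, p.Prime → (p : ℤ) ∣ x → (p : ℤ) ∣ y → p ∈ T) →
      max |(x : ℝ)| |(y : ℝ)| ≤ C * |(k : ℝ)| ^ 3 := by
  obtain ⟨C, hC, h⟩ := general T hT 2 (by norm_num)
  refine ⟨C ^ 3 + C + 1, fun x y k u m hk0 heq hum hu hg => ?_⟩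
  apply max_bound hC hk0 heq
  rcases h x y k hk0 ⟨u, m, hum, hu⟩ heq hg with ⟨_, h1⟩ | h1
  · exact h1
  · simpa using h1

end Pool.Agent.H19.QF
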