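import Mathlib

/-!
# The discriminant of the field generated by a root of `V⁶ + 10 M V³ + 12 X V + 5 M²`
-/

namespace Pool.Agent.H19.QF

open NumberField Module Polynomial Matrix

section general

variable {L : Type*} [Field L] [NumberField L]

/-- The discriminant of a number field divides the discriminant of every family of integral elements, with a
square quotient. -/
lemma discr_family {n : ℕ} (hn : finrank ℚ L = n) (v : Fin n → L) (hv : ∀ i, IsIntegral ℤ (v i)) :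
    ∃ c : ℤ, Algebra.discr ℚ v = ((c ^ 2 * discr L : ℤ) : ℚ) := by
  classical
  have hcard : Fintype.card (Free.ChooseBasisIndex ℤ (𝓞 L)) = n := by
    rw [← hn, finrank_eq_card_basis (integralBasis L)]
  let e : Free.ChooseBasisIndex ℤ (𝓞 L) ≃ Fin n := Fintype.equivFinOfCardEq hcard
  let b : Basis (Fin n) ℚ L := (integralBasis L).reindex e
  have hb : Algebra.discr ℚ b = (discr L : ℚ) := by
    rw [NumberField.coe_discr, ← Algebra.discr_reindex ℚ (integralBasis L) e, ← Basis.coe_reindex]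
  have h1 : ∀ j, ∃ z : Fin n → ℤ, v j = ∑ i, ((z i : ℤ) : L) * b i := by
    intro j
    have h2 : v j ∈ Submodule.span ℤ (Set.range (integralBasis L)) := by
      rw [mem_span_integralBasis]
      exact ⟨⟨v j, hv j⟩, rfl⟩
    rw [Submodule.mem_span_range_iff_exists_fun] at h2
    obtain ⟨z, hz⟩ := h2
    refine ⟨fun i => z (e.symm i), ?_⟩
    rw [← hz, ← e.symm.sum_comp]
    refine Finset.sum_congr rfl fun i _ => ?_
    rw [zsmul_eq_mul]
    simp [b]
  choose z hz using h1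
  let P : Matrix (Fin n) (Fin n) ℤ := Matrix.of fun i j => z j i
  refine ⟨P.det, ?_⟩
  have h2 : v = b ᵥ* (P.map (Int.castRingHom ℚ)).map (algebraMap ℚ L) := by
    ext j
    rw [hz j, Matrix.vecMul, dotProduct]
    refine Finset.sum_congr rfl fun i _ => ?_
    simp [P, mul_comm]
  rw [h2, Algebra.discr_of_matrix_vecMul, hb]
  have h3 : (P.map (Int.castRingHom ℚ)).det = ((P.det : ℤ) : ℚ) := by
    rw [← RingHom.mapMatrix_apply, ← RingHom.map_det]
    rfl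
  rw [h3]
  push_cast
  ring

end general

lemma det6 (M X : ℚ) : (!![12*X, -30*M^2, 0, 0, 150*M^3, 0;
    0, -60*X, -30*M^2, 0, 360*M*X, 150*M^3;
    30*M, 0, -60*X, -30*M^2, 0, 360*M*X;
    0, -30*M, 0, -60*X, 270*M^2, 0;
    0, 0, -30*M, 0, -60*X, 270*M^2;
    6, 0, 0, -30*M, 0, -60*X] : Matrix (Fin 6) (Fin 6) ℚ).det = -(9331200000 * (X^3+M^5)^2) := by
  simp [Matrix.det_succ_row_zero, Fin.sum_univ_succ, Fin.succAbove]
  ring

lemma detQ (M X c : ℚ) : (!![1, 0, 0, 0, c * (5*M^4), 0;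
    0, 1, 0, 0, c * (7*M^2*X), c * (5*M^4);
    0, 0, 1, 0, c * (-2*X^2), c * (7*M^2*X);
    0, 0, 0, 1, c * M^3, c * (-2*X^2);
    0, 0, 0, 0, c * (M*X), c * M^3;
    0, 0, 0, 0, 0, c * (M*X)] : Matrix (Fin 6) (Fin 6) ℚ).det = (c * (M * X)) ^ 2 := by
  simp [Matrix.det_succ_row_zero, Fin.sum_univ_succ, Fin.succAbove]
  ring

/-- `X⁶ + a X³ + b X + c` -/
noncomputable def sx {R : Type*} [CommRing R] (a b c : R) : R[X] :=
  (Polynomial.X : R[X]) ^ 6 + C a * Polynomial.X ^ 3 + C b * Polynomial.X + C c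

lemma sx_natDegree {R : Type*} [CommRing R] [Nontrivial R] (a b c : R) : (sx a b c).natDegree = 6 := by
  unfold sx; compute_degree!

lemma sx_monic {R : Type*} [CommRing R] [Nontrivial R] (a b c : R) : (sx a b c).Monic := by
  rw [Monic, leadingCoeff, sx_natDegree]
  unfold sx
  simp [coeff_X, coeff_C]

lemma sx_aeval {R A : Type*} [CommRing R] [CommRing A] [Algebra R A] (a b c : R) (x : A) :
    aeval x (sx a b c) = x ^ 6 + algebraMap R A a * x ^ 3 + algebraMap R A b * x + algebraMap R A c := by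
  unfold sx
  simp

lemma sx_derivative {R A : Type*} [CommRing R] [CommRing A] [Algebra R A] (a b c : R) (x : A) :
    aeval x (derivative (sx a b c)) = 6 * x ^ 5 + 3 * algebraMap R A a * x ^ 2 + algebraMap R A b := by
  unfold sx
  have h2 : algebraMap R A 2 = 2 := map_ofNat _ 2
  have h5 : algebraMap R A 5 = 5 := map_ofNat _ 5
  simp [h2, h5]
  ring

section sextic

variable {L : Type*} [Field L] [NumberField L]

lemma minpoly_eq (pb : PowerBasis ℚ L) (hd : pb.dim = 6) (M X : ℤ)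
    (hV : pb.gen ^ 6 + 10 * M * pb.gen ^ 3 + 12 * X * pb.gen + 5 * M ^ 2 = 0) :
    minpoly ℚ pb.gen = sx (10 * (M : ℚ)) (12 * (X : ℚ)) (5 * (M : ℚ) ^ 2) := by
  have hroot : aeval pb.gen (sx (10 * (M : ℚ)) (12 * (X : ℚ)) (5 * (M : ℚ) ^ 2)) = 0 := by
    rw [sx_aeval, ← hV]
    simp
  have hdvd : minpoly ℚ pb.gen ∣ _ := minpoly.dvd ℚ _ hroot
  have hint : IsIntegral ℚ pb.gen := Algebra.IsIntegral.isIntegral _
  refine (Polynomial.eq_of_monic_of_dvd_of_natDegree_le (minpoly.monic hint) (sx_monic _ _ _) hdvd ?_).symm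
  rw [sx_natDegree, pb.natDegree_minpoly, hd]

lemma norm_der (pb : PowerBasis ℚ L) (hd : pb.dim = 6) (M X : ℤ)
    (hV : pb.gen ^ 6 + 10 * M * pb.gen ^ 3 + 12 * X * pb.gen + 5 * M ^ 2 = 0) :
    Algebra.norm ℚ (6 * pb.gen ^ 5 + 30 * M * pb.gen ^ 2 + 12 * X) = -(9331200000 * ((X : ℚ) ^ 3 + M ^ 5) ^ 2) := by
  classical
  let b : Basis (Fin 6) ℚ L := pb.basis.reindex (finCongr hd)
  have hb : ∀ i : Fin 6, b i = pb.gen ^ (i : ℕ) := by
    intro i
    simp [b]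
  rw [Algebra.norm_eq_matrix_det b, ← det6]
  congr 1
  set V : L := pb.gen with hVdef
  -- it suffices to compute the products with the basis elements
  have key : ∀ (a : L) (j : Fin 6) (col : Fin 6 → ℚ), a * b j = ∑ i, col i • b i →
      ∀ i, Algebra.leftMulMatrix b a i j = col i := by
    intro a j col h i
    rw [Algebra.leftMulMatrix_eq_repr_mul, h]
    exact congrFun (by exact_mod_cast b.repr_sum_self col) i
  have h6 : V ^ 6 = -(10 * M * V ^ 3 + 12 * X * V + 5 * M ^ 2) := by linear_combination hV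
  ext i j
  have hcol : ∀ j : Fin 6, (6 * V ^ 5 + 30 * M * V ^ 2 + 12 * X) * b j =
      ∑ i, (!![12*(X : ℚ), -30*(M : ℚ)^2, 0, 0, 150*(M : ℚ)^3, 0;
    0, -60*(X : ℚ), -30*(M : ℚ)^2, 0, 360*(M : ℚ)*X, 150*(M : ℚ)^3;
    30*(M : ℚ), 0, -60*(X : ℚ), -30*(M : ℚ)^2, 0, 360*(M : ℚ)*X;
    0, -30*(M : ℚ), 0, -60*(X : ℚ), 270*(M : ℚ)^2, 0;
    0, 0, -30*(M : ℚ), 0, -60*(X : ℚ), 270*(M : ℚ)^2;
    6, 0, 0, -30*(M : ℚ), 0, -60*(X : ℚ)] : Matrix (Fin 6) (Fin 6) ℚ) i j • b i := by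
    intro j
    fin_cases j
    · simp [Fin.sum_univ_succ, hb, Rat.smul_def]
      ring
    · simp [Fin.sum_univ_succ, hb, Rat.smul_def]
      linear_combination 6 * h6
    · simp [Fin.sum_univ_succ, hb, Rat.smul_def]
      linear_combination 6 * V * h6
    · simp [Fin.sum_univ_succ, hb, Rat.smul_def]
      linear_combination 6 * V ^ 2 * h6
    · simp [Fin.sum_univ_succ, hb, Rat.smul_def]
      linear_combination (6 * V ^ 3 - 30 * M) * h6
    · simp [Fin.sum_univ_succ, hb, Rat.smul_def]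
      linear_combination (6 * V ^ 4 - 30 * M * V) * h6
  exact key _ j (fun i => _) (hcol j) i

lemma discr_pb (pb : PowerBasis ℚ L) (hd : pb.dim = 6) (M X : ℤ)
    (hV : pb.gen ^ 6 + 10 * M * pb.gen ^ 3 + 12 * X * pb.gen + 5 * M ^ 2 = 0) :
    Algebra.discr ℚ (fun i : Fin 6 => pb.gen ^ (i : ℕ)) = 9331200000 * ((X : ℚ) ^ 3 + M ^ 5) ^ 2 := by
  have h1 : Algebra.discr ℚ pb.basis = 9331200000 * ((X : ℚ) ^ 3 + M ^ 5) ^ 2 := by
    rw [Algebra.discr_powerBasis_eq_norm, minpoly_eq pb hd M X hV]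
    have hfin : finrank ℚ L = 6 := by rw [pb.finrank, hd]
    rw [hfin]
    have h2 : aeval pb.gen (derivative (sx (10 * (M : ℚ)) (12 * (X : ℚ)) (5 * (M : ℚ) ^ 2))) =
        6 * pb.gen ^ 5 + 30 * M * pb.gen ^ 2 + 12 * X := by
      rw [sx_derivative]
      have e1 : algebraMap ℚ L (10 * (M : ℚ)) = 10 * M := by simp
      have e2 : algebraMap ℚ L (12 * (X : ℚ)) = 12 * X := by simp
      rw [e1, e2]
      ring
    rw [h2, norm_der pb hd M X hV]
    norm_num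
  rw [← h1]
  have h3 := Algebra.discr_reindex ℚ pb.basis (finCongr hd)
  rw [← h3]
  congr 1
  ext i
  simp

/-- The two divisibility properties of the discriminant. -/
theorem discr_dvd (pb : PowerBasis ℚ L) (hd : pb.dim = 6) (M X u y : ℤ) (hy : y ≠ 0)
    (hyX : X ^ 3 + M ^ 5 = u ^ 9 * y ^ 2)
    (hV : pb.gen ^ 6 + 10 * M * pb.gen ^ 3 + 12 * X * pb.gen + 5 * M ^ 2 = 0) :
    (discr L ∣ 9331200000 * u ^ 18 * y ^ 4) ∧ (discr L ∣ 9331200000 * u ^ 18 * (72 * (M * X)) ^ 4) := by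
  have hfin : finrank ℚ L = 6 := by rw [pb.finrank, hd]
  set V : L := pb.gen with hVdef
  have hVint : IsIntegral ℤ V := by
    refine ⟨sx (10 * M) (12 * X) (5 * M ^ 2), sx_monic _ _ _, ?_⟩
    rw [← aeval_def, sx_aeval, ← hV]
    simp
  have hI : ∀ n : ℤ, IsIntegral ℤ ((n : ℤ) : L) := fun n => by
    simpa using (isIntegral_algebraMap : IsIntegral ℤ (algebraMap ℤ L n))
  have hyL : (y : L) ≠ 0 := by exact_mod_cast hy
  have hyXL : (X : L) ^ 3 + (M : L) ^ 5 = (u : L) ^ 9 * (y : L) ^ 2 := by exact_mod_cast hyX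
  have hyXQ : (X : ℚ) ^ 3 + (M : ℚ) ^ 5 = (u : ℚ) ^ 9 * (y : ℚ) ^ 2 := by exact_mod_cast hyX
  set W : L := M * X * V ^ 4 + M ^ 3 * V ^ 3 - 2 * X ^ 2 * V ^ 2 + 7 * M ^ 2 * X * V + 5 * M ^ 4 with hW
  set ω : L := 72 * W / y with hω
  have hW2 : (72 * W) ^ 2 = -1728 * ((X : L) ^ 3 + M ^ 5) * V ^ 3 * (V ^ 6 + 22 * M * V ^ 3 + 125 * M ^ 2) := by
    have h1 : (V ^ 6 + 22 * M * V ^ 3 + 125 * M ^ 2) * (V ^ 6 + 4 * M * V ^ 3 - M ^ 2) = -(72 * W) := by
      rw [hW]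
      linear_combination (V ^ 6 + 16 * M * V ^ 3 + 47 * M^2 - 12 * X * V) * hV
    have h2 : (V ^ 6 + 22 * M * V ^ 3 + 125 * M ^ 2) * (V ^ 6 + 4 * M * V ^ 3 - M ^ 2) ^ 2 =
        -1728 * ((X : L) ^ 3 + M ^ 5) * V ^ 3 := by
      have h3 : (V ^ 6 + 10 * M * V ^ 3 + 5 * M ^ 2) ^ 3 = -1728 * (X : L) ^ 3 * V ^ 3 := by
        have h4 : V ^ 6 + 10 * M * V ^ 3 + 5 * M ^ 2 = -12 * X * V := by linear_combination hV
        rw [h4]; ring
      linear_combination h3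
    calc (72 * W) ^ 2 = (-(72 * W)) ^ 2 := by ring
      _ = ((V ^ 6 + 22 * M * V ^ 3 + 125 * M ^ 2) * (V ^ 6 + 4 * M * V ^ 3 - M ^ 2)) ^ 2 := by rw [h1]
      _ = ((V ^ 6 + 22 * M * V ^ 3 + 125 * M ^ 2) * (V ^ 6 + 4 * M * V ^ 3 - M ^ 2) ^ 2) *
          (V ^ 6 + 22 * M * V ^ 3 + 125 * M ^ 2) := by ring
      _ = _ := by rw [h2]
  have hω2 : ω ^ 2 = -1728 * (u : L) ^ 9 * V ^ 3 * (V ^ 6 + 22 * M * V ^ 3 + 125 * M ^ 2) := by
    rw [hω, div_pow, hW2, hyXL]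
    field_simp
  have hωint : IsIntegral ℤ ω := by
    apply IsIntegral.of_pow (n := 2) (by norm_num)
    rw [hω2]
    have e1 : IsIntegral ℤ (V ^ 3) := hVint.pow 3
    have e2 : IsIntegral ℤ (V ^ 6 + 22 * M * V ^ 3 + 125 * M ^ 2 : L) := by
      refine IsIntegral.add (IsIntegral.add (hVint.pow 6) ?_) ?_
      · have : (22 * M * V ^ 3 : L) = ((22 * M : ℤ) : L) * V ^ 3 := by push_cast; ring
        rw [this]; exact (hI _).mul e1
      · have : (125 * M ^ 2 : L) = ((125 * M ^ 2 : ℤ) : L) := by push_cast; ring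
        rw [this]; exact hI _
    have e3 : IsIntegral ℤ (-1728 * (u : L) ^ 9) := by
      have : (-1728 * (u : L) ^ 9) = ((-1728 * u ^ 9 : ℤ) : L) := by push_cast; ring
      rw [this]; exact hI _
    exact (e3.mul e1).mul e2
  have hdiscr := discr_pb pb hd M X hV
  constructor
  · obtain ⟨c, hc⟩ := discr_family hfin (fun i : Fin 6 => V ^ (i : ℕ)) (fun i => hVint.pow _)
    rw [hdiscr, hyXQ] at hc
    refine ⟨c ^ 2, ?_⟩
    have : ((9331200000 * u ^ 18 * y ^ 4 : ℤ) : ℚ) = ((c ^ 2 * discr L : ℤ) : ℚ) := by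
      rw [← hc]; push_cast; ring
    have h2 : 9331200000 * u ^ 18 * y ^ 4 = c ^ 2 * discr L := by exact_mod_cast this
    rw [h2]; ring
  · let v : Fin 6 → L := ![1, V, V ^ 2, V ^ 3, ω, V * ω]
    have hv : ∀ i, IsIntegral ℤ (v i) := by
      intro i
      fin_cases i
      · exact isIntegral_one
      · exact hVint
      · exact hVint.pow 2
      · exact hVint.pow 3
      · exact hωint
      · exact hVint.mul hωint
    obtain ⟨c, hc⟩ := discr_family hfin v hv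
    have hvm : v = (fun i : Fin 6 => V ^ (i : ℕ)) ᵥ* (!![1, 0, 0, 0, (72 / (y : ℚ)) * (5*(M : ℚ)^4), 0;
        0, 1, 0, 0, (72 / (y : ℚ)) * (7*(M : ℚ)^2*X), (72 / (y : ℚ)) * (5*(M : ℚ)^4);
        0, 0, 1, 0, (72 / (y : ℚ)) * (-2*(X : ℚ)^2), (72 / (y : ℚ)) * (7*(M : ℚ)^2*X);
        0, 0, 0, 1, (72 / (y : ℚ)) * (M : ℚ)^3, (72 / (y : ℚ)) * (-2*(X : ℚ)^2);
        0, 0, 0, 0, (72 / (y : ℚ)) * ((M : ℚ)*X), (72 / (y : ℚ)) * (M : ℚ)^3;
        0, 0, 0, 0, 0, (72 / (y : ℚ)) * ((M : ℚ)*X)] : Matrix (Fin 6) (Fin 6) ℚ).map (algebraMap ℚ L) := by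
      ext j
      fin_cases j
      · simp [v, Matrix.vecMul, dotProduct, Fin.sum_univ_succ]
      · simp [v, Matrix.vecMul, dotProduct, Fin.sum_univ_succ]
      · simp [v, Matrix.vecMul, dotProduct, Fin.sum_univ_succ]
      · simp [v, Matrix.vecMul, dotProduct, Fin.sum_univ_succ]
      · simp [v, Matrix.vecMul, dotProduct, Fin.sum_univ_succ, hω, hW]
        field_simp
        ring
      · simp [v, Matrix.vecMul, dotProduct, Fin.sum_univ_succ, hω, hW]
        field_simp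
        ring
    rw [hvm, Algebra.discr_of_matrix_vecMul, detQ, hdiscr, hyXQ] at hc
    have hyQ : (y : ℚ) ≠ 0 := by exact_mod_cast hy
    refine ⟨c ^ 2, ?_⟩
    have : ((9331200000 * u ^ 18 * (72 * (M * X)) ^ 4 : ℤ) : ℚ) = ((c ^ 2 * discr L : ℤ) : ℚ) := by
      rw [← hc]; push_cast; field_simp
    have h2 : 9331200000 * u ^ 18 * (72 * (M * X)) ^ 4 = c ^ 2 * discr L := by exact_mod_cast this
    rw [h2]; ring

end sextic

end Pool.Agent.H19.QF
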