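import Pool.Agent.H19.QF.Final

/-!
# Reduction of the general case
-/

namespace Pool.Agent.H19.QF

open Polynomial

lemma dvd_prod_pow {n : ℕ} (hn : n ≠ 0) (T : Finset ℕ) (e : ℕ) (h1 : ∀ p : ℕ, p.Prime → p ∣ n → p ∈ T)
    (h2 : ∀ p : ℕ, p.Prime → ¬ p ^ (e + 1) ∣ n) : n ∣ ∏ p ∈ T, p ^ e := by
  have h3 : n = ∏ p ∈ n.primeFactors, p ^ n.factorization p := by
    conv_lhs => rw [← Nat.prod_factorization_pow_eq_self hn]
    rfl
  rw [h3]
  refine (Finset.prod_dvd_prod_of_dvd _ (fun p => p ^ e) fun p hp => ?_).trans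
    (Finset.prod_dvd_prod_of_subset _ _ _ fun p hp => ?_)
  · apply pow_dvd_pow
    have hpp := Nat.prime_of_mem_primeFactors hp
    by_contra hcon
    push Not at hcon
    exact h2 p hpp ((hpp.pow_dvd_iff_le_factorization hn).2 hcon)
  · exact h1 p (Nat.prime_of_mem_primeFactors hp) (Nat.dvd_of_mem_primeFactors hp)

/-- `k` is a fifth power times a number composed of the primes of `T`. -/
def Fifth (T : Finset ℕ) (k : ℤ) : Prop :=
  ∃ u m : ℤ, k = u * m ^ 5 ∧ ∀ p : ℕ, p.Prime → (p : ℤ) ∣ u → p ∈ T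

lemma fifth_div {T : Finset ℕ} {k k' : ℤ} {p : ℕ} (hp : p.Prime) (hpT : p ∈ T) (hk : k = (p : ℤ) ^ 6 * k')
    (hk0 : k ≠ 0) (h : Fifth T k) : Fifth T k' := by
  obtain ⟨u, m, hum, hu⟩ := h
  have hm0 : m ≠ 0 := by
    rintro rfl
    apply hk0
    rw [hum]; simp
  have hpZ : Prime (p : ℤ) := Nat.prime_iff_prime_int.1 hp
  have hp0 : (p : ℤ) ≠ 0 := hpZ.ne_zero
  obtain ⟨m₁, hma, hm₁⟩ := (Int.finiteMultiplicity_iff.2 ⟨by simpa using hp.ne_one, hm0⟩ :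
    FiniteMultiplicity (p : ℤ) m).exists_eq_pow_mul_and_not_dvd
  set a := multiplicity (p : ℤ) m with ha
  have h1 : u * (p : ℤ) ^ (5 * a) * m₁ ^ 5 = (p : ℤ) ^ 6 * k' := by
    rw [← hk, hum]
    conv_rhs => rw [hma]
    ring
  have hcop : IsCoprime ((p : ℤ) ^ 6) (m₁ ^ 5) :=
    IsCoprime.pow ((Prime.coprime_iff_not_dvd hpZ).2 hm₁)
  have h2 : (p : ℤ) ^ 6 ∣ u * (p : ℤ) ^ (5 * a) := by
    apply hcop.dvd_of_dvd_mul_right
    rw [h1]; exact dvd_mul_right _ _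
  obtain ⟨u', hu'⟩ := h2
  refine ⟨u', m₁, ?_, ?_⟩
  · rw [hu'] at h1
    have h3 : (p : ℤ) ^ 6 * k' = (p : ℤ) ^ 6 * (u' * m₁ ^ 5) := by rw [← h1]; ring
    exact mul_left_cancel₀ (pow_ne_zero _ hp0) h3
  · intro q hq hqu
    have h3 : (q : ℤ) ∣ u * (p : ℤ) ^ (5 * a) := by rw [hu']; exact dvd_mul_of_dvd_right hqu _
    have hqZ : Prime (q : ℤ) := Nat.prime_iff_prime_int.1 hq
    rcases hqZ.dvd_or_dvd h3 with h4 | h4
    · exact hu q hq h4
    · have h5 := hqZ.dvd_of_dvd_pow h4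
      have h6 : q ∣ p := by exact_mod_cast h5
      rw [(Nat.prime_dvd_prime_iff_eq hq hp).1 h6]
      exact hpT

/-- One may take `u` bounded. -/
lemma fifth_bounded {T : Finset ℕ} (hT : ∀ p ∈ T, p.Prime) {k : ℤ} (hk0 : k ≠ 0) (h : Fifth T k) :
    ∃ u m : ℤ, k = u * m ^ 5 ∧ |u| ≤ ((∏ p ∈ T, p ^ 4 : ℕ) : ℤ) := by
  obtain ⟨u, m, hum, hu⟩ := h
  have key : ∀ n : ℕ, ∀ u m : ℤ, u.natAbs = n → k = u * m ^ 5 → (∀ p : ℕ, p.Prime → (p : ℤ) ∣ u → p ∈ T) →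
      ∃ u m : ℤ, k = u * m ^ 5 ∧ |u| ≤ ((∏ p ∈ T, p ^ 4 : ℕ) : ℤ) := by
    intro n
    induction n using Nat.strong_induction_on with
    | _ n ih =>
      intro u m hn hum hu
      have hu0 : u ≠ 0 := by rintro rfl; apply hk0; rw [hum]; simp
      by_cases h5 : ∃ p : ℕ, p.Prime ∧ p ^ 5 ∣ u.natAbs
      · obtain ⟨p, hp, hp5⟩ := h5
        have h6 : (p : ℤ) ^ 5 ∣ u := by
          rw [← Int.natAbs_dvd_natAbs, Int.natAbs_pow, Int.natAbs_natCast]; exact hp5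
        obtain ⟨u', hu'⟩ := h6
        have hu'0 : u' ≠ 0 := by rintro rfl; apply hu0; rw [hu']; simp
        refine ih u'.natAbs ?_ u' (p * m) rfl ?_ ?_
        · rw [← hn, hu', Int.natAbs_mul, Int.natAbs_pow, Int.natAbs_natCast]
          have h7 : 1 < p ^ 5 := Nat.one_lt_pow (by norm_num) hp.one_lt
          have h8 : 0 < u'.natAbs := Int.natAbs_pos.2 hu'0
          nlinarith
        · rw [hum, hu']; ring
        · intro q hq hqu
          exact hu q hq (by rw [hu']; exact dvd_mul_of_dvd_right hqu _)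
      · push Not at h5
        refine ⟨u, m, hum, ?_⟩
        have h7 : u.natAbs ∣ ∏ p ∈ T, p ^ 4 := by
          apply dvd_prod_pow (Int.natAbs_ne_zero.2 hu0) T 4
          · intro p hp hpu
            exact hu p hp (by rw [← Int.natAbs_dvd_natAbs, Int.natAbs_natCast]; exact hpu)
          · intro p hp; exact h5 p hp
        have h8 : 0 < ∏ p ∈ T, p ^ 4 := Finset.prod_pos fun p hp => pow_pos (hT p hp).pos 4
        have h9 := Nat.le_of_dvd h8 h7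
        rw [Int.abs_eq_natAbs]
        exact_mod_cast h9
  exact key _ u m rfl hum hu

/-- the bound for the greatest common divisor -/
lemma gcd_bound {T : Finset ℕ} (hT : ∀ p ∈ T, p.Prime) {x y k u m : ℤ} (hum : k = u * m ^ 5)
    (heq : y ^ 2 = x ^ 3 + k) (hy : y ≠ 0) (hg : ∀ p : ℕ, p.Prime → (p : ℤ) ∣ x → (p : ℤ) ∣ y → p ∈ T)
    (hmin : ∀ p : ℕ, p.Prime → (p : ℤ) ^ 2 ∣ x → ¬ (p : ℤ) ^ 3 ∣ y) :
    Int.gcd y (m * x) ≤ ∏ p ∈ T, p ^ 2 := by
  have hpos : 0 < ∏ p ∈ T, p ^ 2 := Finset.prod_pos fun p hp => pow_pos (hT p hp).pos 2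
  apply Nat.le_of_dvd hpos
  have hxm : ∀ p : ℕ, p.Prime → (p : ℤ) ∣ y → (p : ℤ) ∣ m → (p : ℤ) ∣ x := by
    intro p hp hpy hpm
    have hpZ : Prime (p : ℤ) := Nat.prime_iff_prime_int.1 hp
    apply hpZ.dvd_of_dvd_pow (n := 3)
    have h1 : x ^ 3 = y ^ 2 - u * m ^ 5 := by rw [heq, hum]; ring
    rw [h1]
    exact dvd_sub (dvd_pow hpy (by norm_num)) (dvd_mul_of_dvd_right (dvd_pow hpm (by norm_num)) _)
  apply dvd_prod_pow
  · exact (Int.gcd_pos_of_ne_zero_left _ hy).ne'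
  · intro p hp hpg
    have hpZ : Prime (p : ℤ) := Nat.prime_iff_prime_int.1 hp
    have h1 : (p : ℤ) ∣ y := (Int.natCast_dvd_natCast.2 hpg).trans (Int.gcd_dvd_left _ _)
    have h2 : (p : ℤ) ∣ m * x := (Int.natCast_dvd_natCast.2 hpg).trans (Int.gcd_dvd_right _ _)
    rcases hpZ.dvd_or_dvd h2 with h3 | h3
    · exact hg p hp (hxm p hp h1 h3) h1
    · exact hg p hp h3 h1
  · intro p hp hp3
    have hpZ : Prime (p : ℤ) := Nat.prime_iff_prime_int.1 hp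
    have hcast : ((p ^ (2 + 1) : ℕ) : ℤ) = (p : ℤ) ^ 3 := by push_cast; ring
    have h1 : (p : ℤ) ^ 3 ∣ y := by
      rw [← hcast]; exact (Int.natCast_dvd_natCast.2 hp3).trans (Int.gcd_dvd_left _ _)
    have h2 : (p : ℤ) ^ 3 ∣ m * x := by
      rw [← hcast]; exact (Int.natCast_dvd_natCast.2 hp3).trans (Int.gcd_dvd_right _ _)
    have hnx : ¬ (p : ℤ) ^ 2 ∣ x := fun h => hmin p hp h h1
    -- `p ∣ m`
    have hpm : (p : ℤ) ∣ m := by
      by_contra hcon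
      have hcop : IsCoprime ((p : ℤ) ^ 3) m := IsCoprime.pow_left ((Prime.coprime_iff_not_dvd hpZ).2 hcon)
      exact hnx ((pow_dvd_pow _ (by norm_num)).trans (hcop.dvd_of_dvd_mul_left h2))
    obtain ⟨m₂, hm₂⟩ := hpm
    have hp0 : (p : ℤ) ≠ 0 := hpZ.ne_zero
    have h3 : (p : ℤ) ^ 2 ∣ m₂ * x := by
      rw [hm₂] at h2
      have : (p : ℤ) * (p : ℤ) ^ 2 ∣ p * (m₂ * x) := by
        have e : (p : ℤ) * (p : ℤ) ^ 2 = (p : ℤ) ^ 3 := by ring
        rw [e]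
        convert h2 using 1
        ring
      exact (mul_dvd_mul_iff_left hp0).1 this
    have hpm₂ : (p : ℤ) ∣ m₂ := by
      by_contra hcon
      have hcop : IsCoprime ((p : ℤ) ^ 2) m₂ := IsCoprime.pow_left ((Prime.coprime_iff_not_dvd hpZ).2 hcon)
      exact hnx (hcop.dvd_of_dvd_mul_left h3)
    obtain ⟨m₃, hm₃⟩ := hpm₂
    apply hnx
    have h4 : ((p : ℤ) ^ 2) ^ 3 ∣ x ^ 3 := by
      have h5 : x ^ 3 = y ^ 2 - u * m ^ 5 := by rw [heq, hum]; ring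
      rw [h5]
      apply dvd_sub
      · have : ((p : ℤ) ^ 2) ^ 3 = ((p : ℤ) ^ 3) ^ 2 := by ring
        rw [this]
        exact pow_dvd_pow_of_dvd h1 2
      · refine ⟨u * (p : ℤ) ^ 4 * m₃ ^ 5, ?_⟩
        rw [hm₂, hm₃]; ring
    exact (Int.pow_dvd_pow_iff (by norm_num)).1 h4

lemma fib_scale {x k x' k' p : ℤ} (hp : p ≠ 0) (hx : x = p ^ 2 * x') (hk : k = p ^ 6 * k')
    (h : Irreducible (fib x k)) : Irreducible (fib x' k') := by
  have h1 : fib x k = C ((p : ℚ) ^ 6) * fib x' k' := by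
    unfold fib
    rw [hx, hk]
    push_cast
    simp only [map_mul, map_pow, map_ofNat]
    ring
  have h2 : IsUnit (C ((p : ℚ) ^ 6) : ℚ[X]) := by
    rw [Polynomial.isUnit_C]
    exact isUnit_iff_ne_zero.2 (pow_ne_zero _ (by exact_mod_cast hp))
  rw [h1] at h
  exact (irreducible_isUnit_mul h2).1 h

theorem general (T : Finset ℕ) (hT : ∀ p ∈ T, p.Prime) (E : ℕ) (hE : E ≠ 0) : ∃ C : ℝ, 0 < C ∧
    ∀ x y k : ℤ, k ≠ 0 → Fifth T k → y ^ 2 = x ^ 3 + k →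
      (∀ p : ℕ, p.Prime → (p : ℤ) ∣ x → (p : ℤ) ∣ y → p ∈ T) →
    (¬ Irreducible (fib x k) ∧ |(x : ℝ)| ≤ C * |(k : ℝ)| ^ 2) ∨
      |(x : ℝ)| ^ (E - 1) ≤ C * |(k : ℝ)| ^ E := by
  obtain ⟨C, hC, hb⟩ := bounded (∏ p ∈ T, p ^ 4) (∏ p ∈ T, p ^ 2) E hE
  refine ⟨C, hC, ?_⟩
  have key : ∀ n : ℕ, ∀ x y k : ℤ, k.natAbs = n → k ≠ 0 → Fifth T k → y ^ 2 = x ^ 3 + k →
      (∀ p : ℕ, p.Prime → (p : ℤ) ∣ x → (p : ℤ) ∣ y → p ∈ T) →
    (¬ Irreducible (fib x k) ∧ |(x : ℝ)| ≤ C * |(k : ℝ)| ^ 2) ∨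
      |(x : ℝ)| ^ (E - 1) ≤ C * |(k : ℝ)| ^ E := by
    intro n
    induction n using Nat.strong_induction_on with
    | _ n ih =>
      intro x y k hn hk0 hF heq hg
      by_cases hmin : ∀ p : ℕ, p.Prime → (p : ℤ) ^ 2 ∣ x → ¬ (p : ℤ) ^ 3 ∣ y
      · obtain ⟨u, m, hum, huU⟩ := fifth_bounded hT hk0 hF
        exact hb x y u m k hum hk0 huU heq fun hy => gcd_bound hT hum heq hy hg hmin
      · push Not at hmin
        obtain ⟨p, hp, ⟨x', hx'⟩, ⟨y', hy'⟩⟩ := hmin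
        have hpZ : Prime (p : ℤ) := Nat.prime_iff_prime_int.1 hp
        have hp0 : (p : ℤ) ≠ 0 := hpZ.ne_zero
        have hpT : p ∈ T := hg p hp (by rw [hx']; exact dvd_mul_of_dvd_left (dvd_pow_self _ (by norm_num)) _)
          (by rw [hy']; exact dvd_mul_of_dvd_left (dvd_pow_self _ (by norm_num)) _)
        set k' : ℤ := y' ^ 2 - x' ^ 3 with hk'
        have hkk : k = (p : ℤ) ^ 6 * k' := by
          have : k = y ^ 2 - x ^ 3 := by rw [heq]; ring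
          rw [this, hx', hy', hk']; ring
        have hk'0 : k' ≠ 0 := by
          intro h0; apply hk0; rw [hkk, h0, mul_zero]
        have h1 : k'.natAbs < n := by
          rw [← hn, hkk, Int.natAbs_mul, Int.natAbs_pow, Int.natAbs_natCast]
          have h7 : 1 < p ^ 6 := Nat.one_lt_pow (by norm_num) hp.one_lt
          have h8 : 0 < k'.natAbs := Int.natAbs_pos.2 hk'0
          nlinarith
        have h2 := ih _ h1 x' y' k' rfl hk'0 (fifth_div hp hpT hkk hk0 hF) (by rw [hk']; ring)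
          (fun q hq hqx hqy => hg q hq (by rw [hx']; exact dvd_mul_of_dvd_right hqx _)
            (by rw [hy']; exact dvd_mul_of_dvd_right hqy _))
        have hp1 : (1 : ℝ) ≤ (p : ℝ) := by exact_mod_cast hp.one_lt.le
        have hxr : |(x : ℝ)| = (p : ℝ) ^ 2 * |(x' : ℝ)| := by
          rw [hx']; push_cast; rw [abs_mul, abs_of_nonneg (by positivity)]
        have hkr : |(k : ℝ)| = (p : ℝ) ^ 6 * |(k' : ℝ)| := by
          rw [hkk]; push_cast; rw [abs_mul, abs_of_nonneg (by positivity)]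
        rcases h2 with ⟨h3, h4⟩ | h3
        · left
          refine ⟨fun h => h3 (fib_scale hp0 hx' hkk h), ?_⟩
          rw [hxr, hkr]
          calc (p : ℝ) ^ 2 * |(x' : ℝ)| ≤ (p : ℝ) ^ 2 * (C * |(k' : ℝ)| ^ 2) :=
                mul_le_mul_of_nonneg_left h4 (by positivity)
            _ ≤ (p : ℝ) ^ 12 * (C * |(k' : ℝ)| ^ 2) :=
                mul_le_mul_of_nonneg_right (pow_le_pow_right₀ hp1 (by norm_num)) (by positivity)
            _ = _ := by ring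
        · right
          rw [hxr, hkr]
          calc ((p : ℝ) ^ 2 * |(x' : ℝ)|) ^ (E - 1) = (p : ℝ) ^ (2 * (E - 1)) * |(x' : ℝ)| ^ (E - 1) := by
                rw [mul_pow, ← pow_mul]
            _ ≤ (p : ℝ) ^ (6 * E) * (C * |(k' : ℝ)| ^ E) :=
                mul_le_mul (pow_le_pow_right₀ hp1 (by omega)) h3 (by positivity) (by positivity)
            _ = _ := by rw [mul_pow, ← pow_mul]; ring
  intro x y k hk0 hF heq hg
  exact key _ x y k rfl hk0 hF heq hg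

end Pool.Agent.H19.QF
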