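import Pool.Agent.H19.QF.Struct
import Pool.Agent.H19.QF.Reduce

/-!
# Hall's inequality for subgroups of order five with a bad set of ramified primes
-/

namespace Pool.Agent.H19.QF

open NumberField Polynomial IntermediateField

lemma fifth_of_val {T : Finset ℕ} {k : ℤ} (hk0 : k ≠ 0)
    (h : ∀ p : ℕ, p.Prime → p ∉ T → ∀ (e : ℕ) (k₁ : ℤ), k = (p : ℤ) ^ e * k₁ → ¬ (p : ℤ) ∣ k₁ → 5 ∣ e) :
    Fifth T k := by
  have key : ∀ n : ℕ, ∀ k : ℤ, k.natAbs = n → k ≠ 0 →
      (∀ p : ℕ, p.Prime → p ∉ T → ∀ (e : ℕ) (k₁ : ℤ), k = (p : ℤ) ^ e * k₁ → ¬ (p : ℤ) ∣ k₁ → 5 ∣ e) →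
      Fifth T k := by
    intro n
    induction n using Nat.strong_induction_on with
    | _ n ih =>
      intro k hn hk0 h
      by_cases hex : ∃ p : ℕ, p.Prime ∧ p ∉ T ∧ (p : ℤ) ∣ k
      · obtain ⟨p, hp, hpT, hpk⟩ := hex
        have hpZ : Prime (p : ℤ) := Nat.prime_iff_prime_int.1 hp
        obtain ⟨e, k₁, hk, hk₁⟩ := decomp hp hk0
        obtain ⟨f, hf⟩ := h p hp hpT e k₁ hk hk₁
        have hf0 : f ≠ 0 := by
          rintro rfl
          rw [hf, mul_zero, pow_zero, one_mul] at hk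
          exact hk₁ (hk ▸ hpk)
        have hk₁0 : k₁ ≠ 0 := by rintro rfl; exact hk₁ (dvd_zero _)
        have hlt : k₁.natAbs < n := by
          rw [← hn, hk, Int.natAbs_mul, Int.natAbs_pow, Int.natAbs_natCast]
          have h7 : 1 < p ^ e := Nat.one_lt_pow (by omega) hp.one_lt
          have h8 : 0 < k₁.natAbs := Int.natAbs_pos.2 hk₁0
          nlinarith
        obtain ⟨u, m, hum, hu⟩ := ih _ hlt k₁ rfl hk₁0 (by
          intro q hq hqT e' k₂ hk' hk₂
          have hqZ : Prime (q : ℤ) := Nat.prime_iff_prime_int.1 hq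
          by_cases hqp : q = p
          · subst hqp
            have : e' = 0 := by
              by_contra hcon
              apply hk₁
              rw [hk']
              exact dvd_mul_of_dvd_left (dvd_pow_self _ hcon) _
            rw [this]; exact dvd_zero _
          · refine h q hq hqT e' ((p : ℤ) ^ e * k₂) (by rw [hk, hk']; ring) ?_
            intro hdvd
            rcases hqZ.dvd_or_dvd hdvd with h1 | h1
            · have h2 := hqZ.dvd_of_dvd_pow h1
              have h3 : q ∣ p := by exact_mod_cast h2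
              exact hqp ((Nat.prime_dvd_prime_iff_eq hq hp).1 h3)
            · exact hk₂ h1)
        refine ⟨u, (p : ℤ) ^ f * m, ?_, hu⟩
        rw [hk, hum, hf]; ring
      · push Not at hex
        refine ⟨k, 1, by ring, fun p hp hpk => ?_⟩
        by_contra hpT
        exact hex p hp hpT hpk
  exact key _ k rfl hk0 h

/-- **The case of an irreducible polynomial.** -/
theorem field_bound (T : Finset ℕ) (hT : ∀ p ∈ T, p.Prime) (h30 : ∀ p : ℕ, p.Prime → p ∣ 30 → p ∈ T)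
    (E : ℕ) (hE : E ≠ 0) : ∃ C : ℝ, 0 < C ∧
    ∀ (L : Type) [Field L] [NumberField L] (pb : PowerBasis ℚ L), pb.dim = 6 →
      (∀ p : ℕ, p.Prime → (p : ℤ) ∣ discr L → p ∈ T) →
      ∀ x y k : ℤ, k ≠ 0 → y ^ 2 = x ^ 3 + k → Irreducible (fib x k) →
      (k : L) * (pb.gen ^ 2 + 10 * pb.gen + 5) ^ 3 + 1728 * x ^ 3 * pb.gen = 0 →
      |(x : ℝ)| ^ (E - 1) ≤ C * |(k : ℝ)| ^ E := by
  obtain ⟨C, hC, hb⟩ := general T hT E hE
  refine ⟨C, hC, ?_⟩
  intro L _ _ pb hdim hram
  have key : ∀ n : ℕ, ∀ x y k : ℤ, k.natAbs = n → k ≠ 0 → y ^ 2 = x ^ 3 + k → Irreducible (fib x k) →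
      (k : L) * (pb.gen ^ 2 + 10 * pb.gen + 5) ^ 3 + 1728 * x ^ 3 * pb.gen = 0 →
      |(x : ℝ)| ^ (E - 1) ≤ C * |(k : ℝ)| ^ E := by
    intro n
    induction n using Nat.strong_induction_on with
    | _ n ih =>
      intro x y k hn hk0 heq hirr hroot
      by_cases hmin : ∀ p : ℕ, p.Prime → (p : ℤ) ^ 2 ∣ x → ¬ (p : ℤ) ^ 3 ∣ y
      · have hloc : ∀ p : ℕ, p.Prime → p ∉ T → ¬ ((p : ℤ) ∣ x ∧ (p : ℤ) ∣ y) ∧
            ∀ (e : ℕ) (k₁ : ℤ), k = (p : ℤ) ^ e * k₁ → ¬ (p : ℤ) ∣ k₁ → 5 ∣ e := fun p hp hpT =>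
          local_structure pb hdim hp (fun h => hpT (h30 p hp h)) (fun h => hpT (hram p hp h)) hk0 heq hroot
            (fun h => hmin p hp h.1 h.2)
        have hF : Fifth T k := fifth_of_val hk0 fun p hp hpT => (hloc p hp hpT).2
        rcases hb x y k hk0 hF heq (fun p hp hpx hpy => by
          by_contra hpT
          exact (hloc p hp hpT).1 ⟨hpx, hpy⟩) with ⟨h1, _⟩ | h1
        · exact absurd hirr h1
        · exact h1
      · push Not at hmin
        obtain ⟨p, hp, ⟨x', hx'⟩, ⟨y', hy'⟩⟩ := hmin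
        have hpZ : Prime (p : ℤ) := Nat.prime_iff_prime_int.1 hp
        have hp0 : (p : ℤ) ≠ 0 := hpZ.ne_zero
        set k' : ℤ := y' ^ 2 - x' ^ 3 with hk'
        have hkk : k = (p : ℤ) ^ 6 * k' := by
          have : k = y ^ 2 - x ^ 3 := by rw [heq]; ring
          rw [this, hx', hy', hk']; ring
        have hk'0 : k' ≠ 0 := by
          intro h0; apply hk0; rw [hkk, h0, mul_zero]
        have h1 : k'.natAbs < n := by
          rw [← hn, hkk, Int.natAbs_mul, Int.natAbs_pow, Int.natAbs_natCast]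
          have h7 : 1 < p ^ 6 := Nat.one_lt_pow (by norm_num) hp.one_lt
          have h8 : 0 < k'.natAbs := Int.natAbs_pos.2 hk'0
          nlinarith
        have hroot' : (k' : L) * (pb.gen ^ 2 + 10 * pb.gen + 5) ^ 3 + 1728 * x' ^ 3 * pb.gen = 0 := by
          have hpL : (p : L) ^ 6 ≠ 0 := pow_ne_zero _ (by exact_mod_cast hp.ne_zero)
          apply mul_left_cancel₀ hpL
          rw [mul_zero, ← hroot, hx', hkk]
          push_cast
          ring
        have h2 := ih _ h1 x' y' k' rfl hk'0 (by rw [hk']; ring) (fib_scale hp0 hx' hkk hirr) hroot'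
        have hp1 : (1 : ℝ) ≤ (p : ℝ) := by exact_mod_cast hp.one_lt.le
        have hxr : |(x : ℝ)| = (p : ℝ) ^ 2 * |(x' : ℝ)| := by
          rw [hx']; push_cast; rw [abs_mul, abs_of_nonneg (by positivity)]
        have hkr : |(k : ℝ)| = (p : ℝ) ^ 6 * |(k' : ℝ)| := by
          rw [hkk]; push_cast; rw [abs_mul, abs_of_nonneg (by positivity)]
        rw [hxr, hkr]
        calc ((p : ℝ) ^ 2 * |(x' : ℝ)|) ^ (E - 1) = (p : ℝ) ^ (2 * (E - 1)) * |(x' : ℝ)| ^ (E - 1) := by
              rw [mul_pow, ← pow_mul]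
          _ ≤ (p : ℝ) ^ (6 * E) * (C * |(k' : ℝ)| ^ E) :=
              mul_le_mul (pow_le_pow_right₀ hp1 (by omega)) h2 (by positivity) (by positivity)
          _ = _ := by rw [mul_pow, ← pow_mul]; ring
  intro x y k hk0 heq hirr hroot
  exact key _ x y k rfl hk0 heq hirr hroot

lemma fib_aeval {A : Type*} [CommRing A] [Algebra ℚ A] (x k : ℤ) (z : A) :
    aeval z (fib x k) = (k : A) * (z ^ 2 + 10 * z + 5) ^ 3 + 1728 * x ^ 3 * z := by
  have e10 : (aeval z) (10 : ℚ[X]) = (10 : A) := map_ofNat _ _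
  have e5 : (aeval z) (5 : ℚ[X]) = (5 : A) := map_ofNat _ _
  have e1728 : (algebraMap ℚ A) 1728 = (1728 : A) := map_ofNat _ _
  simp [fib, e10, e5, e1728]

/-- The same for a root in an arbitrary number field. -/
theorem ramified_bound (T : Finset ℕ) (E : ℕ) (hE : E ≠ 0) : ∃ C : ℝ, 0 < C ∧
    ∀ (K : Type) [Field K] [NumberField K], (∀ p : ℕ, p.Prime → (p : ℤ) ∣ discr K → p ∈ T) →
      ∀ x y k : ℤ, k ≠ 0 → y ^ 2 = x ^ 3 + k → Irreducible (fib x k) →
      (∃ z : K, (k : K) * (z ^ 2 + 10 * z + 5) ^ 3 + 1728 * x ^ 3 * z = 0) →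
      |(x : ℝ)| ^ (E - 1) ≤ C * |(k : ℝ)| ^ E := by
  classical
  obtain ⟨C, hC, hb⟩ := field_bound ((T ∪ {2, 3, 5}).filter Nat.Prime) (by simp) (by
    intro p hp h
    have h1 : p ∈ Nat.primeFactors 30 := Nat.mem_primeFactors.2 ⟨hp, h, by norm_num⟩
    have h2 : Nat.primeFactors 30 = {2, 3, 5} := by
      rw [show 30 = 2 * 3 * 5 by norm_num]
      rw [Nat.primeFactors_mul (by norm_num) (by norm_num), Nat.primeFactors_mul (by norm_num) (by norm_num),
        Nat.Prime.primeFactors (by norm_num), Nat.Prime.primeFactors (by norm_num),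
        Nat.Prime.primeFactors (by norm_num)]
      rfl
    rw [h2] at h1
    simp only [Finset.mem_filter, Finset.mem_union]
    exact ⟨Or.inr h1, hp⟩) E hE
  refine ⟨C, hC, ?_⟩
  intro K _ _ hram x y k hk0 heq hirr ⟨z, hz⟩
  have hzint : IsIntegral ℚ z := Algebra.IsIntegral.isIntegral z
  have hfd : FiniteDimensional ℚ ℚ⟮z⟯ := adjoin.finiteDimensional hzint
  have hnf : NumberField ℚ⟮z⟯ := @NumberField.mk _ _ inferInstance hfd
  refine hb ℚ⟮z⟯ (adjoin.powerBasis hzint) ?_ ?_ x y k hk0 heq hirr ?_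
  · rw [adjoin.powerBasis_dim hzint]
    have h1 := minpoly.eq_of_irreducible hirr (x := z) (by rw [fib_aeval]; exact hz)
    rw [← h1, natDegree_mul_C, fib_natDegree hk0]
    exact inv_ne_zero (leadingCoeff_ne_zero.2 hirr.ne_zero)
  · intro p hp hd
    simp only [Finset.mem_filter, Finset.mem_union]
    refine ⟨Or.inl (hram p hp (hd.trans ?_)), hp⟩
    exact NumberField.discr_dvd_discr ℚ⟮z⟯ K
  · rw [adjoin.powerBasis_gen hzint]
    apply Subtype.ext
    push_cast
    rw [AdjoinSimple.coe_gen]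
    exact hz

end Pool.Agent.H19.QF
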