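import Pool.Agent.H19.QF.Main

/-!
# Hall's inequality for `y² = x³ + u m⁵`
-/

namespace Pool.Agent.H19.QF

open NumberField Module Polynomial

/-- The polynomial whose roots parametrise the subgroups of order five of `Y² = X³ - 3 x X + 2 y`,
`k = y² - x³`. -/
noncomputable def fib (x k : ℤ) : ℚ[X] :=
  C (k : ℚ) * (X ^ 2 + 10 * X + 5) ^ 3 + C (1728 * (x : ℚ) ^ 3) * X

lemma fib_natDegree {x k : ℤ} (hk : k ≠ 0) : (fib x k).natDegree = 6 := by
  have hk' : (k : ℚ) ≠ 0 := by exact_mod_cast hk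
  have h1 : fib x k = C (k : ℚ) * X ^ 6 + C (30 * (k : ℚ)) * X ^ 5 + C (315 * (k : ℚ)) * X ^ 4 +
      C (1300 * (k : ℚ)) * X ^ 3 + C (1575 * (k : ℚ)) * X ^ 2 + C (750 * (k : ℚ) + 1728 * (x : ℚ) ^ 3) * X
      + C (125 * (k : ℚ)) := by
    unfold fib
    simp only [map_add, map_mul, map_ofNat]
    ring
  rw [h1]
  compute_degree!

/-- If the polynomial `fib` is irreducible, every root of the sextic has degree six. -/
lemma irreducible_degree {x k u m : ℤ} (hk : k = u * m ^ 5) (hk0 : k ≠ 0) (hirr : Irreducible (fib x k))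
    {v : ℂ} (hv : v ^ 6 + 10 * ((u ^ 2 * m : ℤ) : ℂ) * v ^ 3 + 12 * ((u ^ 3 * x : ℤ) : ℂ) * v
      + 5 * ((u ^ 2 * m : ℤ) : ℂ) ^ 2 = 0) : 6 ≤ (minpoly ℚ v).natDegree := by
  have hu : u ≠ 0 := by rintro rfl; simp at hk; exact hk0 hk
  have hm : m ≠ 0 := by rintro rfl; simp at hk; exact hk0 hk
  have huc : (u : ℂ) ≠ 0 := by exact_mod_cast hu
  have hmc : (m : ℂ) ≠ 0 := by exact_mod_cast hm
  push_cast at hv
  set t : ℂ := v ^ 3 / (u ^ 2 * m) with ht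
  have hvt : v ^ 3 = u ^ 2 * m * t := by rw [ht]; field_simp
  have hroot : aeval t (fib x k) = 0 := by
    unfold fib
    simp only [map_add, map_mul, map_pow, aeval_X, map_ofNat, map_intCast]
    have h1 : (u : ℂ) ^ 4 * m ^ 2 * (t ^ 2 + 10 * t + 5) = -12 * (u ^ 3 * x) * v := by
      have h2 : v ^ 6 = (u ^ 2 * m * t) ^ 2 := by rw [← hvt]; ring
      rw [h2, hvt] at hv
      linear_combination hv
    have h3 : ((u : ℂ) ^ 4 * m ^ 2 * (t ^ 2 + 10 * t + 5)) ^ 3 = -1728 * u ^ 9 * x ^ 3 * (u ^ 2 * m * t) := by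
      rw [h1, ← hvt]; ring
    have h4 : (u : ℂ) ^ 11 * m * (k * (t ^ 2 + 10 * t + 5) ^ 3 + 1728 * x ^ 3 * t) = 0 := by
      rw [hk]; push_cast
      linear_combination h3
    rcases mul_eq_zero.1 h4 with h5 | h5
    · exact absurd h5 (mul_ne_zero (pow_ne_zero _ huc) hmc)
    · exact h5
  have hint : IsIntegral ℚ v := by
    refine ⟨sx (10 * (u ^ 2 * m : ℚ)) (12 * (u ^ 3 * x : ℚ)) (5 * (u ^ 2 * m : ℚ) ^ 2), sx_monic _ _ _, ?_⟩
    rw [← Polynomial.aeval_def, sx_aeval, ← hv]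
    simp
  have hdeg : (minpoly ℚ t).natDegree = 6 := by
    have h1 : minpoly ℚ t ∣ fib x k := minpoly.dvd ℚ t hroot
    have hassoc : Associated (minpoly ℚ t) (fib x k) := by
      refine ((minpoly.irreducible ?_).associated_of_dvd hirr h1)
      rw [ht]
      have hI : ∀ n : ℤ, IsIntegral ℚ ((n : ℤ) : ℂ) := fun n => by
        simpa using (isIntegral_algebraMap : IsIntegral ℚ (algebraMap ℚ ℂ n))
      rw [div_eq_mul_inv]
      refine (hint.pow 3).mul (IsIntegral.inv ?_)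
      have := hI (u ^ 2 * m)
      push_cast at this
      exact this
    rw [natDegree_eq_of_degree_eq (degree_eq_degree_of_associated hassoc), fib_natDegree hk0]
  have hfd : FiniteDimensional ℚ (IntermediateField.adjoin ℚ {v}) := IntermediateField.adjoin.finiteDimensional hint
  have h1 : finrank ℚ (IntermediateField.adjoin ℚ {v}) = (minpoly ℚ v).natDegree :=
    IntermediateField.adjoin.finrank hint
  have hmem : t ∈ IntermediateField.adjoin ℚ {v} := by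
    have hvm : v ∈ IntermediateField.adjoin ℚ {v} := IntermediateField.mem_adjoin_simple_self ℚ v
    rw [ht]
    refine div_mem (pow_mem hvm 3) (mul_mem (pow_mem (intCast_mem _ _) 2) (intCast_mem _ _))
  have h2 : (minpoly ℚ (⟨t, hmem⟩ : IntermediateField.adjoin ℚ {v})).natDegree ≤
      finrank ℚ (IntermediateField.adjoin ℚ {v}) := minpoly.natDegree_le _
  have h3 : minpoly ℚ (⟨t, hmem⟩ : IntermediateField.adjoin ℚ {v}) = minpoly ℚ t := by
    rw [← minpoly.algebraMap_eq (algebraMap (IntermediateField.adjoin ℚ {v}) ℂ).injective]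
    rfl
  rw [h3, hdeg, h1] at h2
  exact h2

/-- The theorem for bounded `u` and bounded greatest common divisor of `y` and `m x`. -/
theorem bounded (U G E : ℕ) (hE : E ≠ 0) : ∃ C : ℝ, 0 < C ∧ ∀ x y u m k : ℤ, k = u * m ^ 5 → k ≠ 0 →
    |u| ≤ U → y ^ 2 = x ^ 3 + k → (y ≠ 0 → Int.gcd y (m * x) ≤ G) →
    (¬ Irreducible (fib x k) ∧ |(x : ℝ)| ≤ C * |(k : ℝ)| ^ 2) ∨
      |(x : ℝ)| ^ (E - 1) ≤ C * |(k : ℝ)| ^ E := by
  obtain ⟨C₀, hC₀, hcore⟩ := core (9331200000 * 72 ^ 4 * U ^ 38 * G ^ 4) E hE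
  set C : ℝ := (10 : ℝ) ^ (4 * (E - 1)) + (1 + 648 * (U : ℝ) ^ 6) ^ (E - 1) + 192 ^ 5 * (U : ℝ) ^ 15
    + C₀ ^ 5 * (U : ℝ) ^ (9 * E) + 1 with hC
  have hCpos : 0 < C := by positivity
  refine ⟨C, hCpos, ?_⟩
  intro x y u m k hk hk0 hu heq hgcd
  have hu0 : u ≠ 0 := by rintro rfl; simp at hk; exact hk0 hk
  have hm0 : m ≠ 0 := by rintro rfl; simp at hk; exact hk0 hk
  have hk1 : (1 : ℝ) ≤ |(k : ℝ)| := by
    have := Int.one_le_abs hk0
    exact_mod_cast this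
  have hu1 : (1 : ℝ) ≤ |(u : ℝ)| := by
    have := Int.one_le_abs hu0
    exact_mod_cast this
  have hm1 : (1 : ℝ) ≤ |(m : ℝ)| := by
    have := Int.one_le_abs hm0
    exact_mod_cast this
  have huU : |(u : ℝ)| ≤ U := by exact_mod_cast hu
  have hU1 : (1 : ℝ) ≤ U := hu1.trans huU
  have hx0 : 0 ≤ |(x : ℝ)| := abs_nonneg _
  have hkabs : |(k : ℝ)| = |(u : ℝ)| * |(m : ℝ)| ^ 5 := by
    rw [hk]; push_cast; rw [abs_mul, abs_pow]
  -- the easy bound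
  have easy : |(x : ℝ)| ≤ (1 + 648 * (U : ℝ) ^ 6) * |(k : ℝ)| → |(x : ℝ)| ^ (E - 1) ≤ C * |(k : ℝ)| ^ E := by
    intro h
    calc |(x : ℝ)| ^ (E - 1) ≤ ((1 + 648 * (U : ℝ) ^ 6) * |(k : ℝ)|) ^ (E - 1) := pow_le_pow_left₀ hx0 h _
      _ = (1 + 648 * (U : ℝ) ^ 6) ^ (E - 1) * |(k : ℝ)| ^ (E - 1) := by rw [mul_pow]
      _ ≤ C * |(k : ℝ)| ^ E := by
          apply mul_le_mul _ (pow_le_pow_right₀ hk1 (by omega)) (by positivity) hCpos.le
          rw [hC]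
          have e1 : (0 : ℝ) ≤ (10 : ℝ) ^ (4 * (E - 1)) := by positivity
          have e2 : (0 : ℝ) ≤ 192 ^ 5 * (U : ℝ) ^ 15 := by positivity
          have e3 : (0 : ℝ) ≤ C₀ ^ 5 * (U : ℝ) ^ (9 * E) := by positivity
          linarith
  by_cases hy : y = 0
  · right
    apply easy
    -- `|x|³ = |k|`
    have h1 : |(x : ℝ)| ^ 3 = |(k : ℝ)| := by
      have : (x : ℝ) ^ 3 = -k := by
        have := heq
        rw [hy] at this
        have h2 : (0 : ℝ) ^ 2 = (x : ℝ) ^ 3 + k := by exact_mod_cast this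
        linarith
      rw [← abs_pow, this, abs_neg]
    have h2 : |(x : ℝ)| ≤ |(k : ℝ)| := by
      by_cases hx1 : |(x : ℝ)| ≤ 1
      · linarith
      · push Not at hx1
        calc |(x : ℝ)| = |(x : ℝ)| ^ 1 := (pow_one _).symm
          _ ≤ |(x : ℝ)| ^ 3 := pow_le_pow_right₀ hx1.le (by norm_num)
          _ = _ := h1
    have h3 : (0 : ℝ) ≤ 648 * (U : ℝ) ^ 6 * |(k : ℝ)| := by positivity
    linarith
  set M : ℤ := u ^ 2 * m with hM
  set X' : ℤ := u ^ 3 * x with hX'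
  have hM0 : M ≠ 0 := mul_ne_zero (pow_ne_zero _ hu0) hm0
  set ρ : ℝ := (12 * |(X' : ℝ)|) ^ ((1 : ℝ) / 5) with hρ
  have hρ5 : ρ ^ 5 = 12 * |(X' : ℝ)| := by
    rw [hρ, ← Real.rpow_natCast, ← Real.rpow_mul (by positivity)]
    norm_num
  have hρ0 : 0 ≤ ρ := by rw [hρ]; positivity
  have hXabs : |(X' : ℝ)| = |(u : ℝ)| ^ 3 * |(x : ℝ)| := by
    rw [hX']; push_cast; rw [abs_mul, abs_pow]
  have hMabs : |(M : ℝ)| = |(u : ℝ)| ^ 2 * |(m : ℝ)| := by
    rw [hM]; push_cast; rw [abs_mul, abs_pow]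
  have hxX : |(x : ℝ)| ≤ |(X' : ℝ)| := by
    rw [hXabs]
    have : (1 : ℝ) ≤ |(u : ℝ)| ^ 3 := one_le_pow₀ hu1
    nlinarith
  by_cases hsmall : ρ < 10
  · right
    have h1 : |(x : ℝ)| ≤ 10 ^ 4 := by
      have h2 : ρ ^ 5 ≤ 10 ^ 5 := pow_le_pow_left₀ hρ0 hsmall.le 5
      rw [hρ5] at h2
      linarith
    calc |(x : ℝ)| ^ (E - 1) ≤ ((10 : ℝ) ^ 4) ^ (E - 1) := pow_le_pow_left₀ hx0 h1 _
      _ = (10 : ℝ) ^ (4 * (E - 1)) := by rw [← pow_mul]
      _ ≤ C * 1 := by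
          rw [hC]
          have e1 : (0 : ℝ) ≤ (1 + 648 * (U : ℝ) ^ 6) ^ (E - 1) := by positivity
          have e2 : (0 : ℝ) ≤ 192 ^ 5 * (U : ℝ) ^ 15 := by positivity
          have e3 : (0 : ℝ) ≤ C₀ ^ 5 * (U : ℝ) ^ (9 * E) := by positivity
          linarith
      _ ≤ C * |(k : ℝ)| ^ E := mul_le_mul_of_nonneg_left (one_le_pow₀ hk1) hCpos.le
  push Not at hsmall
  have hρpos : 0 < ρ := by linarith
  by_cases hbig : |(M : ℝ)| ≤ ρ ∧ 60 * |(M : ℝ)| < ρ ^ 2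
  · -- the main case
    have hdisc : ∀ (L : Type) [Field L] [NumberField L] (pb : PowerBasis ℚ L), pb.dim = 6 →
        pb.gen ^ 6 + 10 * M * pb.gen ^ 3 + 12 * X' * pb.gen + 5 * M ^ 2 = 0 →
        |discr L| ≤ ((9331200000 * 72 ^ 4 * U ^ 38 * G ^ 4 : ℕ) : ℤ) := by
      intro L _ _ pb hd hroot
      have hrel : X' ^ 3 + M ^ 5 = u ^ 9 * y ^ 2 := by
        rw [heq, hk, hM, hX']; ring
      obtain ⟨h1, h2⟩ := discr_dvd pb hd M X' u y hy hrel hroot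
      have h3 : discr L ∣ (9331200000 * 72 ^ 4 * u ^ 38) * y ^ 4 :=
        h1.trans ⟨72 ^ 4 * u ^ 20, by ring⟩
      have h4 : discr L ∣ (9331200000 * 72 ^ 4 * u ^ 38) * (m * x) ^ 4 :=
        h2.trans ⟨1, by rw [hM, hX']; ring⟩
      have h5 : discr L ∣ (9331200000 * 72 ^ 4 * u ^ 38) * ((Int.gcd y (m * x) : ℕ) : ℤ) ^ 4 := by
        have h6 : (discr L).natAbs ∣ (9331200000 * 72 ^ 4 * u ^ 38).natAbs * (Int.gcd y (m * x)) ^ 4 := by
          have e1 : (discr L).natAbs ∣ (9331200000 * 72 ^ 4 * u ^ 38).natAbs * (y.natAbs) ^ 4 := by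
            have := Int.natAbs_dvd_natAbs.2 h3
            rwa [Int.natAbs_mul, Int.natAbs_pow] at this
          have e2 : (discr L).natAbs ∣ (9331200000 * 72 ^ 4 * u ^ 38).natAbs * ((m * x).natAbs) ^ 4 := by
            have := Int.natAbs_dvd_natAbs.2 h4
            rwa [Int.natAbs_mul, Int.natAbs_pow] at this
          have e3 := Nat.dvd_gcd e1 e2
          rw [Nat.gcd_mul_left] at e3
          have e4 : Nat.gcd (y.natAbs ^ 4) ((m * x).natAbs ^ 4) = (Int.gcd y (m * x)) ^ 4 := by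
            rw [Nat.pow_gcd_pow]; rfl
          rwa [e4] at e3
        rw [← Int.natAbs_dvd_natAbs, Int.natAbs_mul, Int.natAbs_pow, Int.natAbs_natCast]
        exact h6
      have hg0 : 0 < Int.gcd y (m * x) := Int.gcd_pos_of_ne_zero_left _ hy
      have hne : (9331200000 * 72 ^ 4 * u ^ 38) * ((Int.gcd y (m * x) : ℕ) : ℤ) ^ 4 ≠ 0 := by
        have : ((Int.gcd y (m * x) : ℕ) : ℤ) ≠ 0 := by exact_mod_cast hg0.ne'
        positivity
      have h7 := Int.le_of_dvd (abs_pos.2 hne) ((dvd_abs _ _).2 ((abs_dvd _ _).2 h5))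
      refine h7.trans ?_
      rw [abs_mul, abs_mul, abs_pow, abs_pow, Nat.abs_cast]
      have e5 : |u| ^ 38 ≤ (U : ℤ) ^ 38 := pow_le_pow_left₀ (abs_nonneg _) hu 38
      have e6 : ((Int.gcd y (m * x) : ℕ) : ℤ) ^ 4 ≤ (G : ℤ) ^ 4 :=
        pow_le_pow_left₀ (by positivity) (by exact_mod_cast hgcd hy) 4
      have e7 : |(9331200000 * 72 ^ 4 : ℤ)| = 9331200000 * 72 ^ 4 := by norm_num
      rw [e7]
      push_cast
      have e8 : (9331200000 * 72 ^ 4 : ℤ) * |u| ^ 38 ≤ 9331200000 * 72 ^ 4 * (U : ℤ) ^ 38 :=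
        mul_le_mul_of_nonneg_left e5 (by norm_num)
      exact mul_le_mul e8 e6 (by positivity) (by positivity)
    rcases hcore M X' ρ hsmall hρ5 hbig.1 hbig.2 hM0 hdisc with ⟨v, hv, hvdeg, hle⟩ | hle
    · left
      constructor
      · intro hirr
        have := irreducible_degree hk hk0 hirr hv
        omega
      · -- `ρ ≤ 192 M²`
        have h1 : 12 * |(X' : ℝ)| ≤ (192 * (M : ℝ) ^ 2) ^ 5 := by
          rw [← hρ5]; exact pow_le_pow_left₀ hρ0 hle 5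
        have h2 : (192 * (M : ℝ) ^ 2) ^ 5 = 192 ^ 5 * |(u : ℝ)| ^ 18 * |(k : ℝ)| ^ 2 := by
          rw [← sq_abs (M : ℝ), hMabs, hkabs]; ring
        rw [h2, hXabs] at h1
        have hupos : 0 < |(u : ℝ)| ^ 3 := by positivity
        have h3 : |(u : ℝ)| ^ 3 * |(x : ℝ)| ≤ |(u : ℝ)| ^ 3 * (192 ^ 5 * |(u : ℝ)| ^ 15 * |(k : ℝ)| ^ 2) := by
          have : 0 ≤ |(u : ℝ)| ^ 3 * |(x : ℝ)| := by positivity
          nlinarith
        have h4 := le_of_mul_le_mul_left h3 hupos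
        refine h4.trans ?_
        apply mul_le_mul_of_nonneg_right _ (by positivity)
        have h5 : |(u : ℝ)| ^ 15 ≤ (U : ℝ) ^ 15 := pow_le_pow_left₀ (by positivity) huU 15
        rw [hC]
        have e1 : (0 : ℝ) ≤ (10 : ℝ) ^ (4 * (E - 1)) := by positivity
        have e2 : (0 : ℝ) ≤ (1 + 648 * (U : ℝ) ^ 6) ^ (E - 1) := by positivity
        have e3 : (0 : ℝ) ≤ C₀ ^ 5 * (U : ℝ) ^ (9 * E) := by positivity
        nlinarith
    · right
      have h1 : (ρ ^ (E - 1)) ^ 5 ≤ (C₀ * |(M : ℝ)| ^ E) ^ 5 := pow_le_pow_left₀ (by positivity) hle 5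
      have h2 : (ρ ^ (E - 1)) ^ 5 = (12 * |(X' : ℝ)|) ^ (E - 1) := by
        rw [← hρ5, ← pow_mul, ← pow_mul]; ring_nf
      have h3 : (C₀ * |(M : ℝ)| ^ E) ^ 5 = C₀ ^ 5 * |(u : ℝ)| ^ (9 * E) * |(k : ℝ)| ^ E := by
        rw [hMabs, hkabs]; ring
      rw [h2, h3] at h1
      have h4 : |(x : ℝ)| ^ (E - 1) ≤ (12 * |(X' : ℝ)|) ^ (E - 1) := by
        apply pow_le_pow_left₀ hx0
        linarith [abs_nonneg (X' : ℝ)]
      refine (h4.trans h1).trans ?_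
      apply mul_le_mul_of_nonneg_right _ (by positivity)
      have h5 : |(u : ℝ)| ^ (9 * E) ≤ (U : ℝ) ^ (9 * E) := pow_le_pow_left₀ (by positivity) huU _
      have h6 : C₀ ^ 5 * |(u : ℝ)| ^ (9 * E) ≤ C₀ ^ 5 * (U : ℝ) ^ (9 * E) :=
        mul_le_mul_of_nonneg_left h5 (by positivity)
      rw [hC]
      have e1 : (0 : ℝ) ≤ (10 : ℝ) ^ (4 * (E - 1)) := by positivity
      have e2 : (0 : ℝ) ≤ (1 + 648 * (U : ℝ) ^ 6) ^ (E - 1) := by positivity
      have e3 : (0 : ℝ) ≤ 192 ^ 5 * (U : ℝ) ^ 15 := by positivity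
      linarith
  · right
    apply easy
    have h1 : ρ ≤ 6 * |(M : ℝ)| := by
      by_contra hcon
      push Not at hcon
      apply hbig
      constructor
      · linarith [abs_nonneg (M : ℝ)]
      · nlinarith
    have h2 : 12 * |(X' : ℝ)| ≤ (6 * |(M : ℝ)|) ^ 5 := by
      rw [← hρ5]; exact pow_le_pow_left₀ hρ0 h1 5
    have h3 : (6 * |(M : ℝ)|) ^ 5 = 7776 * |(u : ℝ)| ^ 9 * |(k : ℝ)| := by
      rw [hMabs, hkabs]; ring
    rw [h3, hXabs] at h2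
    have hupos : 0 < |(u : ℝ)| ^ 3 := by positivity
    have h4 : |(u : ℝ)| ^ 3 * |(x : ℝ)| ≤ |(u : ℝ)| ^ 3 * (648 * |(u : ℝ)| ^ 6 * |(k : ℝ)|) := by
      nlinarith
    have h5 := le_of_mul_le_mul_left h4 hupos
    have h6 : |(u : ℝ)| ^ 6 ≤ (U : ℝ) ^ 6 := pow_le_pow_left₀ (by positivity) huU 6
    have h7 : 648 * |(u : ℝ)| ^ 6 * |(k : ℝ)| ≤ 648 * (U : ℝ) ^ 6 * |(k : ℝ)| := by
      apply mul_le_mul_of_nonneg_right _ (by positivity)
      linarith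
    nlinarith

end Pool.Agent.H19.QF
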