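import Pool.Agent.H67.Hall.Transitive
import Pool.Agent.H19.QF.Field

/-!
# Subgroups of order five over a number field
-/

namespace Pool.Agent.H19.QF

open WeierstrassCurve WeierstrassCurve.Affine Polynomial Pool.Agent.H67.Hall NumberField

open scoped Classical

/-- `W` has a subgroup of order `n` over `K`: a subgroup of order `n` of the group of points of `W` over the
algebraic closure of `ℚ`, which is stable under the automorphisms of the algebraic closure fixing `K`. -/
def HasSubgroupOver (W : WeierstrassCurve ℚ) (K : IntermediateField ℚ QQ) (n : ℕ) : Prop :=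
  ∃ H : AddSubgroup (W⁄QQ).Point, Nat.card H = n ∧
    ∀ σ : QQ ≃ₐ[ℚ] QQ, (∀ a ∈ K, σ a = a) →
      ∀ P ∈ H, Affine.Point.map (W' := W) (σ : QQ →ₐ[ℚ] QQ) P ∈ H

section
variable {x y : ℤ}

lemma mem_enum {H : AddSubgroup ((curve x y)⁄QQ).Point} (hH : Nat.card H = 5)
    {P : ((curve x y)⁄QQ).Point} (hPH : P ∈ H) (hP0 : P ≠ 0) :
    ∀ Q ∈ H, Q = 0 ∨ Q = P ∨ Q = P + P ∨ Q = -(P + P) ∨ Q = -P := by
  have hP5 : (5 : ℕ) • P = 0 := by
    have h := card_nsmul_eq_zero' (x := (⟨P, hPH⟩ : H))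
    rw [hH] at h
    have := congrArg (Subtype.val) h
    simpa using this
  have hprime : Fact (Nat.Prime (Nat.card H)) := ⟨by rw [hH]; norm_num⟩
  intro Q hQ
  have h1 := mem_zmultiples_of_prime_card (G := H) rfl (g := ⟨P, hPH⟩) (g' := ⟨Q, hQ⟩)
    (by intro h; exact hP0 (congrArg Subtype.val h))
  rw [AddSubgroup.mem_zmultiples_iff] at h1
  obtain ⟨n, hn⟩ := h1
  have hn' : n • P = Q := by
    have := congrArg Subtype.val hn
    simpa using this
  have h9 : ((5 : ℤ)) • P = 0 := by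
    have : ((5 : ℤ)) • P = (5 : ℕ) • P := by norm_cast
    rw [this, hP5]
  have h6 : (n % 5) • P = Q := by
    rw [← hn']
    conv_rhs => rw [← Int.emod_add_mul_ediv n 5]
    rw [add_zsmul, mul_comm (5 : ℤ), mul_zsmul, h9, zsmul_zero, add_zero]
  have h7 : 0 ≤ n % 5 := Int.emod_nonneg _ (by norm_num)
  have h8 : n % 5 < 5 := Int.emod_lt_of_pos _ (by norm_num)
  generalize n % 5 = r at h6 h7 h8
  interval_cases r
  · left; rw [← h6]; simp
  · right; left; rw [← h6]; simp
  · right; right; left; rw [← h6, two_zsmul]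
  · right; right; right; left
    rw [← h6, eq_neg_iff_add_eq_zero, ← h9]; module
  · right; right; right; right
    rw [← h6, eq_neg_iff_add_eq_zero, ← h9]; module

lemma mem_x {H : AddSubgroup ((curve x y)⁄QQ).Point} (hH : Nat.card H = 5) {α β : QQ}
    (h : Coord x y H α β) {a c : QQ} {hac : ((curve x y)⁄QQ).Nonsingular a c}
    (hm : Affine.Point.some a c hac ∈ H) : a = α ∨ a = β := by
  obtain ⟨hne, ⟨γ, hγ, hP⟩, ⟨δ, hδ, hP'⟩, -, -⟩ := h
  have henum := mem_enum hH hP (Affine.Point.some_ne_zero hγ)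
  have h2 : Affine.Point.some β δ hδ = Affine.Point.some α γ hγ + Affine.Point.some α γ hγ ∨
      Affine.Point.some β δ hδ = -(Affine.Point.some α γ hγ + Affine.Point.some α γ hγ) := by
    rcases henum _ hP' with h | h | h | h | h
    · exact absurd h (Affine.Point.some_ne_zero hδ)
    · exact absurd ((Affine.Point.X_eq_iff (h₁ := hδ) (h₂ := hγ)).2 (Or.inl h)) (Ne.symm hne)
    · exact Or.inl h
    · exact Or.inr h
    · exact absurd ((Affine.Point.X_eq_iff (h₁ := hδ) (h₂ := hγ)).2 (Or.inr h)) (Ne.symm hne)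
  rcases henum _ hm with h | h | h | h | h
  · exact absurd h (Affine.Point.some_ne_zero hac)
  · exact Or.inl ((Affine.Point.X_eq_iff (h₁ := hac) (h₂ := hγ)).2 (Or.inl h))
  · right
    rcases h2 with h2 | h2
    · exact (Affine.Point.X_eq_iff (h₁ := hac) (h₂ := hδ)).2 (Or.inl (h.trans h2.symm))
    · exact (Affine.Point.X_eq_iff (h₁ := hac) (h₂ := hδ)).2 (Or.inr (by rw [h, h2, neg_neg]))
  · right
    rcases h2 with h2 | h2
    · exact (Affine.Point.X_eq_iff (h₁ := hac) (h₂ := hδ)).2 (Or.inr (by rw [h, h2]))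
    · exact (Affine.Point.X_eq_iff (h₁ := hac) (h₂ := hδ)).2 (Or.inl (h.trans h2.symm))
  · exact Or.inl ((Affine.Point.X_eq_iff (h₁ := hac) (h₂ := hγ)).2 (Or.inr h))

lemma haupt_eq {H : AddSubgroup ((curve x y)⁄QQ).Point} (hH : Nat.card H = 5) {α β α' β' : QQ}
    (h : Coord x y H α β) (h' : Coord x y H α' β') : haupt x α' β' = haupt x α β := by
  obtain ⟨hne', ⟨γ, hγ, hP⟩, ⟨δ, hδ, hP'⟩, -, -⟩ := h'
  rcases mem_x hH h hP with h1 | h1 <;> rcases mem_x hH h hP' with h2 | h2
  · exact absurd (h1.trans h2.symm) hne'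
  · rw [h1, h2]
  · rw [h1, h2]
    simp only [haupt]
    have e1 : β + α = α + β := add_comm _ _
    have e2 : β * α = α * β := mul_comm _ _
    have e3 : (β - α) ^ 2 = (α - β) ^ 2 := by ring
    rw [e1, e2, e3]
  · exact absurd (h1.trans h2.symm) hne'

/-- A subgroup over `K` gives a root in `K`. -/
lemma exists_root {K : IntermediateField ℚ QQ} {k : ℤ} (hxy : y ^ 2 = x ^ 3 + k)
    (h : HasSubgroupOver (curve x y) K 5) :
    ∃ z : K, (k : K) * (z ^ 2 + 10 * z + 5) ^ 3 + 1728 * x ^ 3 * z = 0 := by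
  obtain ⟨H, hH, hst⟩ := h
  obtain ⟨α, β, hc⟩ := exists_coord hH
  have hG : IsGalois ℚ QQ := isGalois_QQ
  have hmem : haupt x α β ∈ K := by
    rw [← InfiniteGalois.fixedField_fixingSubgroup K]
    rw [IntermediateField.mem_fixedField_iff]
    intro σ hσ
    rw [← haupt_map]
    have hK : ∀ a ∈ K, σ a = a := fun a ha =>
      (IntermediateField.mem_fixingSubgroup_iff K σ).1 hσ a ha
    have hmap : H.map (Affine.Point.map (W' := curve x y) (σ : QQ →ₐ[ℚ] QQ)) = H := by
      have hfin : Finite H := Nat.finite_of_card_ne_zero (by rw [hH]; norm_num)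
      apply AddSubgroup.eq_of_le_of_card_ge
      · rintro _ ⟨P, hP, rfl⟩
        exact hst σ hK P hP
      · rw [hH, card_map hH σ]
    have h2 := hc.map σ
    rw [hmap] at h2
    exact haupt_eq hH hc h2
  refine ⟨⟨haupt x α β, hmem⟩, ?_⟩
  have h1 := hc.root hxy
  apply Subtype.ext
  push_cast
  rw [Polynomial.map_add, Polynomial.map_mul, P5_map, Polynomial.map_C, Polynomial.map_mul,
      Polynomial.map_C, Polynomial.map_X] at h1
  simp only [map_add, map_mul, map_pow, aeval_X, map_ofNat, eq_intCast, map_intCast] at h1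
  have e10 : ((10 : K) : QQ) = 10 := map_ofNat (algebraMap K QQ) 10
  have e5 : ((5 : K) : QQ) = 5 := map_ofNat (algebraMap K QQ) 5
  have e1728 : ((1728 : K) : QQ) = 1728 := map_ofNat (algebraMap K QQ) 1728
  rw [e10, e5, e1728]
  linear_combination h1

end

end Pool.Agent.H19.QF
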