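import Pool.Agent.H19.FS.KeyN

/-!
# Roth's theorem for the conjugates of an algebraic integer of a fixed number field

An algebraic integer of a number field `L` whose conjugates are close to `ρ a_φ`, for a fixed vector `a` of
algebraic numbers with a zero and a non-zero coordinate, cannot be closer to it than `ρ ^ (-1 - ε)`.
-/

namespace Pool.Agent.H19.QF

open NumberField Module Pool.Agent.H19.FO Pool.Agent.H19.FS

/-- Roth's theorem for a linear form with complex coefficients. -/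
lemma roth_complex {κ : ℂ} (halg : IsAlgebraic ℚ κ) (hirr : ∀ q : ℚ, κ ≠ q) (E : ℕ) (hE : E ≠ 0) :
    ∃ c₀ : ℝ, 0 < c₀ ∧ ∀ s t : ℤ, ¬ (s = 0 ∧ t = 0) →
      c₀ ≤ ht s t ^ (E + 1) * ‖(s : ℂ) - κ * t‖ ^ E := by
  by_cases him : κ.im = 0
  · have hre : κ = (κ.re : ℂ) := by
      apply Complex.ext <;> simp [him]
    have halg' : IsAlgebraic ℚ κ.re := by
      rw [hre] at halg
      exact (isAlgebraic_algebraMap_iff (algebraMap ℝ ℂ).injective).1 halg
    have hirr' : Irrational κ.re := by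
      rintro ⟨q, hq⟩
      apply hirr q
      rw [hre, ← hq]
      simp
    obtain ⟨c₀, h0, h⟩ := roth_linear' halg' hirr' E hE
    refine ⟨c₀, h0, fun s t hst => ?_⟩
    have h1 : ‖(s : ℂ) - κ * t‖ = |(s : ℝ) - κ.re * t| := by
      rw [hre]
      rw [← Real.norm_eq_abs, ← Complex.norm_real]
      push_cast
      simp
    rw [h1]
    exact h s t hst
  · have him' : 0 < |κ.im| := abs_pos.2 him
    refine ⟨min (|κ.im| ^ E) 1, lt_min (by positivity) one_pos, fun s t hst => ?_⟩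
    have hH1 := ht_ge_one hst
    have hH2 : (1 : ℝ) ≤ ht s t ^ (E + 1) := one_le_pow₀ hH1
    by_cases ht0 : t = 0
    · have hs : s ≠ 0 := fun h' => hst ⟨h', ht0⟩
      have h1 : (1 : ℝ) ≤ |(s : ℝ)| := by
        have := Int.one_le_abs hs
        exact_mod_cast this
      have h3 : ‖(s : ℂ) - κ * t‖ = |(s : ℝ)| := by
        rw [ht0]; simp
      rw [h3]
      have h2 : (1 : ℝ) ≤ |(s : ℝ)| ^ E := one_le_pow₀ h1
      refine (min_le_right _ _).trans ?_
      nlinarith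
    · have h1 : (1 : ℝ) ≤ |(t : ℝ)| := by
        have := Int.one_le_abs ht0
        exact_mod_cast this
      have h3 : |κ.im| ≤ ‖(s : ℂ) - κ * t‖ := by
        refine le_trans ?_ (Complex.abs_im_le_norm _)
        have : ((s : ℂ) - κ * t).im = -(κ.im * t) := by simp
        rw [this, abs_neg, abs_mul]
        nlinarith
      have h4 : |κ.im| ^ E ≤ ‖(s : ℂ) - κ * t‖ ^ E := pow_le_pow_left₀ him'.le h3 E
      refine (min_le_left _ _).trans ?_
      have h5 : 0 ≤ ‖(s : ℂ) - κ * t‖ ^ E := by positivity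
      nlinarith

section key

variable (L : Type*) [Field L] [NumberField L]

/-- the dual basis of the integral basis -/
noncomputable def dl : Basis (Free.ChooseBasisIndex ℤ (𝓞 L)) ℚ L :=
  (Algebra.traceForm ℚ L).dualBasis (traceForm_nondegenerate ℚ L) (integralBasis L)

lemma trace_dl (i j : Free.ChooseBasisIndex ℤ (𝓞 L)) :
    Algebra.trace ℚ L (dl L i * integralBasis L j) = if j = i then 1 else 0 := by
  classical
  have := LinearMap.BilinForm.apply_dualBasis_left (traceForm_nondegenerate ℚ L)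
    (integralBasis L) i j
  rw [Algebra.traceForm_apply] at this
  unfold dl
  convert this

lemma sum_dl (i j : Free.ChooseBasisIndex ℤ (𝓞 L)) :
    ∑ φ : L →ₐ[ℚ] ℂ, φ (dl L i) * φ (integralBasis L j) = if i = j then 1 else 0 := by
  classical
  have h := trace_dl L i j
  have h2 := trace_eq_sum_embeddings (K := ℚ) (L := L) ℂ (x := dl L i * integralBasis L j)
  rw [h] at h2
  simp only [map_mul] at h2
  rw [← h2]
  by_cases hij : i = j
  · simp [hij]
  · rw [if_neg hij, if_neg (Ne.symm hij)]; simp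

lemma sum_dl' [DecidableEq (L →ₐ[ℚ] ℂ)] (φ ψ : L →ₐ[ℚ] ℂ) :
    ∑ i, φ (integralBasis L i) * ψ (dl L i) = if φ = ψ then 1 else 0 := by
  classical
  let A : Matrix (L →ₐ[ℚ] ℂ) (Free.ChooseBasisIndex ℤ (𝓞 L)) ℂ := Matrix.of fun φ i => φ (integralBasis L i)
  let D : Matrix (Free.ChooseBasisIndex ℤ (𝓞 L)) (L →ₐ[ℚ] ℂ) ℂ := Matrix.of fun i φ => φ (dl L i)
  have h1 : D * A = 1 := by
    ext i j
    rw [Matrix.mul_apply, Matrix.one_apply]
    exact sum_dl L i j
  have hc : Fintype.card (Free.ChooseBasisIndex ℤ (𝓞 L)) = Fintype.card (L →ₐ[ℚ] ℂ) := by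
    rw [AlgHom.card ℚ L ℂ, finrank_eq_card_basis (integralBasis L)]
  have h2 : A * D = 1 := (Matrix.mul_eq_one_comm_of_equiv (Fintype.card_eq.mp hc).some).1 h1
  have h3 := congrFun (congrFun h2 φ) ψ
  rw [Matrix.mul_apply, Matrix.one_apply] at h3
  exact h3

lemma isAlgebraic_emb (φ : L →ₐ[ℚ] ℂ) (x : L) : IsIntegral ℚ (φ x) :=
  (Algebra.IsIntegral.isIntegral x).map φ

lemma coords {V : L} (hV : IsIntegral ℤ V) : ∃ v : Free.ChooseBasisIndex ℤ (𝓞 L) → ℤ,
    ∀ i, ((v i : ℤ) : ℂ) = ∑ φ : L →ₐ[ℚ] ℂ, φ V * φ (dl L i) := by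
  classical
  have h1 : V ∈ Submodule.span ℤ (Set.range (integralBasis L)) := by
    rw [mem_span_integralBasis]
    exact ⟨⟨V, hV⟩, rfl⟩
  rw [Submodule.mem_span_range_iff_exists_fun] at h1
  obtain ⟨v, hv⟩ := h1
  refine ⟨v, fun i => ?_⟩
  rw [← hv]
  simp only [map_sum, map_zsmul, Finset.sum_mul]
  rw [Finset.sum_comm]
  have : ∀ j, ∑ φ : L →ₐ[ℚ] ℂ, (v j • φ (integralBasis L j)) * φ (dl L i) = (v j : ℂ) * if i = j then 1 else 0 := by
    intro j
    rw [← sum_dl L i j, Finset.mul_sum]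
    refine Finset.sum_congr rfl fun φ _ => ?_
    rw [zsmul_eq_mul]; ring
  simp only [this]
  simp

theorem key (a : (L →ₐ[ℚ] ℂ) → ℂ)
    (halg : ∀ φ, IsAlgebraic ℚ (a φ)) (h0 : ∃ φ, a φ = 0) (h1 : ∃ φ, a φ ≠ 0) (E : ℕ) (hE : E ≠ 0) :
    ∃ C : ℝ, 0 < C ∧ ∀ V : L, IsIntegral ℤ V → ∀ ρ η : ℝ, 1 ≤ ρ → 0 ≤ η → η ≤ ρ →
      (∀ φ, ‖φ V - ρ * a φ‖ ≤ η) → 1 ≤ C * (ρ ^ (E + 1) * η ^ E) := by
  classical
  set c : Free.ChooseBasisIndex ℤ (𝓞 L) → ℂ := fun i => ∑ φ : L →ₐ[ℚ] ℂ, a φ * φ (dl L i) with hc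
  have hcalg : ∀ i, IsIntegral ℚ (c i) := fun i =>
    IsIntegral.sum _ fun φ _ => ((halg φ).isIntegral).mul (isAlgebraic_emb L φ _)
  -- the vector `c` determines `a`
  have hca : ∀ φ, ∑ i, φ (integralBasis L i) * c i = a φ := by
    intro φ
    calc ∑ i, φ (integralBasis L i) * c i
        = ∑ i, ∑ ψ : L →ₐ[ℚ] ℂ, a ψ * (φ (integralBasis L i) * ψ (dl L i)) := by
          refine Finset.sum_congr rfl fun i _ => ?_
          rw [hc]
          simp only
          rw [Finset.mul_sum]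
          refine Finset.sum_congr rfl fun ψ _ => ?_
          ring
      _ = ∑ ψ : L →ₐ[ℚ] ℂ, a ψ * ∑ i, φ (integralBasis L i) * ψ (dl L i) := by
          rw [Finset.sum_comm]
          simp only [Finset.mul_sum]
      _ = a φ := by
          simp only [sum_dl']
          simp
  have hnon : ∀ (lam : ℂ) (q : Free.ChooseBasisIndex ℤ (𝓞 L) → ℚ), ¬ ∀ i, c i = lam * q i := by
    intro lam q h
    have h2 : ∀ φ : L →ₐ[ℚ] ℂ, a φ = lam * φ (∑ i, q i • integralBasis L i) := by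
      intro φ
      rw [← hca φ, map_sum, Finset.mul_sum]
      refine Finset.sum_congr rfl fun i _ => ?_
      rw [h i, Rat.smul_def, map_mul, map_ratCast]
      ring
    obtain ⟨φ₀, hφ₀⟩ := h0
    obtain ⟨φ₁, hφ₁⟩ := h1
    rw [h2 φ₀] at hφ₀
    rcases mul_eq_zero.1 hφ₀ with h3 | h3
    · apply hφ₁
      rw [h2 φ₁, h3, zero_mul]
    · have h4 : (∑ i, q i • integralBasis L i) = 0 := by
        apply φ₀.toRingHom.injective
        rw [map_zero]; exact h3
      apply hφ₁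
      rw [h2 φ₁, h4, map_zero, mul_zero]
  obtain ⟨l, hl⟩ : ∃ l, c l ≠ 0 := by
    by_contra hcon
    push Not at hcon
    exact hnon 0 (fun _ => 0) fun i => by rw [hcon i]; simp
  obtain ⟨i, hi⟩ : ∃ i, ∀ q : ℚ, c i / c l ≠ q := by
    by_contra hcon
    push Not at hcon
    choose q hq using hcon
    refine hnon (c l) q fun i => ?_
    rw [← hq i]
    field_simp
  set κ : ℂ := c i / c l with hκ
  have hκalg : IsAlgebraic ℚ κ := by
    rw [hκ, div_eq_mul_inv]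
    exact (hcalg i).isAlgebraic.mul (hcalg l).isAlgebraic.inv
  obtain ⟨c₀, hc₀, hroth⟩ := roth_complex hκalg hi E hE
  set K : ℝ := 1 + ∑ i, ∑ φ : L →ₐ[ℚ] ℂ, ‖φ (dl L i)‖ with hK
  have hK1 : 1 ≤ K := by
    have : 0 ≤ ∑ i, ∑ φ : L →ₐ[ℚ] ℂ, ‖φ (dl L i)‖ :=
      Finset.sum_nonneg fun i _ => Finset.sum_nonneg fun φ _ => norm_nonneg _
    linarith
  have hK0 : 0 < K := by linarith
  set R : ℝ := ‖c i‖ + ‖c l‖ + K with hR
  have hR0 : 0 < R := by positivity
  set S : ℝ := K * (1 + ‖κ‖) with hS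
  have hS0 : 0 < S := by positivity
  have hcl : 0 < ‖c l‖ := norm_pos_iff.2 hl
  refine ⟨(K / ‖c l‖) ^ E + R ^ (E + 1) * S ^ E / c₀, by positivity, ?_⟩
  intro V hV ρ η hρ hη hηρ hap
  obtain ⟨v, hv⟩ := coords L hV
  have hρ0 : 0 < ρ := by linarith
  have hdist : ∀ j, ‖((v j : ℤ) : ℂ) - ρ * c j‖ ≤ K * η := by
    intro j
    have h2 : ((v j : ℤ) : ℂ) - ρ * c j = ∑ φ : L →ₐ[ℚ] ℂ, (φ V - ρ * a φ) * φ (dl L j) := by
      rw [hv j, hc]
      simp only
      rw [Finset.mul_sum, ← Finset.sum_sub_distrib]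
      refine Finset.sum_congr rfl fun φ _ => ?_
      ring
    rw [h2]
    refine (norm_sum_le _ _).trans ?_
    calc ∑ φ : L →ₐ[ℚ] ℂ, ‖(φ V - ρ * a φ) * φ (dl L j)‖
        ≤ ∑ φ : L →ₐ[ℚ] ℂ, η * ‖φ (dl L j)‖ := by
          refine Finset.sum_le_sum fun φ _ => ?_
          rw [norm_mul]
          exact mul_le_mul_of_nonneg_right (hap φ) (norm_nonneg _)
      _ = (∑ φ : L →ₐ[ℚ] ℂ, ‖φ (dl L j)‖) * η := by rw [← Finset.mul_sum, mul_comm]
      _ ≤ K * η := by
          apply mul_le_mul_of_nonneg_right _ hη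
          have : ∑ φ : L →ₐ[ℚ] ℂ, ‖φ (dl L j)‖ ≤ ∑ i, ∑ φ : L →ₐ[ℚ] ℂ, ‖φ (dl L i)‖ :=
            Finset.single_le_sum (f := fun i => ∑ φ : L →ₐ[ℚ] ℂ, ‖φ (dl L i)‖)
              (fun i _ => Finset.sum_nonneg fun φ _ => norm_nonneg _) (Finset.mem_univ j)
          linarith
  have hsize : ∀ j, ‖((v j : ℤ) : ℂ)‖ ≤ (‖c j‖ + K) * ρ := by
    intro j
    have h2 : ((v j : ℤ) : ℂ) = (((v j : ℤ) : ℂ) - ρ * c j) + ρ * c j := by ring
    rw [h2]
    refine (norm_add_le _ _).trans ?_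
    have h3 : ‖(ρ : ℂ) * c j‖ = ρ * ‖c j‖ := by
      rw [norm_mul, Complex.norm_real, Real.norm_of_nonneg hρ0.le]
    rw [h3]
    nlinarith [hdist j, norm_nonneg (c j)]
  have hnn1 : 0 ≤ ρ ^ (E + 1) * η ^ E := by positivity
  by_cases hvl : v l = 0
  · -- then `η ≥ ρ ‖c l‖ / K`
    have h2 := hdist l
    rw [hvl] at h2
    simp only [Int.cast_zero, zero_sub, norm_neg, norm_mul, Complex.norm_real, Real.norm_of_nonneg hρ0.le] at h2
    have h3 : 1 ≤ K / ‖c l‖ * η := by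
      rw [div_mul_eq_mul_div, le_div_iff₀ hcl]
      nlinarith
    have h4 : 1 ≤ (K / ‖c l‖) ^ E * (ρ ^ (E + 1) * η ^ E) := by
      have h5 : 1 ≤ (K / ‖c l‖ * η) ^ E := one_le_pow₀ h3
      have h6 : 1 ≤ ρ ^ (E + 1) := one_le_pow₀ hρ
      calc (1 : ℝ) ≤ (K / ‖c l‖ * η) ^ E * ρ ^ (E + 1) := by nlinarith
        _ = _ := by rw [mul_pow]; ring
    have h7 : 0 ≤ R ^ (E + 1) * S ^ E / c₀ * (ρ ^ (E + 1) * η ^ E) := by positivity
    nlinarith
  · have hst : ¬ (v i = 0 ∧ v l = 0) := fun h => hvl h.2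
    have h2 := hroth (v i) (v l) hst
    have h3 : ‖((v i : ℤ) : ℂ) - κ * (v l : ℤ)‖ ≤ S * η := by
      have h4 : ((v i : ℤ) : ℂ) - κ * (v l : ℤ) =
          (((v i : ℤ) : ℂ) - ρ * c i) - κ * (((v l : ℤ) : ℂ) - ρ * c l) := by
        have : κ * c l = c i := by rw [hκ]; field_simp
        linear_combination (-(ρ : ℂ)) * this
      rw [h4]
      refine (norm_sub_le _ _).trans ?_
      rw [norm_mul, hS]
      nlinarith [hdist i, mul_le_mul_of_nonneg_left (hdist l) (norm_nonneg κ)]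
    have h5 : ht (v i) (v l) ≤ R * ρ := by
      unfold ht
      have e1 := hsize i
      have e2 := hsize l
      rw [Complex.norm_intCast] at e1 e2
      apply max_le
      · refine e1.trans ?_
        apply mul_le_mul_of_nonneg_right _ hρ0.le
        rw [hR]; linarith [norm_nonneg (c l)]
      · refine e2.trans ?_
        apply mul_le_mul_of_nonneg_right _ hρ0.le
        rw [hR]; linarith [norm_nonneg (c i)]
    have hht0 : 0 ≤ ht (v i) (v l) := le_trans zero_le_one (ht_ge_one hst)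
    have h6 : c₀ ≤ (R * ρ) ^ (E + 1) * (S * η) ^ E := by
      refine h2.trans ?_
      exact mul_le_mul (pow_le_pow_left₀ hht0 h5 _) (pow_le_pow_left₀ (norm_nonneg _) h3 _)
        (by positivity) (by positivity)
    have h7 : 1 ≤ R ^ (E + 1) * S ^ E / c₀ * (ρ ^ (E + 1) * η ^ E) := by
      rw [div_mul_eq_mul_div, le_div_iff₀ hc₀]
      calc 1 * c₀ = c₀ := one_mul _
        _ ≤ (R * ρ) ^ (E + 1) * (S * η) ^ E := h6
        _ = _ := by rw [mul_pow, mul_pow]; ring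
    have h8 : 0 ≤ (K / ‖c l‖) ^ E * (ρ ^ (E + 1) * η ^ E) := by positivity
    nlinarith

end key

end Pool.Agent.H19.QF
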