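import Pool.Agent.H19.QF.Val

/-!
# The primes which do not ramify in the field of a subgroup of order five
-/

namespace Pool.Agent.H19.QF

open NumberField IsDedekindDomain WithZero

variable {L : Type*} [Field L] [NumberField L]

lemma quad_ne_zero (pb : PowerBasis ℚ L) (hdim : pb.dim = 6) (a b : ℤ) :
    pb.gen ^ 2 + a * pb.gen + b ≠ 0 := by
  intro h
  have h1 : minpoly ℚ pb.gen ∣ (Polynomial.X ^ 2 + Polynomial.C (a : ℚ) * Polynomial.X + Polynomial.C (b : ℚ)) := by
    apply minpoly.dvd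
    simp only [map_add, map_mul, map_pow, Polynomial.aeval_X, map_intCast]
    exact h
  have h2 : (Polynomial.X ^ 2 + Polynomial.C (a : ℚ) * Polynomial.X + Polynomial.C (b : ℚ)).natDegree = 2 := by
    compute_degree!
  have h3 : (Polynomial.X ^ 2 + Polynomial.C (a : ℚ) * Polynomial.X + Polynomial.C (b : ℚ) : Polynomial ℚ) ≠ 0 := by
    intro h0; rw [h0] at h2; simp at h2
  have h4 := Polynomial.natDegree_le_of_dvd h1 h3
  rw [h2, pb.natDegree_minpoly, hdim] at h4
  omega

/-- If `z` is divisible by all primes above `p`, its trace is divisible by `p`. -/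
lemma trace_contra {p : ℕ} (hp : p.Prime) (hd : ¬ (p : ℤ) ∣ discr L) {z : L} (hz : z ≠ 0) {s N : ℤ}
    (hs : ¬ (p : ℤ) ∣ s) (hN : Algebra.trace ℚ L z = N)
    (h1 : ∀ v : HeightOneSpectrum (𝓞 L), ((p : ℤ) : 𝓞 L) ∈ v.asIdeal → 0 < o v z)
    (h2 : ∀ v : HeightOneSpectrum (𝓞 L), ((p : ℤ) : 𝓞 L) ∉ v.asIdeal → v.valuation L (s * z) ≤ 1) :
    (p : ℤ) ∣ N := by
  have hpZ : Prime (p : ℤ) := Nat.prime_iff_prime_int.1 hp
  have hpL : ((p : ℤ) : L) ≠ 0 := by exact_mod_cast hp.ne_zero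
  have hint : IsIntegral ℤ (s * z / ((p : ℤ) : L)) := by
    apply integral_of_o
    intro v
    rw [map_div₀]
    by_cases hv : ((p : ℤ) : 𝓞 L) ∈ v.asIdeal
    · have h3 := h1 v hv
      have h4 := o_prime v hp hv hd
      have h5 : v.valuation L z ≤ v.valuation L ((p : ℤ) : L) := by
        rw [← log_le_log (val_ne_zero v hz) (val_ne_zero v hpL)]
        unfold o at h3 h4
        linarith
      rw [map_mul]
      have hp0 : v.valuation L ((p : ℤ) : L) ≠ 0 := val_ne_zero v hpL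
      rw [div_le_one₀ (zero_lt_iff.2 hp0)]
      exact (mul_le_of_le_one_left' (val_int_le_one v s)).trans h5
    · have h3 : v.valuation L ((p : ℤ) : L) = 1 := by
        refine le_antisymm (val_int_le_one v p) ?_
        by_contra hcon
        push Not at hcon
        exact hv ((val_int_lt_one_iff v p).1 hcon)
      rw [h3, div_one]
      exact h2 v hv
  have htr : IsIntegral ℤ (Algebra.trace ℚ L (s * z / ((p : ℤ) : L))) := Algebra.isIntegral_trace hint
  obtain ⟨r, hr⟩ := IsIntegrallyClosed.isIntegral_iff.1 htr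
  have hpQ : ((p : ℤ) : ℚ) ≠ 0 := by exact_mod_cast hp.ne_zero
  have h6 : s * z / ((p : ℤ) : L) = ((s : ℚ) / ((p : ℤ) : ℚ)) • z := by
    rw [Rat.smul_def]
    push_cast
    ring
  rw [h6, map_smul, hN, smul_eq_mul] at hr
  have h7 : (p : ℤ) * r = s * N := by
    have : ((p : ℤ) : ℚ) * (r : ℚ) = s * N := by
      have e : (algebraMap ℤ ℚ) r = (r : ℚ) := by simp
      rw [e] at hr
      rw [hr]; field_simp
    exact_mod_cast this
  rcases hpZ.dvd_or_dvd (⟨r, h7.symm⟩ : (p : ℤ) ∣ s * N) with h8 | h8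
  · exact absurd h8 hs
  · exact h8

section root

variable (pb : PowerBasis ℚ L) (hdim : pb.dim = 6) {x y k : ℤ} (hk0 : k ≠ 0) (heq : y ^ 2 = x ^ 3 + k)
  (hroot : (k : L) * (pb.gen ^ 2 + 10 * pb.gen + 5) ^ 3 + 1728 * x ^ 3 * pb.gen = 0)

include hdim hk0 hroot in
lemma root_traces : Algebra.trace ℚ L pb.gen = -30 ∧ Algebra.trace ℚ L (pb.gen ^ 2) = 270 := by
  have hkL : (k : L) ≠ 0 := by exact_mod_cast hk0
  have h := traces pb hdim 30 315 1300 1575 (750 + 1728 * (x : ℚ) ^ 3 / k) 125 (by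
    push_cast
    have h1 : (k : L) * (pb.gen ^ 6 + 30 * pb.gen ^ 5 + 315 * pb.gen ^ 4 + 1300 * pb.gen ^ 3 + 1575 * pb.gen ^ 2 +
      (750 + 1728 * (x : L) ^ 3 / k) * pb.gen + 125) = 0 := by
      rw [← hroot]
      field_simp
      ring
    exact (mul_eq_zero.1 h1).resolve_left hkL)
  norm_num at h
  exact h

include hroot in
lemma val_kt (v : HeightOneSpectrum (𝓞 L)) : v.valuation L (k * pb.gen) ≤ 1 := by
  set t := pb.gen with ht
  rcases le_or_gt (v.valuation L t) 1 with h | h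
  · rw [map_mul]
    exact mul_le_one' (val_int_le_one v k) h
  · have h1 : v.valuation L (t ^ 2 + 10 * t + 5) = (v.valuation L t) ^ 2 := by
      have := quad_gt v 10 5 h
      push_cast at this
      exact this
    have h2 : (k : L) * (t ^ 2 + 10 * t + 5) ^ 3 = -((1728 * x ^ 3 : ℤ) : L) * t := by
      push_cast
      linear_combination hroot
    have h3 := congrArg (v.valuation L) h2
    rw [map_mul, map_pow, h1, map_mul, Valuation.map_neg] at h3
    have h4 : v.valuation L (k : L) * ((v.valuation L t) ^ 2) ^ 3 ≤ 1 * v.valuation L t := by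
      rw [h3]
      exact mul_le_mul_left (val_int_le_one v _) _
    have h5 : v.valuation L (k : L) * ((v.valuation L t) ^ 2) ^ 3 = (v.valuation L (k : L) * (v.valuation L t) ^ 5) * v.valuation L t := by
      rw [← pow_mul, mul_assoc, ← pow_succ]
    rw [h5] at h4
    have hpos : 0 < v.valuation L t := lt_trans zero_lt_one h
    have h6 : v.valuation L (k : L) * (v.valuation L t) ^ 5 ≤ 1 := le_of_mul_le_mul_right h4 hpos
    rw [map_mul]
    refine le_trans (mul_le_mul_right ?_ _) h6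
    calc v.valuation L t = (v.valuation L t) ^ 1 := (pow_one _).symm
      _ ≤ (v.valuation L t) ^ 5 := pow_le_pow_right₀ h.le (by norm_num)

include hdim hk0 heq hroot in
/-- the relations between the valuations -/
lemma relations {p : ℕ} (hp : p.Prime) (hp30 : ¬ p ∣ 30) (hd : ¬ (p : ℤ) ∣ discr L)
    (v : HeightOneSpectrum (𝓞 L)) (hv : ((p : ℤ) : 𝓞 L) ∈ v.asIdeal)
    {e α β : ℕ} {k₁ x₁ y₁ : ℤ} (hk : k = (p : ℤ) ^ e * k₁) (hk₁ : ¬ (p : ℤ) ∣ k₁)
    (hx : x = (p : ℤ) ^ α * x₁) (hx₁ : ¬ (p : ℤ) ∣ x₁)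
    (hy : y = (p : ℤ) ^ β * y₁) (hy₁ : ¬ (p : ℤ) ∣ y₁) :
    ∃ τ c a b : ℤ, τ = o v pb.gen ∧ a = o v (pb.gen ^ 2 + 22 * pb.gen + 125) ∧
      e + 3 * c = 3 * α + τ ∧ e + a + 2 * b = 2 * β + τ ∧ (τ < 0 → c = 2 * τ) ∧ (0 < τ → c = 0) ∧
      (0 ≤ τ → 0 ≤ c ∧ 0 ≤ a ∧ 0 ≤ b ∧ ¬ (0 < a ∧ 0 < b)) := by
  have hpZ : Prime (p : ℤ) := Nat.prime_iff_prime_int.1 hp
  set t := pb.gen with ht
  have hcast : ∀ a b : ℤ, t ^ 2 + a * t + b ≠ 0 := quad_ne_zero pb hdim
  have hθ0 : t ^ 2 + 10 * t + 5 ≠ 0 := by have := hcast 10 5; push_cast at this; exact this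
  have hA0 : t ^ 2 + 22 * t + 125 ≠ 0 := by have := hcast 22 125; push_cast at this; exact this
  have hB0 : t ^ 2 + 4 * t - 1 ≠ 0 := by
    have := hcast 4 (-1); push_cast at this
    intro h; apply this; rw [← h]; ring
  have ht0 : t ≠ 0 := by
    intro h
    have := hcast 0 0
    apply this
    rw [h]; simp
  have hkL : (k : L) ≠ 0 := by exact_mod_cast hk0
  have hx0 : x ≠ 0 := by
    rintro rfl
    rw [Int.cast_zero] at hroot
    have : (k : L) * (t ^ 2 + 10 * t + 5) ^ 3 = 0 := by rw [← hroot]; ring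
    rcases mul_eq_zero.1 this with h | h
    · exact hkL h
    · exact hθ0 (pow_eq_zero_iff (by norm_num) |>.1 h)
  have hyy : (k : L) * ((t ^ 2 + 22 * t + 125) * (t ^ 2 + 4 * t - 1) ^ 2) = -1728 * y ^ 2 * t := by
    have h1 : (y : L) ^ 2 = x ^ 3 + k := by exact_mod_cast heq
    rw [h1]
    linear_combination hroot
  have hy0 : y ≠ 0 := by
    rintro rfl
    rw [Int.cast_zero] at hyy
    have : (k : L) * ((t ^ 2 + 22 * t + 125) * (t ^ 2 + 4 * t - 1) ^ 2) = 0 := by rw [hyy]; ring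
    exact (mul_ne_zero hkL (mul_ne_zero hA0 (pow_ne_zero _ hB0))) this
  have hxL : (x : L) ≠ 0 := by exact_mod_cast hx0
  have hyL : (y : L) ≠ 0 := by exact_mod_cast hy0
  have hcop : ∀ n : ℤ, ¬ (p : ℤ) ∣ n → v.valuation L (n : L) = 1 := fun n hn =>
    val_int_coprime v hv ((Prime.coprime_iff_not_dvd hpZ).2 hn)
  have hsmall : ∀ n : ℕ, n ∣ 30 ^ 6 → ¬ (p : ℤ) ∣ n := by
    intro n hn h
    have h1 : p ∣ n := by exact_mod_cast h
    exact hp30 (hp.dvd_of_dvd_pow (h1.trans hn))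
  have h1728 : v.valuation L (1728 : L) = 1 := by
    have := hcop 1728 (hsmall 1728 (by norm_num)); push_cast at this; exact this
  have ok := o_int v hp hv hd hk hk₁
  have ox := o_int v hp hv hd hx hx₁
  have oy := o_int v hp hv hd hy hy₁
  refine ⟨o v t, o v (t ^ 2 + 10 * t + 5), o v (t ^ 2 + 22 * t + 125), o v (t ^ 2 + 4 * t - 1), rfl, rfl,
    ?_, ?_, ?_, ?_, ?_⟩
  · have h2 : (k : L) * (t ^ 2 + 10 * t + 5) ^ 3 = -(1728 * x ^ 3 * t) := by linear_combination hroot
    have h3 := congrArg (o v) h2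
    rw [o_mul v hkL (pow_ne_zero _ hθ0), o_neg, o_mul v (mul_ne_zero (by norm_num) (pow_ne_zero _ hxL)) ht0,
      o_mul v (by norm_num) (pow_ne_zero _ hxL), o_pow, o_pow, ok, ox, o_of_val_one v h1728] at h3
    push_cast at h3
    linarith
  · have h2 : (k : L) * ((t ^ 2 + 22 * t + 125) * (t ^ 2 + 4 * t - 1) ^ 2) = -(1728 * y ^ 2 * t) := by
      rw [hyy]; ring
    have h3 := congrArg (o v) h2
    rw [o_mul v hkL (mul_ne_zero hA0 (pow_ne_zero _ hB0)), o_mul v hA0 (pow_ne_zero _ hB0), o_neg,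
      o_mul v (mul_ne_zero (by norm_num) (pow_ne_zero _ hyL)) ht0,
      o_mul v (by norm_num) (pow_ne_zero _ hyL), o_pow, o_pow, ok, oy, o_of_val_one v h1728] at h3
    push_cast at h3
    linarith
  · intro hτ
    have h2 : 1 < v.valuation L t := by
      by_contra hcon
      push Not at hcon
      have := (o_nonneg_iff v ht0).2 hcon
      omega
    have h3 := quad_gt v 10 5 h2
    push_cast at h3
    unfold o
    rw [h3, log_pow]
    simp
  · intro hτ
    have h2 : v.valuation L t < 1 := (o_pos_iff v ht0).1 hτ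
    have h3 := quad_lt v 10 5 h2 (hcop 5 (hsmall 5 (by norm_num)))
    push_cast at h3
    exact o_of_val_one v h3
  · intro hτ
    have h2 : v.valuation L t ≤ 1 := (o_nonneg_iff v ht0).1 hτ
    have hθ := quad_le v 10 5 h2
    have hA := quad_le v 22 125 h2
    have hB := quad_le v 4 (-1) h2
    push_cast at hθ hA hB
    rw [← sub_eq_add_neg] at hB
    refine ⟨(o_nonneg_iff v hθ0).2 hθ, (o_nonneg_iff v hA0).2 hA, (o_nonneg_iff v hB0).2 hB, ?_⟩
    rintro ⟨ha, hb⟩
    have ha' := (o_pos_iff v hA0).1 ha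
    have hb' := (o_pos_iff v hB0).1 hb
    have h3 : v.valuation L (18 * (t + 7)) < 1 := by
      have : (18 : L) * (t + 7) = (t ^ 2 + 22 * t + 125) - (t ^ 2 + 4 * t - 1) := by ring
      rw [this]
      exact lt_of_le_of_lt (Valuation.map_sub _ _ _) (max_lt ha' hb')
    have h18 : v.valuation L (18 : L) = 1 := by
      have := hcop 18 (hsmall 18 (by norm_num)); push_cast at this; exact this
    rw [map_mul, h18, one_mul] at h3
    have h20 : v.valuation L (20 : L) = 1 := by
      have := hcop 20 (hsmall 20 (by norm_num)); push_cast at this; exact this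
    have h4 : v.valuation L (20 : L) < 1 := by
      have : (20 : L) = (t ^ 2 + 22 * t + 125) - (t + 7) * (t + 15) := by ring
      rw [this]
      refine lt_of_le_of_lt (Valuation.map_sub _ _ _) (max_lt ha' ?_)
      rw [map_mul]
      have h15 : v.valuation L (t + 15) ≤ 1 := by
        refine (Valuation.map_add _ _ _).trans (max_le h2 ?_)
        have := val_int_le_one v 15; push_cast at this; exact this
      exact lt_of_le_of_lt (mul_le_of_le_one_right' h15) h3
    rw [h20] at h4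
    exact lt_irrefl _ h4

end root

end Pool.Agent.H19.QF
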