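import Mathlib

/-!
# The roots of `z⁶ + 10 M z³ + 12 X z + 5 M²` for small `M`
-/

namespace Pool.Agent.H19.QF

/-- The fifth root of a complex number close to one. -/
lemma fifth_root {η : ℂ} (h : ‖η‖ ≤ 1 / 2) : ∃ τ : ℂ, τ ^ 5 = 1 + η ∧ ‖τ - 1‖ ≤ 3 / 5 * ‖η‖ := by
  have h1 : ‖Complex.log (1 + η)‖ ≤ 3 / 2 * ‖η‖ := Complex.norm_log_one_add_half_le_self h
  have hne : (1 : ℂ) + η ≠ 0 := by
    intro h0
    have : η = -1 := by linear_combination h0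
    rw [this] at h
    norm_num at h
  refine ⟨Complex.exp (Complex.log (1 + η) / 5), ?_, ?_⟩
  · rw [← Complex.exp_nat_mul]
    have : ((5 : ℕ) : ℂ) * (Complex.log (1 + η) / 5) = Complex.log (1 + η) := by push_cast; ring
    rw [this, Complex.exp_log hne]
  · have h2 : ‖Complex.log (1 + η) / 5‖ ≤ 3 / 10 * ‖η‖ := by
      rw [norm_div]
      have : ‖(5 : ℂ)‖ = 5 := by norm_num
      rw [this]
      linarith
    have h3 : ‖Complex.log (1 + η) / 5‖ ≤ 1 := by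
      have := norm_nonneg η
      linarith
    have h4 := Complex.norm_exp_sub_one_le h3
    linarith

lemma root_loc {M X : ℤ} {ρ : ℝ} (hρ : 10 ≤ ρ) (hX : ρ ^ 5 = 12 * |(X : ℝ)|) (hM : |(M : ℝ)| ≤ ρ)
    {z : ℂ} (hz : z ^ 6 + 10 * M * z ^ 3 + 12 * X * z + 5 * M ^ 2 = 0) :
    ∃ a : ℂ, (a = 0 ∨ a ^ 10 = 1) ∧ ‖z - ρ * a‖ ≤ 30 * |(M : ℝ)| / ρ ^ 2 := by
  have hρ0 : 0 < ρ := by linarith
  have hM0 : 0 ≤ |(M : ℝ)| := abs_nonneg _
  set m : ℝ := |(M : ℝ)| with hm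
  set r : ℝ := ‖z‖ with hr
  have hr0 : 0 ≤ r := norm_nonneg _
  have hMc : ‖(M : ℂ)‖ = m := by rw [Complex.norm_intCast]
  have hXc : ‖(12 : ℂ) * X‖ = ρ ^ 5 := by
    rw [norm_mul, Complex.norm_intCast, hX]; norm_num
  by_cases hcase : r ≤ ρ / 2
  · refine ⟨0, Or.inl rfl, ?_⟩
    rw [mul_zero, sub_zero, ← hr]
    have h1 : (12 : ℂ) * X * z = -(z ^ 6 + 10 * M * z ^ 3 + 5 * M ^ 2) := by linear_combination hz
    have h2 : ρ ^ 5 * r ≤ r ^ 6 + 10 * m * r ^ 3 + 5 * m ^ 2 := by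
      have e1 : ‖(12 : ℂ) * X * z‖ = ρ ^ 5 * r := by rw [norm_mul, hXc]
      rw [← e1, h1, norm_neg]
      refine (norm_add_le _ _).trans ?_
      refine add_le_add ((norm_add_le _ _).trans ?_) ?_
      · rw [norm_pow, norm_mul, norm_mul, norm_pow, hMc, ← hr]; norm_num
      · rw [norm_mul, norm_pow, hMc]; norm_num
    have h3 : r ^ 6 ≤ ρ ^ 5 / 32 * r := by
      have e1 : r ^ 5 ≤ (ρ / 2) ^ 5 := pow_le_pow_left₀ hr0 hcase 5
      have e2 : (ρ / 2) ^ 5 = ρ ^ 5 / 32 := by ring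
      rw [e2] at e1
      calc r ^ 6 = r ^ 5 * r := by ring
        _ ≤ _ := mul_le_mul_of_nonneg_right e1 hr0
    have h4 : 10 * m * r ^ 3 ≤ ρ ^ 5 / 40 * r := by
      have e1 : r ^ 2 ≤ (ρ / 2) ^ 2 := pow_le_pow_left₀ hr0 hcase 2
      have e2 : m * r ^ 2 ≤ ρ * (ρ / 2) ^ 2 := mul_le_mul hM e1 (by positivity) hρ0.le
      have e3 : 10 * (m * r ^ 2) ≤ ρ ^ 5 / 40 := by
        have e4 : (100 : ℝ) ≤ ρ ^ 2 := by nlinarith
        have e5 : 0 < ρ ^ 3 := by positivity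
        nlinarith
      calc 10 * m * r ^ 3 = 10 * (m * r ^ 2) * r := by ring
        _ ≤ _ := mul_le_mul_of_nonneg_right e3 hr0
    have h5 : ρ ^ 5 * r ≤ 6 * m ^ 2 := by
      have : 0 ≤ ρ ^ 5 * r := by positivity
      nlinarith
    rw [le_div_iff₀ (by positivity)]
    -- `r ρ^2 ≤ 6 m^2 / ρ^3 ≤ 6 m / ρ^2`
    have h6 : r * ρ ^ 2 * ρ ^ 3 ≤ 6 * m * ρ := by
      calc r * ρ ^ 2 * ρ ^ 3 = ρ ^ 5 * r := by ring
        _ ≤ 6 * m ^ 2 := h5
        _ = 6 * m * m := by ring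
        _ ≤ 6 * m * ρ := mul_le_mul_of_nonneg_left hM (by positivity)
    have h7 : r * ρ ^ 2 * ρ ^ 3 ≤ 30 * m * ρ ^ 3 := by
      have : ρ ≤ ρ ^ 3 := by nlinarith [mul_pos hρ0 hρ0]
      have e : 6 * m * ρ ≤ 30 * m * ρ ^ 3 := by nlinarith [mul_nonneg hM0 hρ0.le, mul_le_mul_of_nonneg_left this hM0]
      linarith
    exact le_of_mul_le_mul_right h7 (by positivity)
  · push Not at hcase
    have hr1 : 0 < r := by linarith
    have hz0 : z ≠ 0 := by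
      intro h0; rw [hr, h0, norm_zero] at hr1; exact lt_irrefl _ hr1
    -- upper bound
    have hup : r ≤ 2 * ρ := by
      by_contra hcon
      push Not at hcon
      have h1 : z ^ 6 = -(10 * M * z ^ 3 + 12 * X * z + 5 * M ^ 2) := by linear_combination hz
      have h2 : r ^ 6 ≤ 10 * m * r ^ 3 + ρ ^ 5 * r + 5 * m ^ 2 := by
        have e1 : ‖z ^ 6‖ = r ^ 6 := by rw [norm_pow]
        rw [← e1, h1, norm_neg]
        refine (norm_add_le _ _).trans ?_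
        refine add_le_add ((norm_add_le _ _).trans (add_le_add ?_ ?_)) ?_
        · rw [norm_mul, norm_mul, norm_pow, hMc, ← hr]; norm_num
        · rw [norm_mul, hXc]
        · rw [norm_mul, norm_pow, hMc]; norm_num
      have hr2 : (2 * ρ) ^ 2 ≤ r ^ 2 := pow_le_pow_left₀ (by positivity) hcon.le 2
      have hr3 : (2 * ρ) ^ 3 ≤ r ^ 3 := pow_le_pow_left₀ (by positivity) hcon.le 3
      have hr5 : (2 * ρ) ^ 5 ≤ r ^ 5 := pow_le_pow_left₀ (by positivity) hcon.le 5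
      have hr6 : (2 * ρ) ^ 6 ≤ r ^ 6 := pow_le_pow_left₀ (by positivity) hcon.le 6
      have h3 : ρ ^ 5 * r ≤ r ^ 6 / 32 := by
        have : ρ ^ 5 ≤ r ^ 5 / 32 := by nlinarith
        calc ρ ^ 5 * r ≤ r ^ 5 / 32 * r := mul_le_mul_of_nonneg_right this hr0
          _ = _ := by ring
      have h4 : 10 * m * r ^ 3 ≤ r ^ 6 / 32 := by
        have e0 : (100 : ℝ) ≤ ρ ^ 2 := by nlinarith
        have e1 : 10 * m ≤ r ^ 3 / 32 := by nlinarith [mul_le_mul_of_nonneg_right e0 hρ0.le]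
        calc 10 * m * r ^ 3 ≤ r ^ 3 / 32 * r ^ 3 := mul_le_mul_of_nonneg_right e1 (by positivity)
          _ = _ := by ring
      have h5 : 5 * m ^ 2 ≤ r ^ 6 / 32 := by
        have e0 : (100 : ℝ) ≤ ρ ^ 2 := by nlinarith
        have e1 : m ^ 2 ≤ ρ ^ 2 := pow_le_pow_left₀ hM0 hM 2
        have e2 : 10000 * ρ ^ 2 ≤ ρ ^ 6 := by
          have : (10000 : ℝ) ≤ ρ ^ 4 := by nlinarith
          nlinarith [mul_le_mul_of_nonneg_right this (by positivity : 0 ≤ ρ ^ 2)]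
        nlinarith
      have h6 : 0 < r ^ 6 := by positivity
      nlinarith
    have hXR : (12 * (X : ℝ)) ^ 2 = (ρ ^ 5) ^ 2 := by
      rw [hX, mul_pow, mul_pow, sq_abs]
    set s : ℂ := -12 * X / (ρ : ℂ) ^ 5 with hs
    have hρc : (ρ : ℂ) ≠ 0 := by exact_mod_cast hρ0.ne'
    have hs2 : s ^ 2 = 1 := by
      have e : (12 * (X : ℂ)) ^ 2 = ((ρ : ℂ) ^ 5) ^ 2 := by exact_mod_cast congrArg (fun t : ℝ => (t : ℂ)) hXR
      rw [hs, div_pow, div_eq_one_iff_eq (by positivity)]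
      linear_combination e
    have hs0 : s ≠ 0 := by
      intro h0; rw [h0] at hs2; norm_num at hs2
    have hsn : ‖s‖ = 1 := by
      have : ‖s‖ ^ 2 = 1 := by rw [← norm_pow, hs2, norm_one]
      nlinarith [norm_nonneg s]
    set η : ℂ := (-10 * M * z ^ 2 - 5 * M ^ 2 / z) / (s * ρ ^ 5) with hη
    have hz5 : z ^ 5 = s * ρ ^ 5 * (1 + η) := by
      have e1 : s * (ρ : ℂ) ^ 5 = -12 * X := by rw [hs]; field_simp
      have e2 : s * (ρ : ℂ) ^ 5 * (1 + η) = s * ρ ^ 5 + (-10 * M * z ^ 2 - 5 * M ^ 2 / z) := by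
        rw [hη]
        have : s * (ρ : ℂ) ^ 5 ≠ 0 := mul_ne_zero hs0 (pow_ne_zero _ hρc)
        field_simp
      rw [e2, e1]
      have e3 : z * z ^ 5 = z * (-12 * X + (-10 * M * z ^ 2 - 5 * M ^ 2 / z)) := by
        have : z * (5 * M ^ 2 / z) = 5 * (M : ℂ) ^ 2 := by field_simp
        linear_combination hz + this
      exact mul_left_cancel₀ hz0 e3
    have hηn : ‖η‖ ≤ 50 * m / ρ ^ 3 := by
      have e0 : ‖s * (ρ : ℂ) ^ 5‖ = ρ ^ 5 := by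
        rw [norm_mul, hsn, norm_pow, Complex.norm_real, Real.norm_of_nonneg hρ0.le, one_mul]
      rw [hη, norm_div, e0, div_le_div_iff₀ (by positivity) (by positivity)]
      have e1 : ‖-10 * (M : ℂ) * z ^ 2 - 5 * M ^ 2 / z‖ ≤ 10 * m * r ^ 2 + 5 * m ^ 2 / r := by
        refine (norm_sub_le _ _).trans ?_
        refine add_le_add ?_ ?_
        · rw [norm_mul, norm_mul, norm_pow, hMc, ← hr]; norm_num
        · rw [norm_div, norm_mul, norm_pow, hMc, ← hr]; norm_num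
      have e2 : 5 * m ^ 2 / r ≤ 10 * m ^ 2 / ρ := by
        rw [div_le_div_iff₀ hr1 hρ0]
        nlinarith [mul_nonneg (sq_nonneg m) hρ0.le, mul_nonneg (sq_nonneg m) (by linarith : (0:ℝ) ≤ r - ρ / 2)]
      have e3 : 10 * m ^ 2 / ρ ≤ 10 * m := by
        rw [div_le_iff₀ hρ0]
        nlinarith
      have e4 : 10 * m * r ^ 2 ≤ 40 * m * ρ ^ 2 := by
        have : r ^ 2 ≤ (2 * ρ) ^ 2 := pow_le_pow_left₀ hr0 hup 2
        nlinarith
      have e5 : 10 * m ≤ 10 * m * ρ ^ 2 := by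
        have : (1 : ℝ) ≤ ρ ^ 2 := by nlinarith
        nlinarith
      have e6 : ‖-10 * (M : ℂ) * z ^ 2 - 5 * M ^ 2 / z‖ ≤ 50 * m * ρ ^ 2 := by linarith
      calc ‖-10 * (M : ℂ) * z ^ 2 - 5 * M ^ 2 / z‖ * ρ ^ 3 ≤ 50 * m * ρ ^ 2 * ρ ^ 3 :=
            mul_le_mul_of_nonneg_right e6 (by positivity)
        _ = _ := by ring
    have hη2 : ‖η‖ ≤ 1 / 2 := by
      refine hηn.trans ?_
      rw [div_le_div_iff₀ (by positivity) (by norm_num)]
      have : (100 : ℝ) ≤ ρ ^ 2 := by nlinarith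
      nlinarith
    obtain ⟨τ, hτ, hτ1⟩ := fifth_root hη2
    have hτ0 : τ ≠ 0 := by
      intro h0
      rw [h0] at hτ1
      norm_num at hτ1
      linarith
    set a : ℂ := z / (ρ * τ) with ha
    have hzz : z = ρ * a * τ := by rw [ha]; field_simp
    have ha5 : a ^ 5 = s := by
      have e1 : (ρ : ℂ) ^ 5 * τ ^ 5 ≠ 0 := mul_ne_zero (pow_ne_zero _ hρc) (pow_ne_zero _ hτ0)
      rw [ha, div_pow, mul_pow, div_eq_iff e1, hz5, hτ]
      ring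
    have ha10 : a ^ 10 = 1 := by
      calc a ^ 10 = (a ^ 5) ^ 2 := by ring
        _ = 1 := by rw [ha5, hs2]
    have han : ‖a‖ = 1 := by
      have : ‖a‖ ^ 10 = 1 := by rw [← norm_pow, ha10, norm_one]
      exact (pow_eq_one_iff_of_nonneg (norm_nonneg a) (by norm_num)).1 this
    refine ⟨a, Or.inr ha10, ?_⟩
    have hdiff : z - ρ * a = ρ * a * (τ - 1) := by
      conv_lhs => rw [hzz]
      ring
    rw [hdiff, norm_mul, norm_mul, Complex.norm_real, Real.norm_of_nonneg hρ0.le, han, mul_one]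
    rw [le_div_iff₀ (by positivity)]
    have e1 : ‖τ - 1‖ ≤ 3 / 5 * (50 * m / ρ ^ 3) := hτ1.trans (by linarith)
    calc ρ * ‖τ - 1‖ * ρ ^ 2 = ‖τ - 1‖ * ρ ^ 3 := by ring
      _ ≤ 3 / 5 * (50 * m / ρ ^ 3) * ρ ^ 3 := mul_le_mul_of_nonneg_right e1 (by positivity)
      _ = 30 * m := by field_simp; ring

/-- There is a small real root. -/
lemma small_root {M X : ℤ} {ρ : ℝ} (hρ : 10 ≤ ρ) (hX : ρ ^ 5 = 12 * |(X : ℝ)|) (hM : |(M : ℝ)| ≤ ρ) :
    ∃ v : ℝ, v ^ 6 + 10 * M * v ^ 3 + 12 * X * v + 5 * M ^ 2 = 0 ∧ |v| ≤ 12 * (M : ℝ) ^ 2 / ρ ^ 5 := by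
  have hρ0 : 0 < ρ := by linarith
  have hX0 : (X : ℝ) ≠ 0 := by
    intro h0
    rw [h0] at hX
    simp at hX
    linarith
  set f : ℝ → ℝ := fun v => v ^ 6 + 10 * M * v ^ 3 + 12 * X * v + 5 * M ^ 2 with hf
  have hcont : Continuous f := by rw [hf]; fun_prop
  set v₁ : ℝ := -(M : ℝ) ^ 2 / X with hv1
  have habs : |v₁| = 12 * (M : ℝ) ^ 2 / ρ ^ 5 := by
    have hXa : 0 < |(X : ℝ)| := abs_pos.2 hX0
    rw [hv1, abs_div, abs_neg, abs_of_nonneg (sq_nonneg _), hX]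
    field_simp
  have h0 : f 0 = 5 * (M : ℝ) ^ 2 := by rw [hf]; simp
  have hv1le : |v₁| ≤ 1 / 50 := by
    rw [habs, div_le_div_iff₀ (by positivity) (by norm_num)]
    have e1 : (M : ℝ) ^ 2 ≤ ρ ^ 2 := by rw [← sq_abs]; exact pow_le_pow_left₀ (abs_nonneg _) hM 2
    have e2 : (1000 : ℝ) ≤ ρ ^ 3 := by nlinarith [mul_pos hρ0 hρ0]
    have e3 : 1000 * ρ ^ 2 ≤ ρ ^ 5 := by nlinarith [mul_le_mul_of_nonneg_right e2 (by positivity : 0 ≤ ρ ^ 2)]
    nlinarith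
  have h1 : f v₁ ≤ 0 := by
    have e1 : 12 * (X : ℝ) * v₁ = -12 * (M : ℝ) ^ 2 := by rw [hv1]; field_simp
    have hM2 : 0 ≤ (M : ℝ) ^ 2 := sq_nonneg _
    -- `|v₁|^2 ≤ M²/X² * M² `...
    have e2 : |v₁| * ρ ^ 5 = 12 * (M : ℝ) ^ 2 := by rw [habs]; field_simp
    have hv0 : 0 ≤ |v₁| := abs_nonneg _
    have e3 : v₁ ^ 6 ≤ (M : ℝ) ^ 2 := by
      have : v₁ ^ 6 = |v₁| ^ 6 := by rw [← abs_pow, abs_of_nonneg (by positivity)]
      rw [this]
      have e4 : |v₁| ^ 6 ≤ |v₁| := by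
        calc |v₁| ^ 6 = |v₁| * |v₁| ^ 5 := by ring
          _ ≤ |v₁| * 1 := mul_le_mul_of_nonneg_left (pow_le_one₀ hv0 (by linarith)) hv0
          _ = |v₁| := mul_one _
      have e5 : |v₁| ≤ (M : ℝ) ^ 2 := by
        rw [habs, div_le_iff₀ (by positivity)]
        have : (12 : ℝ) ≤ ρ ^ 5 := by
          have : (10 : ℝ) ^ 5 ≤ ρ ^ 5 := pow_le_pow_left₀ (by norm_num) hρ 5
          linarith
        nlinarith
      linarith
    have e6 : 10 * (M : ℝ) * v₁ ^ 3 ≤ (M : ℝ) ^ 2 := by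
      have e7 : 10 * (M : ℝ) * v₁ ^ 3 ≤ 10 * |(M : ℝ)| * |v₁| ^ 3 := by
        refine (le_abs_self _).trans ?_
        rw [abs_mul, abs_mul, abs_pow]; norm_num
      have e8 : |v₁| ^ 3 ≤ |v₁| * (1 / 50) := by
        calc |v₁| ^ 3 = |v₁| * |v₁| ^ 2 := by ring
          _ ≤ |v₁| * (1 / 50) := by
              apply mul_le_mul_of_nonneg_left _ hv0
              nlinarith
      have e9 : |(M : ℝ)| * |v₁| ≤ (M : ℝ) ^ 2 := by
        have : |v₁| * ρ ≤ (M : ℝ) ^ 2 := by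
          rw [habs, div_mul_eq_mul_div, div_le_iff₀ (by positivity)]
          have : 12 * ρ ≤ ρ ^ 5 := by
            have e : (10 : ℝ) ^ 4 ≤ ρ ^ 4 := pow_le_pow_left₀ (by norm_num) hρ 4
            nlinarith
          nlinarith
        calc |(M : ℝ)| * |v₁| ≤ ρ * |v₁| := mul_le_mul_of_nonneg_right hM hv0
          _ ≤ _ := by linarith
      have e10 : 10 * |(M : ℝ)| * |v₁| ^ 3 ≤ 10 * |(M : ℝ)| * (|v₁| * (1 / 50)) :=
        mul_le_mul_of_nonneg_left e8 (by positivity)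
      nlinarith
    show v₁ ^ 6 + 10 * M * v₁ ^ 3 + 12 * X * v₁ + 5 * M ^ 2 ≤ 0
    rw [e1]
    nlinarith
  have h0' : 0 ≤ f 0 := by rw [h0]; positivity
  obtain ⟨v, hv, hfv⟩ : (0 : ℝ) ∈ f '' Set.uIcc v₁ 0 :=
    intermediate_value_uIcc hcont.continuousOn (Set.mem_uIcc.2 (Or.inl ⟨h1, h0'⟩))
  refine ⟨v, hfv, ?_⟩
  rw [← habs]
  have := Set.abs_sub_right_of_mem_uIcc hv
  rcases Set.mem_uIcc.1 hv with ⟨h2, h3⟩ | ⟨h2, h3⟩
  · rw [abs_of_nonpos h3, abs_of_nonpos (h2.trans h3)]; linarith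
  · rw [abs_of_nonneg h2, abs_of_nonneg (h2.trans h3)]; exact h3

end Pool.Agent.H19.QF
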