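import Pool.Agent.H19.QF.Lin
import Pool.Agent.H19.QF.Root
import Pool.Agent.H19.QF.Disc

/-!
# The lower bound for `M` in terms of `X`
-/

namespace Pool.Agent.H19.QF

open NumberField Module IntermediateField

lemma exists_uniform {α : Type*} {S : Set α} (hS : S.Finite) (P : α → ℝ → Prop)
    (hmono : ∀ a C C', C ≤ C' → P a C → P a C') (h : ∀ a ∈ S, ∃ C, 0 < C ∧ P a C) :
    ∃ C, 0 < C ∧ ∀ a ∈ S, P a C := by
  classical
  induction S, hS using Set.Finite.induction_on with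
  | empty => exact ⟨1, one_pos, fun a ha => absurd ha (Set.notMem_empty a)⟩
  | @insert a s ha hs ih =>
    obtain ⟨C₁, hC₁, h1⟩ := ih fun b hb => h b (Set.mem_insert_of_mem _ hb)
    obtain ⟨C₂, hC₂, h2⟩ := h a (Set.mem_insert _ _)
    refine ⟨max C₁ C₂, lt_max_of_lt_left hC₁, fun b hb => ?_⟩
    rcases Set.mem_insert_iff.1 hb with rfl | hb
    · exact hmono _ _ _ (le_max_right _ _) h2
    · exact hmono _ _ _ (le_max_left _ _) (h1 b hb)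

/-- the possible limits of the conjugates -/
def Lim : Set ℂ := {a | a = 0 ∨ a ^ 10 = 1}

lemma lim_finite : Lim.Finite := by
  have : Lim ⊆ {0} ∪ ((Polynomial.nthRoots 10 (1 : ℂ)).toFinset : Set ℂ) := by
    intro a ha
    rcases ha with h | h
    · exact Or.inl h
    · right
      simp [Polynomial.mem_nthRoots, h]
  exact ((Set.finite_singleton 0).union (Finset.finite_toSet _)).subset this

lemma lim_alg {a : ℂ} (h : a ∈ Lim) : IsAlgebraic ℚ a := by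
  rcases h with h | h
  · rw [h]; exact isAlgebraic_zero
  · have : IsAlgebraic ℚ (a ^ 10) := by rw [h]; exact isAlgebraic_one
    exact this.of_pow (by norm_num)

/-- the statement for one field and one limit -/
def Good (L : Type*) [Field L] [NumberField L] (E : ℕ) (a : (L →ₐ[ℚ] ℂ) → ℂ) (C : ℝ) : Prop :=
  (∃ φ, a φ = 0) → (∃ φ, a φ ≠ 0) → ∀ V : L, IsIntegral ℤ V → ∀ ρ η : ℝ, 1 ≤ ρ → 0 ≤ η → η ≤ ρ →
      (∀ φ, ‖φ V - ρ * a φ‖ ≤ η) → 1 ≤ C * (ρ ^ (E + 1) * η ^ E)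

lemma good_mono (L : Type*) [Field L] [NumberField L] (E : ℕ) (a : (L →ₐ[ℚ] ℂ) → ℂ) (C C' : ℝ)
    (h : C ≤ C') (hC : Good L E a C) : Good L E a C' := by
  intro h0 h1 V hV ρ η hρ hη hηρ hap
  have := hC h0 h1 V hV ρ η hρ hη hηρ hap
  have hnn : 0 ≤ ρ ^ (E + 1) * η ^ E := by positivity
  nlinarith

lemma key_field (L : Type*) [Field L] [NumberField L] (E : ℕ) (hE : E ≠ 0) :
    ∃ C : ℝ, 0 < C ∧ ∀ a ∈ {a : (L →ₐ[ℚ] ℂ) → ℂ | ∀ φ, a φ ∈ Lim}, Good L E a C := by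
  refine exists_uniform (Set.Finite.pi' fun _ => lim_finite) _ (good_mono L E) ?_
  intro a ha
  by_cases h0 : ∃ φ, a φ = 0
  · by_cases h1 : ∃ φ, a φ ≠ 0
    · obtain ⟨C, hC, h⟩ := key L a (fun φ => lim_alg (ha φ)) h0 h1 E hE
      exact ⟨C, hC, fun _ _ => h⟩
    · exact ⟨1, one_pos, fun _ h => absurd h h1⟩
  · exact ⟨1, one_pos, fun h => absurd h h0⟩

/-- a number field from a finite-dimensional intermediate field -/
lemma nf (K : { F : IntermediateField ℚ ℂ // FiniteDimensional ℚ F}) : NumberField K :=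
  @NumberField.mk _ _ inferInstance K.prop

lemma key_all (N : ℕ) (E : ℕ) (hE : E ≠ 0) :
    ∃ C : ℝ, 0 < C ∧ ∀ K ∈ {K : { F : IntermediateField ℚ ℂ // FiniteDimensional ℚ F} |
      haveI :  NumberField K := @NumberField.mk _ _ inferInstance K.prop
      |discr K| ≤ N},
      haveI :  NumberField K := @NumberField.mk _ _ inferInstance K.prop
      ∀ a ∈ {a : (K →ₐ[ℚ] ℂ) → ℂ | ∀ φ, a φ ∈ Lim}, Good K E a C := by
  refine exists_uniform (NumberField.finite_of_discr_bdd ℂ N) _ ?_ ?_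
  · intro K C C' h h1 a ha
    haveI :  NumberField K := @NumberField.mk _ _ inferInstance K.prop
    exact good_mono K E a C C' h (h1 a ha)
  · intro K _
    haveI :  NumberField K := @NumberField.mk _ _ inferInstance K.prop
    exact key_field K E hE

/-- The conjugates of a root. -/
lemma conjugates {L : Type*} [Field L] [NumberField L] {M X : ℤ} {ρ : ℝ} (hρ : 10 ≤ ρ)
    (hX : ρ ^ 5 = 12 * |(X : ℝ)|) (hM : |(M : ℝ)| ≤ ρ) (hM60 : 60 * |(M : ℝ)| < ρ ^ 2) (hM0 : M ≠ 0)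
    (V : L) (hVroot : V ^ 6 + 10 * M * V ^ 3 + 12 * X * V + 5 * M ^ 2 = 0) (φ₀ : L →ₐ[ℚ] ℂ)
    (hsmall : ‖φ₀ V‖ ≤ 12 * (M : ℝ) ^ 2 / ρ ^ 5) :
    IsIntegral ℤ V ∧ (finrank ℚ L ≤ 5 → ρ ≤ 192 * (M : ℝ) ^ 2) ∧
    ∃ a : (L →ₐ[ℚ] ℂ) → ℂ, (∀ φ, a φ ∈ Lim) ∧ (∃ φ, a φ = 0) ∧ (∃ φ, a φ ≠ 0) ∧
      ∀ φ, ‖φ V - ρ * a φ‖ ≤ 30 * |(M : ℝ)| / ρ ^ 2 := by
  have hρ0 : 0 < ρ := by linarith
  have hVint : IsIntegral ℤ V := by
    refine ⟨sx (10 * M) (12 * X) (5 * M ^ 2), sx_monic _ _ _, ?_⟩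
    rw [← Polynomial.aeval_def, sx_aeval, ← hVroot]
    simp
  have hV0 : V ≠ 0 := by
    intro h0
    rw [h0] at hVroot
    apply hM0
    have : (5 : L) * (M : L) ^ 2 = 0 := by simpa using hVroot
    have h2 : (M : L) ^ 2 = 0 := by
      rcases mul_eq_zero.1 this with h | h
      · norm_num at h
      · exact h
    exact_mod_cast pow_eq_zero_iff (two_ne_zero) |>.1 h2
  -- the conjugates are roots
  have hconj : ∀ φ : L →ₐ[ℚ] ℂ, (φ V) ^ 6 + 10 * M * (φ V) ^ 3 + 12 * X * (φ V) + 5 * M ^ 2 = 0 := by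
    intro φ
    have := congrArg φ hVroot
    have e10 : φ 10 = 10 := map_ofNat φ 10
    have e12 : φ 12 = 12 := map_ofNat φ 12
    have e5 : φ 5 = 5 := map_ofNat φ 5
    simpa [e10, e12, e5] using this
  set η : ℝ := 30 * |(M : ℝ)| / ρ ^ 2 with hη
  have hη0 : 0 ≤ η := by positivity
  have hηhalf : η < 1 / 2 := by
    rw [hη, div_lt_div_iff₀ (by positivity) (by norm_num)]
    linarith
  choose a ha using fun φ : L →ₐ[ℚ] ℂ => root_loc hρ hX hM (hconj φ)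
  have hnorm : ∀ φ : L →ₐ[ℚ] ℂ, ‖φ V‖ ≤ 2 * ρ := by
    intro φ
    have h1 : ‖a φ‖ ≤ 1 := by
      rcases (ha φ).1 with h | h
      · rw [h]; simp
      · have : ‖a φ‖ ^ 10 = 1 := by rw [← norm_pow, h, norm_one]
        exact ((pow_eq_one_iff_of_nonneg (norm_nonneg _) (by norm_num)).1 this).le
    have h2 : φ V = (φ V - ρ * a φ) + ρ * a φ := by ring
    rw [h2]
    refine (norm_add_le _ _).trans ?_
    rw [norm_mul, Complex.norm_real, Real.norm_of_nonneg hρ0.le]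
    nlinarith [(ha φ).2]
  -- the norm
  have hN1 : 1 ≤ ∏ φ : L →ₐ[ℚ] ℂ, ‖φ V‖ := by
    rw [← norm_prod, ← Algebra.norm_eq_prod_embeddings ℚ ℂ V]
    have h1 : IsIntegral ℤ (Algebra.norm ℚ V) := Algebra.isIntegral_norm ℚ hVint
    obtain ⟨z, hz⟩ := IsIntegrallyClosed.isIntegral_iff.1 h1
    have hz0 : z ≠ 0 := by
      intro h0
      rw [h0, map_zero] at hz
      exact hV0 (Algebra.norm_eq_zero_iff.1 hz.symm)
    rw [← hz]
    have h2 : (algebraMap ℚ ℂ) (algebraMap ℤ ℚ z) = (z : ℂ) := by simp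
    rw [h2, Complex.norm_intCast]
    have := Int.one_le_abs hz0
    exact_mod_cast this
  have hcard : Fintype.card (L →ₐ[ℚ] ℂ) = finrank ℚ L := AlgHom.card ℚ L ℂ
  refine ⟨hVint, ?_, a, fun φ => (ha φ).1, ?_, ?_, fun φ => (ha φ).2⟩
  · intro hlt
    classical
    have h1 : ∏ φ : L →ₐ[ℚ] ℂ, ‖φ V‖ ≤ ‖φ₀ V‖ * (2 * ρ) ^ 4 := by
      rw [← Finset.mul_prod_erase Finset.univ (fun φ : L →ₐ[ℚ] ℂ => ‖φ V‖) (Finset.mem_univ φ₀)]
      apply mul_le_mul_of_nonneg_left _ (norm_nonneg _)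
      have e2 : ∏ φ ∈ Finset.univ.erase φ₀, ‖φ V‖ ≤ ∏ φ ∈ Finset.univ.erase φ₀, (2 * ρ) :=
        Finset.prod_le_prod (fun _ _ => norm_nonneg _) fun φ _ => hnorm φ
      rw [Finset.prod_const] at e2
      refine e2.trans ?_
      apply pow_le_pow_right₀ (by linarith)
      rw [Finset.card_erase_of_mem (Finset.mem_univ _), Finset.card_univ, hcard]
      omega
    have h2 : 1 ≤ 12 * (M : ℝ) ^ 2 / ρ ^ 5 * (2 * ρ) ^ 4 := by
      refine (hN1.trans h1).trans ?_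
      exact mul_le_mul_of_nonneg_right hsmall (by positivity)
    have h3 : 12 * (M : ℝ) ^ 2 / ρ ^ 5 * (2 * ρ) ^ 4 = 192 * (M : ℝ) ^ 2 / ρ := by
      field_simp
      ring
    rw [h3, le_div_iff₀ hρ0] at h2
    linarith
  · refine ⟨φ₀, ?_⟩
    by_contra hne
    rcases (ha φ₀).1 with h | h
    · exact hne h
    · have hn1 : ‖a φ₀‖ = 1 := by
        have : ‖a φ₀‖ ^ 10 = 1 := by rw [← norm_pow, h, norm_one]
        exact (pow_eq_one_iff_of_nonneg (norm_nonneg _) (by norm_num)).1 this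
      have e2 : ρ ≤ ‖φ₀ V‖ + η := by
        calc ρ = ‖(ρ : ℂ) * a φ₀‖ := by
              rw [norm_mul, hn1, Complex.norm_real, Real.norm_of_nonneg hρ0.le, mul_one]
          _ = ‖φ₀ V - (φ₀ V - ρ * a φ₀)‖ := by congr 1; ring
          _ ≤ ‖φ₀ V‖ + ‖φ₀ V - ρ * a φ₀‖ := norm_sub_le _ _
          _ ≤ ‖φ₀ V‖ + η := by linarith [(ha φ₀).2]
      have e3 : 12 * (M : ℝ) ^ 2 / ρ ^ 5 ≤ 1 := by
        rw [div_le_one (by positivity)]
        have f1 : (M : ℝ) ^ 2 ≤ ρ ^ 2 := by rw [← sq_abs]; exact pow_le_pow_left₀ (abs_nonneg _) hM 2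
        have f2 : 12 * ρ ^ 2 ≤ ρ ^ 5 := by
          have : (10 : ℝ) ^ 3 ≤ ρ ^ 3 := pow_le_pow_left₀ (by norm_num) hρ 3
          nlinarith [mul_le_mul_of_nonneg_right this (by positivity : 0 ≤ ρ ^ 2)]
        linarith
      linarith
  · by_contra hcon
    push Not at hcon
    have e1 : ∀ φ : L →ₐ[ℚ] ℂ, ‖φ V‖ ≤ 1 / 2 := by
      intro φ
      have := (ha φ).2
      rw [hcon φ, mul_zero, sub_zero] at this
      linarith
    have e2 : ∏ φ : L →ₐ[ℚ] ℂ, ‖φ V‖ ≤ ∏ φ : L →ₐ[ℚ] ℂ, (1 / 2 : ℝ) :=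
      Finset.prod_le_prod (fun _ _ => norm_nonneg _) fun φ _ => e1 φ
    rw [Finset.prod_const, Finset.card_univ, hcard] at e2
    have e3 : ((1 : ℝ) / 2) ^ (finrank ℚ L) < 1 :=
      pow_lt_one₀ (by norm_num) (by norm_num) (finrank_pos (R := ℚ) (M := L)).ne'
    linarith

/-- **Main lower bound.** -/
theorem core (N E : ℕ) (hE : E ≠ 0) : ∃ C : ℝ, 0 < C ∧ ∀ (M X : ℤ) (ρ : ℝ), 10 ≤ ρ →
    ρ ^ 5 = 12 * |(X : ℝ)| → |(M : ℝ)| ≤ ρ → 60 * |(M : ℝ)| < ρ ^ 2 → M ≠ 0 →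
    (∀ (L : Type) [Field L] [NumberField L] (pb : PowerBasis ℚ L), pb.dim = 6 →
      pb.gen ^ 6 + 10 * M * pb.gen ^ 3 + 12 * X * pb.gen + 5 * M ^ 2 = 0 → |discr L| ≤ N) →
    (∃ v : ℂ, v ^ 6 + 10 * M * v ^ 3 + 12 * X * v + 5 * M ^ 2 = 0 ∧ (minpoly ℚ v).natDegree ≤ 5 ∧
      ρ ≤ 192 * (M : ℝ) ^ 2) ∨
    ρ ^ (E - 1) ≤ C * |(M : ℝ)| ^ E := by
  obtain ⟨C, hC, hkey⟩ := key_all N E hE
  refine ⟨C * 30 ^ E, by positivity, ?_⟩
  intro M X ρ hρ hX hM hM60 hM0 hdisc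
  have hρ0 : 0 < ρ := by linarith
  obtain ⟨v₀, hv₀, hv₀s⟩ := small_root hρ hX hM
  set v : ℂ := (v₀ : ℂ) with hv
  have hvroot : v ^ 6 + 10 * M * v ^ 3 + 12 * X * v + 5 * M ^ 2 = 0 := by
    rw [hv]; exact_mod_cast congrArg (fun t : ℝ => (t : ℂ)) hv₀
  have hvZ : IsIntegral ℤ v := by
    refine ⟨sx (10 * M) (12 * X) (5 * M ^ 2), sx_monic _ _ _, ?_⟩
    rw [← Polynomial.aeval_def, sx_aeval, ← hvroot]
    simp
  have hvint : IsIntegral ℚ v := hvZ.tower_top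
  have hfd : FiniteDimensional ℚ ℚ⟮v⟯ := adjoin.finiteDimensional hvint
  have hnf : NumberField ℚ⟮v⟯ := @NumberField.mk _ _ inferInstance hfd
  have hdeg6 : (minpoly ℚ v).natDegree ≤ 6 := by
    have h1 : minpoly ℚ v ∣ sx (10 * (M : ℚ)) (12 * (X : ℚ)) (5 * (M : ℚ) ^ 2) := by
      apply minpoly.dvd
      rw [sx_aeval, ← hvroot]
      simp
    have h2 := Polynomial.natDegree_le_of_dvd h1 (sx_monic _ _ _).ne_zero
    rwa [sx_natDegree] at h2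
  have hVroot : (AdjoinSimple.gen ℚ v) ^ 6 + 10 * M * (AdjoinSimple.gen ℚ v) ^ 3 +
      12 * X * (AdjoinSimple.gen ℚ v) + 5 * M ^ 2 = 0 := by
    apply Subtype.ext
    push_cast
    rw [AdjoinSimple.coe_gen]
    exact hvroot
  have hsmall : ‖((ℚ⟮v⟯.val : ℚ⟮v⟯ →+* ℂ).toRatAlgHom) (AdjoinSimple.gen ℚ v)‖ ≤ 12 * (M : ℝ) ^ 2 / ρ ^ 5 := by
    have e1 : ((ℚ⟮v⟯.val : ℚ⟮v⟯ →+* ℂ).toRatAlgHom) (AdjoinSimple.gen ℚ v) = v := AdjoinSimple.coe_gen ℚ v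
    rw [e1, hv, Complex.norm_real, Real.norm_eq_abs]; exact hv₀s
  obtain ⟨hVint, hle5, a, haL, h0, h1, hap⟩ := conjugates hρ hX hM hM60 hM0 (AdjoinSimple.gen ℚ v) hVroot
    ((ℚ⟮v⟯.val : ℚ⟮v⟯ →+* ℂ).toRatAlgHom) hsmall
  have hfin : finrank ℚ ℚ⟮v⟯ = (minpoly ℚ v).natDegree := adjoin.finrank hvint
  rcases Nat.lt_or_ge (minpoly ℚ v).natDegree 6 with hlt | hge
  · left
    refine ⟨v, hvroot, by omega, hle5 ?_⟩
    convert (by omega : (minpoly ℚ v).natDegree ≤ 5) using 1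
  · right
    set η : ℝ := 30 * |(M : ℝ)| / ρ ^ 2 with hη
    have hη0 : 0 ≤ η := by positivity
    have hηhalf : η < 1 / 2 := by
      rw [hη, div_lt_div_iff₀ (by positivity) (by norm_num)]
      linarith
    have hdN : |discr ℚ⟮v⟯| ≤ N := by
      have hdim : (adjoin.powerBasis hvint).dim = 6 := by
        rw [adjoin.powerBasis_dim hvint]; omega
      have hroot' : (adjoin.powerBasis hvint).gen ^ 6 + 10 * M * (adjoin.powerBasis hvint).gen ^ 3 +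
          12 * X * (adjoin.powerBasis hvint).gen + 5 * M ^ 2 = 0 := by
        rw [adjoin.powerBasis_gen hvint]; exact hVroot
      exact hdisc ℚ⟮v⟯ (adjoin.powerBasis hvint) hdim hroot'
    have hgood := hkey ⟨ℚ⟮v⟯, hfd⟩ hdN a haL
    have h2 := hgood h0 h1 _ hVint ρ η (by linarith) hη0 (by linarith) hap
    -- `1 ≤ C ρ^(E+1) (30 |M|/ρ²)^E`
    have h3 : ρ ^ (E + 1) * η ^ E = 30 ^ E * |(M : ℝ)| ^ E * ρ ^ (E + 1) / ρ ^ (2 * E) := by
      rw [hη, div_pow, mul_pow, ← pow_mul]; ring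
    rw [h3] at h2
    have h4 : ρ ^ (2 * E) = ρ ^ (E + 1) * ρ ^ (E - 1) := by
      rw [← pow_add]; congr 1; omega
    rw [h4] at h2
    have h5 : 30 ^ E * |(M : ℝ)| ^ E * ρ ^ (E + 1) / (ρ ^ (E + 1) * ρ ^ (E - 1)) = 30 ^ E * |(M : ℝ)| ^ E / ρ ^ (E - 1) := by
      field_simp
    rw [h5, ← mul_div_assoc, le_div_iff₀ (by positivity)] at h2
    linarith

end Pool.Agent.H19.QF
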