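import Pool.Agent.H19.QF.Local

/-!
# Integral points with an unramified subgroup of order five
-/

namespace Pool.Agent.H19.QF

open NumberField IsDedekindDomain WithZero

lemma decomp {p : ℕ} (hp : p.Prime) {n : ℤ} (hn : n ≠ 0) :
    ∃ (a : ℕ) (n₁ : ℤ), n = (p : ℤ) ^ a * n₁ ∧ ¬ (p : ℤ) ∣ n₁ := by
  obtain ⟨n₁, h1, h2⟩ := (Int.finiteMultiplicity_iff.2 ⟨by simpa using hp.ne_one, hn⟩ :
    FiniteMultiplicity (p : ℤ) n).exists_eq_pow_mul_and_not_dvd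
  exact ⟨_, n₁, h1, h2⟩

variable {L : Type*} [Field L] [NumberField L]

lemma val_k1t (pb : PowerBasis ℚ L) {x k k₁ : ℤ} {p e : ℕ}
    (hroot : (k : L) * (pb.gen ^ 2 + 10 * pb.gen + 5) ^ 3 + 1728 * x ^ 3 * pb.gen = 0)
    (hk : k = (p : ℤ) ^ e * k₁) (v : HeightOneSpectrum (𝓞 L)) (hv : ((p : ℤ) : 𝓞 L) ∉ v.asIdeal) :
    v.valuation L (k₁ * pb.gen) ≤ 1 := by
  have h3 : v.valuation L ((p : ℤ) : L) = 1 := by
    refine le_antisymm (val_int_le_one v p) ?_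
    by_contra hcon
    push Not at hcon
    exact hv ((val_int_lt_one_iff v p).1 hcon)
  have h1 := val_kt pb hroot v
  have h2 : (k : L) * pb.gen = ((p : ℤ) : L) ^ e * (k₁ * pb.gen) := by rw [hk]; push_cast; ring
  rw [h2, map_mul, map_pow, h3, one_pow, one_mul] at h1
  exact h1

theorem local_structure (pb : PowerBasis ℚ L) (hdim : pb.dim = 6)
    {p : ℕ} (hp : p.Prime) (hp30 : ¬ p ∣ 30) (hd : ¬ (p : ℤ) ∣ discr L) {x y k : ℤ} (hk0 : k ≠ 0)
    (heq : y ^ 2 = x ^ 3 + k)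
    (hroot : (k : L) * (pb.gen ^ 2 + 10 * pb.gen + 5) ^ 3 + 1728 * x ^ 3 * pb.gen = 0)
    (hmin : ¬ ((p : ℤ) ^ 2 ∣ x ∧ (p : ℤ) ^ 3 ∣ y)) :
    ¬ ((p : ℤ) ∣ x ∧ (p : ℤ) ∣ y) ∧
      ∀ (e : ℕ) (k₁ : ℤ), k = (p : ℤ) ^ e * k₁ → ¬ (p : ℤ) ∣ k₁ → 5 ∣ e := by
  have hpZ : Prime (p : ℤ) := Nat.prime_iff_prime_int.1 hp
  have hp0 : (p : ℤ) ≠ 0 := hpZ.ne_zero
  obtain ⟨htr1, htr2⟩ := root_traces pb hdim hk0 hroot
  have hne := quad_ne_zero pb hdim
  have ht0 : pb.gen ≠ 0 := by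
    intro h
    apply hne 0 0
    rw [h]; simp
  have hA0 : pb.gen ^ 2 + 22 * pb.gen + 125 ≠ 0 := by have := hne 22 125; push_cast at this; exact this
  have hθ0 : pb.gen ^ 2 + 10 * pb.gen + 5 ≠ 0 := by have := hne 10 5; push_cast at this; exact this
  have hB0 : pb.gen ^ 2 + 4 * pb.gen - 1 ≠ 0 := by
    have := hne 4 (-1); push_cast at this
    intro h; apply this; rw [← h]; ring
  have hkL : (k : L) ≠ 0 := by exact_mod_cast hk0
  have hx0 : x ≠ 0 := by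
    rintro rfl
    rw [Int.cast_zero] at hroot
    have : (k : L) * (pb.gen ^ 2 + 10 * pb.gen + 5) ^ 3 = 0 := by rw [← hroot]; ring
    rcases mul_eq_zero.1 this with h | h
    · exact hkL h
    · exact hθ0 (pow_eq_zero_iff (by norm_num) |>.1 h)
  have hy0 : y ≠ 0 := by
    rintro rfl
    have hyy : (k : L) * ((pb.gen ^ 2 + 22 * pb.gen + 125) * (pb.gen ^ 2 + 4 * pb.gen - 1) ^ 2) = 0 := by
      have h1 : (0 : L) = x ^ 3 + k := by
        have : (0 : ℤ) = x ^ 3 + k := by rw [← heq]; ring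
        exact_mod_cast this
      linear_combination hroot + 1728 * pb.gen * h1
    exact (mul_ne_zero hkL (mul_ne_zero hA0 (pow_ne_zero _ hB0))) hyy
  obtain ⟨α, x₁, hx, hx₁⟩ := decomp hp hx0
  obtain ⟨β, y₁, hy, hy₁⟩ := decomp hp hy0
  have h30 : ∀ n : ℕ, n ∣ 30 ^ 6 → ¬ (p : ℤ) ∣ n := by
    intro n hn h
    have h1 : p ∣ n := by exact_mod_cast h
    exact hp30 (hp.dvd_of_dvd_pow (h1.trans hn))
  -- the contradiction from `A`
  have contraA : ∀ (e : ℕ) (k₁ : ℤ), k = (p : ℤ) ^ e * k₁ → ¬ (p : ℤ) ∣ k₁ →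
      ¬ ∀ v : HeightOneSpectrum (𝓞 L), ((p : ℤ) : 𝓞 L) ∈ v.asIdeal →
        0 < o v (pb.gen ^ 2 + 22 * pb.gen + 125) := by
    intro e k₁ hk hk₁ hall
    have h1 : (p : ℤ) ∣ 360 := by
      refine trace_contra hp hd hA0 (s := k₁ ^ 2) (fun h => hk₁ (hpZ.dvd_of_dvd_pow h)) ?_ hall ?_
      · rw [map_add, map_add, htr2]
        have e1 : (22 : L) * pb.gen = (22 : ℚ) • pb.gen := by rw [Rat.smul_def]; norm_num
        have e2 : (125 : L) = algebraMap ℚ L 125 := by simp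
        have hfin : Module.finrank ℚ L = 6 := by rw [pb.finrank, hdim]
        rw [e1, map_smul, htr1, e2, Algebra.trace_algebraMap, hfin]
        norm_num
      · intro v hv
        have h2 := val_k1t pb hroot hk v hv
        have h3 : (((k₁ ^ 2 : ℤ) : ℤ) : L) * (pb.gen ^ 2 + 22 * pb.gen + 125) =
            (k₁ * pb.gen) ^ 2 + ((22 * k₁ : ℤ) : L) * (k₁ * pb.gen) + ((125 * k₁ ^ 2 : ℤ) : L) := by
          push_cast; ring
        rw [h3]
        exact quad_le v _ _ h2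
    exact h30 360 (by norm_num) (by exact_mod_cast h1)
  have contraT : ∀ (e : ℕ) (k₁ : ℤ), k = (p : ℤ) ^ e * k₁ → ¬ (p : ℤ) ∣ k₁ →
      ¬ ∀ v : HeightOneSpectrum (𝓞 L), ((p : ℤ) : 𝓞 L) ∈ v.asIdeal → 0 < o v pb.gen := by
    intro e k₁ hk hk₁ hall
    have h1 : (p : ℤ) ∣ -30 := by
      refine trace_contra hp hd ht0 (s := k₁) hk₁ ?_ hall ?_
      · rw [htr1]; norm_num
      · intro v hv
        exact val_k1t pb hroot hk v hv
    have h2 : (p : ℤ) ∣ 30 := by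
      have := (dvd_neg (a := (p : ℤ)) (b := 30)).1 h1
      exact this
    exact h30 30 (by norm_num) (by exact_mod_cast h2)
  have part1 : ¬ ((p : ℤ) ∣ x ∧ (p : ℤ) ∣ y) := by
    rintro ⟨hpx, hpy⟩
    have hα : 1 ≤ α := by
      by_contra hcon
      have : α = 0 := by omega
      rw [this, pow_zero, one_mul] at hx
      rw [hx] at hpx
      exact hx₁ hpx
    have hβ : 1 ≤ β := by
      by_contra hcon
      have : β = 0 := by omega
      rw [this, pow_zero, one_mul] at hy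
      rw [hy] at hpy
      exact hy₁ hpy
    have hmin' : ¬ (2 ≤ α ∧ 3 ≤ β) := by
      rintro ⟨h1, h2⟩
      apply hmin
      constructor
      · rw [hx]; exact dvd_mul_of_dvd_left (pow_dvd_pow _ h1) _
      · rw [hy]; exact dvd_mul_of_dvd_left (pow_dvd_pow _ h2) _
    have hkxy : k = ((p : ℤ) ^ β * y₁) ^ 2 - ((p : ℤ) ^ α * x₁) ^ 3 := by
      rw [← hx, ← hy, heq]; ring
    -- the four cases
    have hcases : ∃ (e : ℕ) (k₁ : ℤ), k = (p : ℤ) ^ e * k₁ ∧ ¬ (p : ℤ) ∣ k₁ ∧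
        ((e = 2) ∨ (e = 4 ∧ 2 ≤ α) ∨ (e = 3 ∧ α = 1 ∧ 2 ≤ β)) := by
      have hy₁2 : ¬ (p : ℤ) ∣ y₁ ^ 2 := fun h => hy₁ (hpZ.dvd_of_dvd_pow h)
      have hx₁3 : ¬ (p : ℤ) ∣ x₁ ^ 3 := fun h => hx₁ (hpZ.dvd_of_dvd_pow h)
      by_cases hβ1 : β = 1
      · refine ⟨2, y₁ ^ 2 - (p : ℤ) ^ (3 * α - 2) * x₁ ^ 3, ?_, ?_, Or.inl rfl⟩
        · have : (p : ℤ) ^ (3 * α) = (p : ℤ) ^ 2 * (p : ℤ) ^ (3 * α - 2) := by rw [← pow_add]; congr 1; omega
          rw [hkxy, hβ1, mul_pow, mul_pow, ← pow_mul (p : ℤ) α 3, mul_comm α 3, this]; ring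
        · intro h
          apply hy₁2
          have h2 : (p : ℤ) ∣ (p : ℤ) ^ (3 * α - 2) * x₁ ^ 3 :=
            dvd_mul_of_dvd_left (dvd_pow_self _ (by omega)) _
          have := dvd_add h h2
          simpa using this
      · by_cases hα1 : α = 1
        · refine ⟨3, (p : ℤ) ^ (2 * β - 3) * y₁ ^ 2 - x₁ ^ 3, ?_, ?_, Or.inr (Or.inr ⟨rfl, hα1, by omega⟩)⟩
          · have : (p : ℤ) ^ (2 * β) = (p : ℤ) ^ 3 * (p : ℤ) ^ (2 * β - 3) := by rw [← pow_add]; congr 1; omega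
            rw [hkxy, hα1, mul_pow, mul_pow, ← pow_mul (p : ℤ) β 2, mul_comm β 2, this]; ring
          · intro h
            apply hx₁3
            have h2 : (p : ℤ) ∣ (p : ℤ) ^ (2 * β - 3) * y₁ ^ 2 :=
              dvd_mul_of_dvd_left (dvd_pow_self _ (by omega)) _
            have := dvd_sub h2 h
            simpa using this
        · have hβ2 : β = 2 := by omega
          refine ⟨4, y₁ ^ 2 - (p : ℤ) ^ (3 * α - 4) * x₁ ^ 3, ?_, ?_, Or.inr (Or.inl ⟨rfl, by omega⟩)⟩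
          · have : (p : ℤ) ^ (3 * α) = (p : ℤ) ^ 4 * (p : ℤ) ^ (3 * α - 4) := by rw [← pow_add]; congr 1; omega
            rw [hkxy, hβ2, mul_pow, mul_pow, ← pow_mul (p : ℤ) α 3, mul_comm α 3, this]; ring
          · intro h
            apply hy₁2
            have h2 : (p : ℤ) ∣ (p : ℤ) ^ (3 * α - 4) * x₁ ^ 3 :=
              dvd_mul_of_dvd_left (dvd_pow_self _ (by omega)) _
            have := dvd_add h h2
            simpa using this
    obtain ⟨e, k₁, hk, hk₁, hc⟩ := hcases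
    apply contraA e k₁ hk hk₁
    intro v hv
    obtain ⟨τ, c, a, b, -, ha, h1, h2, h3, h4, h5⟩ :=
      relations pb hdim hk0 heq hroot hp hp30 hd v hv hk hk₁ hx hx₁ hy hy₁
    rw [← ha]
    rcases lt_trichotomy τ 0 with hτ | hτ | hτ
    · have := h3 hτ
      rcases hc with hc | ⟨hc, hc'⟩ | ⟨hc, hc', hc''⟩ <;> omega
    · have := h5 (by omega)
      rcases hc with hc | ⟨hc, hc'⟩ | ⟨hc, hc', hc''⟩ <;> omega
    · have := h4 hτ
      rcases hc with hc | ⟨hc, hc'⟩ | ⟨hc, hc', hc''⟩ <;> omega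
  refine ⟨part1, fun e k₁ hk hk₁ => ?_⟩
  by_contra h5
  have he : 1 ≤ e := by
    by_contra hcon
    have : e = 0 := by omega
    exact h5 (by rw [this]; exact dvd_zero _)
  have hpk : (p : ℤ) ∣ k := by rw [hk]; exact dvd_mul_of_dvd_left (dvd_pow_self _ (by omega)) _
  have hα : α = 0 := by
    by_contra hcon
    have hpx : (p : ℤ) ∣ x := by rw [hx]; exact dvd_mul_of_dvd_left (dvd_pow_self _ hcon) _
    apply part1
    refine ⟨hpx, hpZ.dvd_of_dvd_pow (n := 2) ?_⟩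
    rw [heq]
    exact dvd_add (dvd_pow hpx (by norm_num)) hpk
  apply contraT e k₁ hk hk₁
  intro v hv
  obtain ⟨τ, c, a, b, hτ', -, h1, h2, h3, h4, h6⟩ :=
    relations pb hdim hk0 heq hroot hp hp30 hd v hv hk hk₁ hx hx₁ hy hy₁
  rw [← hτ']
  rcases lt_trichotomy τ 0 with hτ | hτ | hτ
  · have := h3 hτ
    exfalso
    apply h5
    omega
  · have := h6 (by omega)
    omega
  · exact hτ

end Pool.Agent.H19.QF
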