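import Mathlib

/-!
# Valuations of a number field at unramified primes, and traces in a sextic field
-/

namespace Pool.Agent.H19.QF

open NumberField IsDedekindDomain WithZero

section val

variable {L : Type*} [Field L] [NumberField L] (v : HeightOneSpectrum (𝓞 L))

/-- the additive valuation -/
noncomputable def o (x : L) : ℤ := -WithZero.log (v.valuation L x)

lemma val_ne_zero {x : L} (hx : x ≠ 0) : v.valuation L x ≠ 0 := (Valuation.ne_zero_iff _).2 hx

lemma o_mul {x y : L} (hx : x ≠ 0) (hy : y ≠ 0) : o v (x * y) = o v x + o v y := by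
  unfold o
  rw [map_mul, log_mul (val_ne_zero v hx) (val_ne_zero v hy)]; ring

lemma o_pow (x : L) (n : ℕ) : o v (x ^ n) = n * o v x := by
  unfold o
  rw [map_pow, log_pow]; simp

lemma o_neg (x : L) : o v (-x) = o v x := by
  unfold o
  rw [Valuation.map_neg]

lemma o_of_val_one {x : L} (h : v.valuation L x = 1) : o v x = 0 := by
  unfold o; rw [h]; simp

lemma o_nonneg_iff {x : L} (hx : x ≠ 0) : 0 ≤ o v x ↔ v.valuation L x ≤ 1 := by
  unfold o
  rw [Left.nonneg_neg_iff, ← log_one, log_le_log (val_ne_zero v hx) one_ne_zero]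

lemma o_pos_iff {x : L} (hx : x ≠ 0) : 0 < o v x ↔ v.valuation L x < 1 := by
  unfold o
  rw [Left.neg_pos_iff, ← log_one, log_lt_log (val_ne_zero v hx) one_ne_zero]

lemma val_int_le_one (n : ℤ) : v.valuation L (n : L) ≤ 1 := by
  have := v.valuation_le_one (K := L) (n : 𝓞 L)
  simpa using this

lemma val_int_lt_one_iff (n : ℤ) : v.valuation L (n : L) < 1 ↔ (n : 𝓞 L) ∈ v.asIdeal := by
  have := v.valuation_lt_one_iff_mem (K := L) (n : 𝓞 L)
  simpa using this

/-- an integer prime to the residue characteristic is a unit -/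
lemma val_int_coprime {p : ℤ} (hp : (p : 𝓞 L) ∈ v.asIdeal) {n : ℤ} (h : IsCoprime p n) :
    v.valuation L (n : L) = 1 := by
  refine le_antisymm (val_int_le_one v n) ?_
  by_contra hcon
  push Not at hcon
  rw [val_int_lt_one_iff] at hcon
  obtain ⟨a, b, hab⟩ := h
  have h1 : (1 : 𝓞 L) ∈ v.asIdeal := by
    have : (1 : 𝓞 L) = (a : 𝓞 L) * p + b * n := by
      have := congrArg (fun z : ℤ => (z : 𝓞 L)) hab
      push_cast at this
      exact this.symm
    rw [this]
    exact v.asIdeal.add_mem (v.asIdeal.mul_mem_left _ hp) (v.asIdeal.mul_mem_left _ hcon)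
  exact v.isPrime.ne_top ((Ideal.eq_top_iff_one _).2 h1)

/-- the valuation of an unramified prime -/
lemma o_prime {p : ℕ} (hp : p.Prime) (hpv : ((p : ℤ) : 𝓞 L) ∈ v.asIdeal) (hd : ¬ (p : ℤ) ∣ discr L) :
    o v ((p : ℤ) : L) = 1 := by
  have hpZ : Prime (p : ℤ) := Nat.prime_iff_prime_int.1 hp
  have hp0 : ((p : ℤ) : 𝓞 L) ≠ 0 := by exact_mod_cast hp.ne_zero
  have hpL : ((p : ℤ) : L) ≠ 0 := by exact_mod_cast hp.ne_zero
  have hpos : 0 < o v ((p : ℤ) : L) := by
    rw [o_pos_iff v hpL, val_int_lt_one_iff]; exact hpv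
  have h2 : ¬ ((p : ℤ) : 𝓞 L) ∈ v.asIdeal ^ 2 := by
    intro hmem
    have hunr := (NumberField.not_dvd_discr_iff_forall_mem L (𝓞 L) hpZ).1 hd v.asIdeal v.isPrime (by exact_mod_cast hpv)
    rw [← not_dvd_differentIdeal_iff] at hunr
    apply hunr
    have hmax : (Ideal.span {(p : ℤ)}).IsMaximal :=
      PrincipalIdealRing.isMaximal_of_irreducible hpZ.irreducible
    have h3 := pow_sub_one_dvd_differentIdeal ℤ (p := Ideal.span {(p : ℤ)}) v.asIdeal 2
      (by rw [Ne, Ideal.span_singleton_eq_bot]; exact hpZ.ne_zero) (by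
        rw [Ideal.map_span, Set.image_singleton, Ideal.dvd_span_singleton]
        simpa using hmem)
    simpa using h3
  have h3 : ¬ 2 ≤ o v ((p : ℤ) : L) := by
    intro h
    apply h2
    have h4 := v.intValuation_le_pow_iff_mem ((p : ℤ) : 𝓞 L) 2
    rw [← h4]
    have h5 : v.valuation L (((p : ℤ) : 𝓞 L) : L) = v.intValuation ((p : ℤ) : 𝓞 L) :=
      v.valuation_of_algebraMap _
    have h6 : (((p : ℤ) : 𝓞 L) : L) = ((p : ℤ) : L) := by simp
    rw [← h5, h6, ← log_le_iff_le_exp (val_ne_zero v hpL)]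
    unfold o at h
    have h7 : WithZero.log (v.valuation L ((p : ℤ) : L)) ≤ -2 := by linarith
    exact_mod_cast h7
  omega

lemma o_int {p : ℕ} (hp : p.Prime) (hpv : ((p : ℤ) : 𝓞 L) ∈ v.asIdeal) (hd : ¬ (p : ℤ) ∣ discr L)
    {n n₁ : ℤ} {e : ℕ} (hn : n = (p : ℤ) ^ e * n₁) (hn₁ : ¬ (p : ℤ) ∣ n₁) : o v (n : L) = e := by
  have hpZ : Prime (p : ℤ) := Nat.prime_iff_prime_int.1 hp
  have hpL : ((p : ℤ) : L) ≠ 0 := by exact_mod_cast hp.ne_zero
  have hn₁0 : (n₁ : L) ≠ 0 := by
    have : n₁ ≠ 0 := by rintro rfl; exact hn₁ (dvd_zero _)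
    exact_mod_cast this
  have h1 : (n : L) = ((p : ℤ) : L) ^ e * n₁ := by rw [hn]; push_cast; ring
  rw [h1, o_mul v (pow_ne_zero _ hpL) hn₁0, o_pow, o_prime v hp hpv hd,
    o_of_val_one v (val_int_coprime v hpv ((Prime.coprime_iff_not_dvd hpZ).2 hn₁))]
  ring

/-- quadratic polynomials -/
lemma quad_gt {t : L} (a b : ℤ) (h : 1 < v.valuation L t) :
    v.valuation L (t ^ 2 + a * t + b) = (v.valuation L t) ^ 2 := by
  set w := v.valuation L with hw
  have h1 : w (a * t + b) ≤ w t := by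
    refine (w.map_add _ _).trans (max_le ?_ ?_)
    · rw [map_mul]
      exact mul_le_of_le_one_left' (val_int_le_one v a)
    · exact (val_int_le_one v b).trans h.le
  have h2 : w (a * t + b) < w (t ^ 2) := by
    rw [map_pow]
    refine lt_of_le_of_lt h1 ?_
    rw [pow_two]
    exact lt_mul_of_one_lt_left (lt_trans zero_lt_one h) h
  have h3 : t ^ 2 + a * t + b = t ^ 2 + (a * t + b) := by ring
  rw [h3, Valuation.map_add_eq_of_lt_left _ h2, map_pow]

lemma quad_lt {t : L} (a b : ℤ) (h : v.valuation L t < 1) (hb : v.valuation L (b : L) = 1) :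
    v.valuation L (t ^ 2 + a * t + b) = 1 := by
  set w := v.valuation L with hw
  have h1 : w (t ^ 2 + a * t) < 1 := by
    refine lt_of_le_of_lt (w.map_add _ _) (max_lt ?_ ?_)
    · rw [map_pow]; exact pow_lt_one' h (by norm_num)
    · rw [map_mul]
      exact lt_of_le_of_lt (mul_le_of_le_one_left' (val_int_le_one v a)) h
  rw [← hb] at h1
  rw [add_comm (t ^ 2 + a * t), Valuation.map_add_eq_of_lt_left _ h1, hb]

lemma quad_le {t : L} (a b : ℤ) (h : v.valuation L t ≤ 1) : v.valuation L (t ^ 2 + a * t + b) ≤ 1 := by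
  set w := v.valuation L with hw
  refine (w.map_add _ _).trans (max_le ((w.map_add _ _).trans (max_le ?_ ?_)) (val_int_le_one v b))
  · rw [map_pow]; exact pow_le_one' h _
  · rw [map_mul]
    exact mul_le_one' (val_int_le_one v a) h

lemma integral_of_o {x : L} (h : ∀ v : HeightOneSpectrum (𝓞 L), v.valuation L x ≤ 1) : IsIntegral ℤ x := by
  obtain ⟨z, hz⟩ := HeightOneSpectrum.mem_integers_of_valuation_le_one L x h
  rw [← hz]
  exact z.2

end val

section trace

open Module Matrix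

variable {L : Type*} [Field L] [NumberField L]

lemma traces (pb : PowerBasis ℚ L) (hd : pb.dim = 6) (a5 a4 a3 a2 a1 a0 : ℚ)
    (h : pb.gen ^ 6 + a5 * pb.gen ^ 5 + a4 * pb.gen ^ 4 + a3 * pb.gen ^ 3 + a2 * pb.gen ^ 2 + a1 * pb.gen + a0 = 0) :
    Algebra.trace ℚ L pb.gen = -a5 ∧ Algebra.trace ℚ L (pb.gen ^ 2) = a5 ^ 2 - 2 * a4 := by
  classical
  let b : Basis (Fin 6) ℚ L := pb.basis.reindex (finCongr hd)
  have hb : ∀ i : Fin 6, b i = pb.gen ^ (i : ℕ) := by
    intro i
    simp [b]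
  set V : L := pb.gen with hVdef
  have key : ∀ (a : L) (j : Fin 6) (col : Fin 6 → ℚ), a * b j = ∑ i, col i • b i →
      ∀ i, Algebra.leftMulMatrix b a i j = col i := by
    intro a j col h i
    rw [Algebra.leftMulMatrix_eq_repr_mul, h]
    exact congrFun (by exact_mod_cast b.repr_sum_self col) i
  have h6 : V ^ 6 = -(a5 * V ^ 5 + a4 * V ^ 4 + a3 * V ^ 3 + a2 * V ^ 2 + a1 * V + a0) := by
    linear_combination h
  constructor
  · rw [Algebra.trace_eq_matrix_trace b]
    have hM : Algebra.leftMulMatrix b V = !![0, 0, 0, 0, 0, -a0;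
        1, 0, 0, 0, 0, -a1;
        0, 1, 0, 0, 0, -a2;
        0, 0, 1, 0, 0, -a3;
        0, 0, 0, 1, 0, -a4;
        0, 0, 0, 0, 1, -a5] := by
      have hcol : ∀ j : Fin 6, V * b j = ∑ i, (!![0, 0, 0, 0, 0, -a0;
        1, 0, 0, 0, 0, -a1;
        0, 1, 0, 0, 0, -a2;
        0, 0, 1, 0, 0, -a3;
        0, 0, 0, 1, 0, -a4;
        0, 0, 0, 0, 1, -a5] : Matrix (Fin 6) (Fin 6) ℚ) i j • b i := by
        intro j
        fin_cases j
        · simp [Fin.sum_univ_succ, hb]
        · simp [Fin.sum_univ_succ, hb]; ring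
        · simp [Fin.sum_univ_succ, hb]; ring
        · simp [Fin.sum_univ_succ, hb]; ring
        · simp [Fin.sum_univ_succ, hb]; ring
        · simp [Fin.sum_univ_succ, hb, Rat.smul_def]
          linear_combination h6
      ext i j
      exact key _ j (fun i => _) (hcol j) i
    rw [hM]
    simp [Matrix.trace, Fin.sum_univ_succ]
  · rw [Algebra.trace_eq_matrix_trace b]
    have hM : Algebra.leftMulMatrix b (V ^ 2) = !![0, 0, 0, 0, -a0, a5 * a0;
        0, 0, 0, 0, -a1, a5 * a1 - a0;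
        1, 0, 0, 0, -a2, a5 * a2 - a1;
        0, 1, 0, 0, -a3, a5 * a3 - a2;
        0, 0, 1, 0, -a4, a5 * a4 - a3;
        0, 0, 0, 1, -a5, a5 * a5 - a4] := by
      have hcol : ∀ j : Fin 6, V ^ 2 * b j = ∑ i, (!![0, 0, 0, 0, -a0, a5 * a0;
        0, 0, 0, 0, -a1, a5 * a1 - a0;
        1, 0, 0, 0, -a2, a5 * a2 - a1;
        0, 1, 0, 0, -a3, a5 * a3 - a2;
        0, 0, 1, 0, -a4, a5 * a4 - a3;
        0, 0, 0, 1, -a5, a5 * a5 - a4] : Matrix (Fin 6) (Fin 6) ℚ) i j • b i := by
        intro j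
        fin_cases j
        · simp [Fin.sum_univ_succ, hb]
        · simp [Fin.sum_univ_succ, hb]; ring
        · simp [Fin.sum_univ_succ, hb]; ring
        · simp [Fin.sum_univ_succ, hb]; ring
        · simp [Fin.sum_univ_succ, hb, Rat.smul_def]
          linear_combination h6
        · simp [Fin.sum_univ_succ, hb, Rat.smul_def]
          linear_combination (V - a5) * h6
      ext i j
      exact key _ j (fun i => _) (hcol j) i
    rw [hM]
    simp [Matrix.trace, Fin.sum_univ_succ]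
    ring

end trace

end Pool.Agent.H19.QF
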